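import Pool.Agent.H74.TO.Conf
import Pool.Agent.H74.MD.Row0Res

namespace Pool.Agent.H74.TO

open Pool.Agent.H74.MD

theorem dn {n a b : ℤ} (h : n ∣ a) (e : b = -a) : n ∣ b := by rw [e]; exact (dvd_neg).2 h

theorem cyc_zero {n : ℤ} (hn : 0 < n) : cyc n 0 = 0 :=
  cyc_of_dvd_sub le_rfl (by omega) hn (by simp)

/-- reflection argument, third point at the origin -/
theorem apex0 {s t A1 A2 B1 B2 : ℤ} (hs : 0 < s) (ht : 0 < t) (x y : ℤ)
    (hE : cyc s x + cyc t y = cyc s (A1 + B1 - x) + cyc t (A2 + B2 - y))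
    (hF : ¬ (s ∣ A1 + B1 - 2 * x ∧ t ∣ A2 + B2 - 2 * y))
    (hA : ¬ (s ∣ x - A1 ∧ t ∣ y - A2)) (hB : ¬ (s ∣ x - B1 ∧ t ∣ y - B2)) :
    Cf s t {(0, 0), (A1, A2), (B1, B2)} := by
  have z1 := cyc_nonneg (n := s) (u := x) hs
  have z2 := cyc_nonneg (n := t) (u := y) ht
  have z3 := cyc_nonneg (n := s) (u := A1 + B1 - x) hs
  have z4 := cyc_nonneg (n := t) (u := A2 + B2 - y) ht
  refine ⟨(x, y), (A1 + B1 - x, A2 + B2 - y), ?_, ?_, ?_, ?_⟩
  · rintro ⟨k1, k2⟩
    simp only at k1 k2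
    apply hF
    refine ⟨?_, ?_⟩
    · exact dn k1 (by ring)
    · exact dn k2 (by ring)
  · intro a ha
    simp only [Multiset.insert_eq_cons, Multiset.mem_cons, Multiset.mem_singleton] at ha
    rcases ha with rfl | rfl | rfl
    · rintro ⟨k1, k2⟩
      simp only [sub_zero] at k1 k2
      have c1 : cyc s x = 0 := by
        rw [cyc_congr (v := 0) (by simpa using k1)]; exact cyc_zero hs
      have c2 : cyc t y = 0 := by
        rw [cyc_congr (v := 0) (by simpa using k2)]; exact cyc_zero ht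
      have d1 := cyc_eq_zero (n := s) (u := A1 + B1 - x) (by omega)
      have d2 := cyc_eq_zero (n := t) (u := A2 + B2 - y) (by omega)
      apply hF
      refine ⟨?_, ?_⟩
      · have e : A1 + B1 - 2 * x = (A1 + B1 - x) - x := by ring
        rw [e]; exact dvd_sub d1 k1
      · have e : A2 + B2 - 2 * y = (A2 + B2 - y) - y := by ring
        rw [e]; exact dvd_sub d2 k2
    · exact hA
    · exact hB
  · intro a ha
    simp only [Multiset.insert_eq_cons, Multiset.mem_cons, Multiset.mem_singleton] at ha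
    rcases ha with rfl | rfl | rfl
    · rintro ⟨k1, k2⟩
      simp only [sub_zero] at k1 k2
      have c1 : cyc s (A1 + B1 - x) = 0 := by
        rw [cyc_congr (v := 0) (by simpa using k1)]; exact cyc_zero hs
      have c2 : cyc t (A2 + B2 - y) = 0 := by
        rw [cyc_congr (v := 0) (by simpa using k2)]; exact cyc_zero ht
      have d1 := cyc_eq_zero (n := s) (u := x) (by omega)
      have d2 := cyc_eq_zero (n := t) (u := y) (by omega)
      apply hF
      refine ⟨?_, ?_⟩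
      · have e : A1 + B1 - 2 * x = (A1 + B1 - x) - x := by ring
        rw [e]; exact dvd_sub k1 d1
      · have e : A2 + B2 - 2 * y = (A2 + B2 - y) - y := by ring
        rw [e]; exact dvd_sub k2 d2
    · rintro ⟨k1, k2⟩
      simp only at k1 k2
      apply hB
      refine ⟨?_, ?_⟩
      · exact dn k1 (by ring)
      · exact dn k2 (by ring)
    · rintro ⟨k1, k2⟩
      simp only at k1 k2
      apply hA
      refine ⟨?_, ?_⟩
      · exact dn k1 (by ring)
      · exact dn k2 (by ring)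
  · simp only [code, dt, Multiset.insert_eq_cons, Multiset.map_cons, Multiset.map_singleton,
      sub_zero, hE]
    congr 1
    have e1 : cyc s (A1 + B1 - x - A1) = cyc s (x - B1) := by
      rw [← cyc_neg hs]; congr 1; ring
    have e2 : cyc t (A2 + B2 - y - A2) = cyc t (y - B2) := by
      rw [← cyc_neg ht]; congr 1; ring
    have e3 : cyc s (A1 + B1 - x - B1) = cyc s (x - A1) := by
      rw [← cyc_neg hs]; congr 1; ring
    have e4 : cyc t (A2 + B2 - y - B2) = cyc t (y - A2) := by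
      rw [← cyc_neg ht]; congr 1; ring
    rw [e1, e2, e3, e4]
    exact Multiset.cons_swap _ _ 0

/-- two candidates -/
theorem apex2 {s t A1 A2 B1 B2 : ℤ} (hs : 0 < s) (ht : 0 < t) (x y x' y' : ℤ)
    (hE : cyc s x + cyc t y = cyc s (A1 + B1 - x) + cyc t (A2 + B2 - y))
    (hF : ¬ (s ∣ A1 + B1 - 2 * x ∧ t ∣ A2 + B2 - 2 * y))
    (hE' : cyc s x' + cyc t y' = cyc s (A1 + B1 - x') + cyc t (A2 + B2 - y'))
    (hF' : ¬ (s ∣ A1 + B1 - 2 * x' ∧ t ∣ A2 + B2 - 2 * y'))
    (h1 : ¬ (s ∣ x - x' ∧ t ∣ y - y'))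
    (h2 : ¬ (s ∣ A1 + B1 - x - x' ∧ t ∣ A2 + B2 - y - y')) :
    Cf s t {(0, 0), (A1, A2), (B1, B2)} := by
  by_cases hA : s ∣ x - A1 ∧ t ∣ y - A2
  · refine apex0 hs ht x' y' hE' hF' ?_ ?_
    · rintro ⟨k1, k2⟩
      apply h1
      refine ⟨?_, ?_⟩
      · have e : x - x' = (x - A1) - (x' - A1) := by ring
        rw [e]; exact dvd_sub hA.1 k1
      · have e : y - y' = (y - A2) - (y' - A2) := by ring
        rw [e]; exact dvd_sub hA.2 k2
    · rintro ⟨k1, k2⟩
      apply h2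
      refine ⟨?_, ?_⟩
      · have e : A1 + B1 - x - x' = -((x - A1) + (x' - B1)) := by ring
        rw [e]; exact (dvd_neg).2 (dvd_add hA.1 k1)
      · have e : A2 + B2 - y - y' = -((y - A2) + (y' - B2)) := by ring
        rw [e]; exact (dvd_neg).2 (dvd_add hA.2 k2)
  by_cases hB : s ∣ x - B1 ∧ t ∣ y - B2
  · refine apex0 hs ht x' y' hE' hF' ?_ ?_
    · rintro ⟨k1, k2⟩
      apply h2
      refine ⟨?_, ?_⟩
      · have e : A1 + B1 - x - x' = -((x - B1) + (x' - A1)) := by ring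
        rw [e]; exact (dvd_neg).2 (dvd_add hB.1 k1)
      · have e : A2 + B2 - y - y' = -((y - B2) + (y' - A2)) := by ring
        rw [e]; exact (dvd_neg).2 (dvd_add hB.2 k2)
    · rintro ⟨k1, k2⟩
      apply h1
      refine ⟨?_, ?_⟩
      · have e : x - x' = (x - B1) - (x' - B1) := by ring
        rw [e]; exact dvd_sub hB.1 k1
      · have e : y - y' = (y - B2) - (y' - B2) := by ring
        rw [e]; exact dvd_sub hB.2 k2
  exact apex0 hs ht x y hE hF hA hB

/-- difference of the distances to `0` and to `d` on the cycle -/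
def Fn (n d x : ℤ) : ℤ := cyc n x - cyc n (d - x)

theorem Fn_congr {n d x x' : ℤ} (h : n ∣ x - x') : Fn n d x = Fn n d x' := by
  unfold Fn
  rw [cyc_congr h, cyc_congr (u := d - x) (v := d - x') (by
    have e : d - x - (d - x') = -(x - x') := by ring
    rw [e]; exact (dvd_neg).2 h)]

theorem Fn_refl (n d x : ℤ) : Fn n d (d - x) = - Fn n d x := by
  unfold Fn
  have : d - (d - x) = x := by ring
  rw [this]; ring

theorem Fn_fixed {n d x : ℤ} (h : n ∣ d - 2 * x) : Fn n d x = 0 := by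
  have h1 := Fn_refl n d x
  have h2 : Fn n d (d - x) = Fn n d x := Fn_congr (by convert h using 1; ring)
  omega

/-- two candidates with prescribed nonzero differences -/
theorem apexG {s t A1 A2 B1 B2 : ℤ} (hs : 0 < s) (ht : 0 < t) (x y x' y' c c' : ℤ)
    (h1 : Fn s (A1 + B1) x = c) (h2 : Fn t (A2 + B2) y = -c)
    (h1' : Fn s (A1 + B1) x' = c') (h2' : Fn t (A2 + B2) y' = -c')
    (hc : c ≠ 0) (hc' : c' ≠ 0) (hcc : c + c' ≠ 0)
    (hne : c ≠ c' ∨ ¬ s ∣ x - x' ∨ ¬ t ∣ y - y') :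
    Cf s t {(0, 0), (A1, A2), (B1, B2)} := by
  refine apex2 hs ht x y x' y' ?_ ?_ ?_ ?_ ?_ ?_
  · unfold Fn at h1 h2; omega
  · rintro ⟨k, -⟩
    exact hc (by rw [← h1]; exact Fn_fixed k)
  · unfold Fn at h1' h2'; omega
  · rintro ⟨k, -⟩
    exact hc' (by rw [← h1']; exact Fn_fixed k)
  · rintro ⟨k1, k2⟩
    have := Fn_congr (d := A1 + B1) k1
    rcases hne with h | h | h
    · apply h; rw [← h1, ← h1', this]
    · exact h k1
    · exact h k2
  · rintro ⟨k1, k2⟩
    have e := Fn_refl s (A1 + B1) x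
    have e2 : Fn s (A1 + B1) (A1 + B1 - x) = Fn s (A1 + B1) x' := Fn_congr k1
    apply hcc
    omega

/-! ### one-dimensional solutions -/

/-- normal form of a residue up to sign -/
theorem exists_sign {n : ℤ} (hn : 0 < n) (d : ℤ) :
    ∃ D e : ℤ, 0 ≤ D ∧ 2 * D ≤ n ∧ (e = 1 ∨ e = -1) ∧ n ∣ d - e * D ∧ D = cyc n d := by
  refine ⟨cyc n d, ?_⟩
  rcases cyc_dvd (n := n) (u := d) with h | h
  · exact ⟨1, cyc_nonneg hn, two_cyc_le hn, Or.inl rfl, by simpa using h, rfl⟩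
  · exact ⟨-1, cyc_nonneg hn, two_cyc_le hn, Or.inr rfl, by simpa using h, rfl⟩

theorem Fn_sign {n d e D x c : ℤ} (hn : 0 < n) (he : e = 1 ∨ e = -1) (hd : n ∣ d - e * D)
    (h : cyc n x - cyc n (D - x) = c) : Fn n d (e * x) = c := by
  unfold Fn
  rw [cyc_sign hn he, cyc_congr (u := d - e * x) (v := e * (D - x)) (by
    have e1 : d - e * x - e * (D - x) = d - e * D := by ring
    rw [e1]; exact hd), cyc_sign hn he]
  exact h

/-- `n` odd, `d ≢ 0`: the value `1` occurs -/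
theorem odd_one {n h d : ℤ} (hn : n = 2 * h + 1) (hh : 1 ≤ h) (hd : ¬ n ∣ d) :
    ∃ x, Fn n d x = 1 := by
  have hn0 : 0 < n := by omega
  obtain ⟨D, e, h0, h1, he, hd', hD⟩ := exists_sign hn0 d
  have hD0 : D ≠ 0 := by
    rintro rfl
    exact hd (by simpa using hd')
  obtain ⟨k, hk | hk⟩ : ∃ k, D = 2 * k ∨ D = 2 * k + 1 := ⟨D / 2, by omega⟩
  · refine ⟨e * (-(h - (k - 1))), Fn_sign hn0 he hd' ?_⟩
    have e1 : cyc n (-(h - (k - 1))) = h - (k - 1) := cyc_m (by omega) (by omega) hn0 (by omega)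
    have e2 : cyc n (D - -(h - (k - 1))) = h - k := cyc_w (by omega) (by omega) hn0 (by omega)
    rw [e1, e2]; omega
  · refine ⟨e * (k + 1), Fn_sign hn0 he hd' ?_⟩
    have e1 : cyc n (k + 1) = k + 1 := cyc_p (by omega) (by omega) hn0 rfl
    have e2 : cyc n (D - (k + 1)) = k := cyc_p (by omega) (by omega) hn0 (by omega)
    rw [e1, e2]; omega

/-- `n` odd, `|d| ≥ 2`: the value `2` occurs -/
theorem odd_two {n h d : ℤ} (hn : n = 2 * h + 1) (hd : 2 ≤ cyc n d) (hn0 : 0 < n) :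
    ∃ x, Fn n d x = 2 := by
  obtain ⟨D, e, h0, h1, he, hd', hD⟩ := exists_sign hn0 d
  rw [← hD] at hd
  obtain ⟨k, hk | hk⟩ : ∃ k, D = 2 * k ∨ D = 2 * k + 1 := ⟨D / 2, by omega⟩
  · refine ⟨e * (k + 1), Fn_sign hn0 he hd' ?_⟩
    have e1 : cyc n (k + 1) = k + 1 := cyc_p (by omega) (by omega) hn0 rfl
    have e2 : cyc n (D - (k + 1)) = k - 1 := cyc_p (by omega) (by omega) hn0 (by omega)
    rw [e1, e2]; omega
  · refine ⟨e * (-(h - (k - 1))), Fn_sign hn0 he hd' ?_⟩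
    have e1 : cyc n (-(h - (k - 1))) = h - (k - 1) := cyc_m (by omega) (by omega) hn0 (by omega)
    have e2 : cyc n (D - -(h - (k - 1))) = h - k - 1 :=
      cyc_w (by omega) (by omega) hn0 (by omega)
    rw [e1, e2]; omega

/-- `n ≥ 5`, `|d| = 1`: the value `1` occurs twice -/
theorem one_one {n d : ℤ} (hn : 4 ≤ n) (hd : cyc n d = 1) :
    ∃ x x', Fn n d x = 1 ∧ Fn n d x' = 1 ∧ ¬ n ∣ x - x' := by
  have hn0 : 0 < n := by omega
  obtain ⟨D, e, h0, h1, he, hd', hD⟩ := exists_sign hn0 d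
  have hD1 : D = 1 := by omega
  subst hD1
  refine ⟨e * 1, e * 2, Fn_sign hn0 he hd' ?_, Fn_sign hn0 he hd' ?_, ?_⟩
  · have e1 : cyc n 1 = 1 := cyc_p (by omega) (by omega) hn0 rfl
    have e2 : cyc n (1 - 1) = 0 := cyc_p (by omega) (by omega) hn0 (by omega)
    rw [e1, e2]; omega
  · have e1 : cyc n 2 = 2 := cyc_p (by omega) (by omega) hn0 rfl
    have e2 : cyc n (1 - 2) = 1 := cyc_m (by omega) (by omega) hn0 (by omega)
    rw [e1, e2]; omega
  · intro hdv
    have := Int.le_of_dvd (by omega : (0 : ℤ) < 1) (show n ∣ 1 by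
      rcases he with rfl | rfl
      · have h := (dvd_neg).2 hdv
        simpa using h
      · simpa using hdv)
    omega

/-- `n` even, `d` odd: the value `1` occurs twice -/
theorem even_one {n g d : ℤ} (hn : n = 2 * g) (hg : 2 ≤ g) (hd : d % 2 = 1) :
    ∃ x x', Fn n d x = 1 ∧ Fn n d x' = 1 ∧ ¬ n ∣ x - x' := by
  have hn0 : 0 < n := by omega
  obtain ⟨D, e, h0, h1, he, hd', hD⟩ := exists_sign hn0 d
  have hodd : D % 2 = 1 := by
    obtain ⟨k, hk⟩ := hd'
    rw [hn, mul_assoc] at hk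
    rcases he with rfl | rfl <;> omega
  obtain ⟨k, hk⟩ : ∃ k, D = 2 * k + 1 := ⟨D / 2, by omega⟩
  refine ⟨e * (k + 1), e * (-(g - k)), Fn_sign hn0 he hd' ?_, Fn_sign hn0 he hd' ?_, ?_⟩
  · have e1 : cyc n (k + 1) = k + 1 := cyc_p (by omega) (by omega) hn0 rfl
    have e2 : cyc n (D - (k + 1)) = k := cyc_p (by omega) (by omega) hn0 (by omega)
    rw [e1, e2]; omega
  · have e1 : cyc n (-(g - k)) = g - k := cyc_m (by omega) (by omega) hn0 (by omega)
    have e2 : cyc n (D - -(g - k)) = g - k - 1 := cyc_w (by omega) (by omega) hn0 (by omega)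
    rw [e1, e2]; omega
  · intro hdv
    have h2 : n ∣ g + 1 := by
      rcases he with rfl | rfl
      · convert hdv using 1; ring
      · exact dn hdv (by ring)
    have := Int.le_of_dvd (by omega) h2
    omega

/-- `n` even, `d` even and not zero: the value `2` occurs, twice if `n ≥ 6` -/
theorem even_two {n g d : ℤ} (hn : n = 2 * g) (hg : 2 ≤ g) (hd : d % 2 = 0) (hd0 : ¬ n ∣ d) :
    ∃ x x', Fn n d x = 2 ∧ Fn n d x' = 2 ∧ (3 ≤ g → ¬ n ∣ x - x') := by
  have hn0 : 0 < n := by omega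
  obtain ⟨D, e, h0, h1, he, hd', hD⟩ := exists_sign hn0 d
  have hodd : D % 2 = 0 := by
    obtain ⟨k, hk⟩ := hd'
    rw [hn, mul_assoc] at hk
    rcases he with rfl | rfl <;> omega
  have hD0 : D ≠ 0 := by
    rintro rfl
    exact hd0 (by simpa using hd')
  obtain ⟨k, hk⟩ : ∃ k, D = 2 * k := ⟨D / 2, by omega⟩
  refine ⟨e * (k + 1), e * (-(g - (k - 1))), Fn_sign hn0 he hd' ?_, Fn_sign hn0 he hd' ?_, ?_⟩
  · have e1 : cyc n (k + 1) = k + 1 := cyc_p (by omega) (by omega) hn0 rfl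
    have e2 : cyc n (D - (k + 1)) = k - 1 := cyc_p (by omega) (by omega) hn0 (by omega)
    rw [e1, e2]; omega
  · have e1 : cyc n (-(g - (k - 1))) = g - (k - 1) := cyc_m (by omega) (by omega) hn0 (by omega)
    have e2 : cyc n (D - -(g - (k - 1))) = g - (k - 1) - 2 :=
      cyc_w (by omega) (by omega) hn0 (by omega)
    rw [e1, e2]; omega
  · intro hg3 hdv
    have h2 : n ∣ g + 2 := by
      rcases he with rfl | rfl
      · convert hdv using 1; ring
      · exact dn hdv (by ring)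
    have := Int.le_of_dvd (by omega) h2
    omega

/-- fixed points -/
theorem fix_odd {n h : ℤ} (hn : n = 2 * h + 1) (d : ℤ) : ∃ x, n ∣ d - 2 * x :=
  ⟨d * (h + 1), ⟨-d, by rw [hn]; ring⟩⟩

theorem fix_even {n g d : ℤ} (hn : n = 2 * g) (hg : 1 ≤ g) (hd : d % 2 = 0) :
    ∃ x x', n ∣ d - 2 * x ∧ n ∣ d - 2 * x' ∧ ¬ n ∣ x - x' := by
  refine ⟨d / 2, d / 2 + g, ⟨0, by omega⟩, ⟨-1, by omega⟩, ?_⟩
  intro h
  have e : d / 2 - (d / 2 + g) = -g := by ring
  rw [e, dvd_neg] at h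
  have := Int.le_of_dvd (by omega) h
  omega

end Pool.Agent.H74.TO
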