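import Pool.Agent.H74.TO.Conf

namespace Pool.Agent.H74.TO

open SimpleGraph Pool.Agent.H74.MD

theorem dist_cycle {n : ℕ} (hn : 3 ≤ n) (u a : Fin n) :
    ((cycleGraph n).dist u a : ℤ) = cyc n ((u : ℤ) - a) := by
  have hn' : (2 : ℤ) ≤ n := by omega
  have hn0 : (0 : ℤ) < n := by omega
  set f : Fin n → ℕ := fun w => (cyc n ((w : ℤ) - a)).toNat with hf
  have main := dist_eq_of (cycleGraph n) a f ?_ ?_ ?_ ?_ u
  · rw [main]
    simp only [hf]
    have := cyc_nonneg (n := n) (u := (u : ℤ) - a) hn0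
    rw [Int.toNat_of_nonneg this]
  · simp only [hf, sub_self]
    have : cyc (n : ℤ) 0 = 0 := cyc_of_dvd_sub le_rfl (by omega) hn0 (by simp)
    rw [this]; simp
  · intro x h
    simp only [hf] at h
    have := cyc_nonneg (n := n) (u := (x : ℤ) - a) hn0
    have h1 : cyc n ((x : ℤ) - a) = 0 := by omega
    exact fin_eq_of_dvd x a (cyc_eq_zero h1)
  · intro x x' h
    simp only [hf]
    have c1 := cyc_nonneg (n := n) (u := (x : ℤ) - a) hn0
    have c2 := cyc_nonneg (n := n) (u := (x' : ℤ) - a) hn0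
    rw [cycle_adj_iff (by omega)] at h
    have := cyc_lip (n := n) (u := (x : ℤ) - a) (v := (x' : ℤ) - a) hn' (by
      rcases h with h | h
      · left; convert h using 1; ring
      · right; convert h using 1; ring)
    omega
  · intro x h
    simp only [hf] at h
    have c1 := cyc_nonneg (n := n) (u := (x : ℤ) - a) hn0
    have c2 := two_cyc_le (n := n) (u := (x : ℤ) - a) hn0
    have hc : cyc n ((x : ℤ) - a) ≠ 0 := by omega
    rcases cyc_dvd (n := n) (u := (x : ℤ) - a) with hd | hd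
    · have hred := red_dvd n (by omega) ((x : ℤ) - 1)
      refine ⟨red n (by omega) ((x : ℤ) - 1), ?_, ?_⟩
      · rw [cycle_adj_iff (by omega)]
        left
        have : (x : ℤ) - (red n (by omega) ((x : ℤ) - 1) : ℕ) - 1 =
          ((x : ℤ) - 1) - (red n (by omega) ((x : ℤ) - 1) : ℕ) := by ring
        rw [this]; exact hred
      · simp only [hf]
        have e : cyc n (((red n (by omega) ((x : ℤ) - 1) : ℕ) : ℤ) - a) =
            cyc n ((x : ℤ) - a) - 1 := by
          apply cyc_of_dvd_sub (by omega) (by omega) hn0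
          have : ((red n (by omega) ((x : ℤ) - 1) : ℕ) : ℤ) - a - (cyc n ((x : ℤ) - a) - 1) =
            ((x : ℤ) - a - cyc n ((x : ℤ) - a)) -
              (((x : ℤ) - 1) - (red n (by omega) ((x : ℤ) - 1) : ℕ)) := by ring
          rw [this]
          exact dvd_sub hd hred
        rw [e]
        omega
    · have hred := red_dvd n (by omega) ((x : ℤ) + 1)
      refine ⟨red n (by omega) ((x : ℤ) + 1), ?_, ?_⟩
      · rw [cycle_adj_iff (by omega)]
        right
        have : (x : ℤ) - (red n (by omega) ((x : ℤ) + 1) : ℕ) + 1 =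
          ((x : ℤ) + 1) - (red n (by omega) ((x : ℤ) + 1) : ℕ) := by ring
        rw [this]; exact hred
      · simp only [hf]
        have e : cyc n (((red n (by omega) ((x : ℤ) + 1) : ℕ) : ℤ) - a) =
            cyc n ((x : ℤ) - a) - 1 := by
          apply cyc_of_dvd_add (by omega) (by omega) hn0
          have : ((red n (by omega) ((x : ℤ) + 1) : ℕ) : ℤ) - a + (cyc n ((x : ℤ) - a) - 1) =
            ((x : ℤ) - a + cyc n ((x : ℤ) - a)) -
              (((x : ℤ) + 1) - (red n (by omega) ((x : ℤ) + 1) : ℕ)) := by ring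
          rw [this]
          exact dvd_sub hd hred
        rw [e]
        omega

theorem dist_torus {s t : ℕ} (hs : 3 ≤ s) (ht : 3 ≤ t) (u v : Fin s × Fin t) :
    (((cycleGraph s) □ (cycleGraph t)).dist u v : ℤ) =
      cyc s ((u.1 : ℤ) - v.1) + cyc t ((u.2 : ℤ) - v.2) := by
  rw [← dist_cycle hs, ← dist_cycle ht]
  have h1 : (cycleGraph s).Connected := by
    obtain ⟨k, rfl⟩ : ∃ k, s = k + 1 := ⟨s - 1, by omega⟩
    exact cycleGraph_connected
  have h2 : (cycleGraph t).Connected := by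
    obtain ⟨k, rfl⟩ : ∃ k, t = k + 1 := ⟨t - 1, by omega⟩
    exact cycleGraph_connected
  have e := edist_boxProd (G := cycleGraph s) (H := cycleGraph t) u v
  have a1 : (((cycleGraph s).dist u.1 v.1 : ℕ) : ℕ∞) = (cycleGraph s).edist u.1 v.1 :=
    (h1 u.1 v.1).coe_dist_eq_edist
  have a2 : (((cycleGraph t).dist u.2 v.2 : ℕ) : ℕ∞) = (cycleGraph t).edist u.2 v.2 :=
    (h2 u.2 v.2).coe_dist_eq_edist
  have a3 : ((((cycleGraph s) □ (cycleGraph t)).dist u v : ℕ) : ℕ∞) =
      ((cycleGraph s) □ (cycleGraph t)).edist u v :=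
    ((h1.boxProd h2) u v).coe_dist_eq_edist
  rw [← a1, ← a2, ← a3] at e
  have e' : ((cycleGraph s) □ (cycleGraph t)).dist u v =
      (cycleGraph s).dist u.1 v.1 + (cycleGraph t).dist u.2 v.2 := by exact_mod_cast e
  rw [e']
  push_cast
  rfl

/-- integer coordinates of a vertex -/
def pt {s t : ℕ} (v : Fin s × Fin t) : ℤ × ℤ := (((v.1 : ℕ) : ℤ), ((v.2 : ℕ) : ℤ))

theorem code_pt {s t : ℕ} (hs : 3 ≤ s) (ht : 3 ≤ t) (S : Finset (Fin s × Fin t))
    (u : Fin s × Fin t) :
    code s t (S.val.map pt) (pt u) =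
      (S.val.map (fun a => ((cycleGraph s) □ (cycleGraph t)).dist u a)).map
        (fun i : ℕ => (i : ℤ)) := by
  unfold code
  rw [Multiset.map_map, Multiset.map_map]
  apply Multiset.map_congr rfl
  intro a _
  simp only [Function.comp_def]
  rw [dist_torus hs ht]
  rfl

theorem pt_inj {s t : ℕ} {u v : Fin s × Fin t} (h : Eqv s t (pt u) (pt v)) : u = v :=
  Prod.ext (fin_eq_of_dvd u.1 v.1 h.1) (fin_eq_of_dvd u.2 v.2 h.2)

theorem outer_iff {s t : ℕ} (hs : 3 ≤ s) (ht : 3 ≤ t) (S : Finset (Fin s × Fin t)) :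
    IsOuterMultisetResolving ((cycleGraph s) □ (cycleGraph t)) S ↔
      ¬ Cf s t (S.val.map pt) := by
  constructor
  · rintro H ⟨x, y, h1, h2, h3, h4⟩
    have hs0 : 0 < s := by omega
    have ht0 : 0 < t := by omega
    let rd : ℤ × ℤ → Fin s × Fin t := fun w => (red s hs0 w.1, red t ht0 w.2)
    have hrd : ∀ w, Eqv s t w (pt (rd w)) := fun w => ⟨red_dvd s hs0 w.1, red_dvd t ht0 w.2⟩
    have key := H (rd x) (rd y) ?_ ?_ ?_
    · apply h1
      have e := hrd x
      rw [key] at e
      exact e.trans' (hrd y).symm'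
    · intro hm
      exact h2 _ (Multiset.mem_map_of_mem pt hm) (hrd x)
    · intro hm
      exact h3 _ (Multiset.mem_map_of_mem pt hm) (hrd y)
    · apply Multiset.map_injective (f := fun i : ℕ => (i : ℤ)) Nat.cast_injective
      rw [← code_pt hs ht, ← code_pt hs ht]
      have e : ∀ w, code s t (S.val.map pt) w = code s t (S.val.map pt) (pt (rd w)) := by
        intro w
        unfold code
        apply Multiset.map_congr rfl
        intro a _
        exact dt_congr (Eqv.refl' _ _ _) (hrd w)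
      rw [← e, ← e]
      exact h4
  · intro H u v hu hv huv
    by_contra hne
    apply H
    refine ⟨pt u, pt v, fun h => hne (pt_inj h), ?_, ?_, ?_⟩
    · intro a ha h
      rw [Multiset.mem_map] at ha
      obtain ⟨b, hb, rfl⟩ := ha
      exact hu (by rw [pt_inj h]; exact hb)
    · intro a ha h
      rw [Multiset.mem_map] at ha
      obtain ⟨b, hb, rfl⟩ := ha
      exact hv (by rw [pt_inj h]; exact hb)
    · rw [code_pt hs ht, code_pt hs ht, huv]

theorem odim_le {V : Type*} {G : SimpleGraph V} {S : Finset V} {k : ℕ}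
    (h : IsOuterMultisetResolving G S) (hk : S.card = k) : odim G ≤ k :=
  Nat.sInf_le ⟨S, hk, h⟩

theorem le_odim {V : Type*} {G : SimpleGraph V} {k : ℕ} {S₀ : Finset V}
    (h₀ : IsOuterMultisetResolving G S₀)
    (h : ∀ S : Finset V, IsOuterMultisetResolving G S → k ≤ S.card) : k ≤ odim G := by
  have hne : {k : ℕ | ∃ S : Finset V, S.card = k ∧ IsOuterMultisetResolving G S}.Nonempty :=
    ⟨_, S₀, rfl, h₀⟩
  obtain ⟨S, h1, h2⟩ := Nat.sInf_mem hne
  unfold odim
  rw [← h1]
  exact h S h2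

end Pool.Agent.H74.TO
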