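import Pool.Agent.H74.TO.Conf
import Pool.Agent.H74.MD.Finite

namespace Pool.Agent.H74.TO

/-! ### kernel checker for `no resolving set` -/

/-- cyclic distance to `0` -/
def cc (n i : ℕ) : ℕ :=
  match Nat.ble (Nat.mul 2 (Nat.mod i n)) n with
  | true => Nat.mod i n
  | false => Nat.sub n (Nat.mod i n)

/-- distance to the origin for the index `x` in the doubled layout -/
def di (s t x : ℕ) : ℕ := Nat.add (cc s (Nat.div x (2 * t))) (cc t (Nat.mod x (2 * t)))

/-- bit blocks of the spheres -/
def mkB (s t K : ℕ) : ℕ → ℕ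
  | 0 => 0
  | i + 1 => Nat.lor (mkB s t K i) (Nat.shiftLeft 1 (Nat.add (Nat.mul K (di s t i)) i))

/-- table entry -/
def cell (P x : ℕ) : ℕ := Nat.mod (Nat.shiftRight P (Nat.mul 64 x)) 18446744073709551616

/-- the table `P` is right -/
def okT (s t P : ℕ) : Bool :=
  (List.range (4 * s * t)).all fun i => Nat.beq (cell P i) (Nat.pow 8 (di s t i))

/-- the window -/
def mkWin (s t : ℕ) : ℕ → ℕ
  | 0 => 0
  | i + 1 => match Nat.blt (Nat.mod i (2 * t)) t with
    | true => Nat.lor (mkWin s t i) (Nat.shiftLeft 1 i)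
    | false => mkWin s t i

/-- encoding of the distances from `u` to the base points -/
def codeB (S P : ℕ) (base : List ℕ) (u : ℕ) : ℕ :=
  base.foldr (fun a c => Nat.add (cell P (Nat.sub (Nat.add u S) a)) c) (cell P u)

/-- fold the 16 blocks together -/
def fold16 (K X : ℕ) : ℕ :=
  (fun X1 => (fun X2 => (fun X3 => Nat.lor X3 (Nat.shiftRight X3 K))
    (Nat.lor X2 (Nat.shiftRight X2 (Nat.mul 2 K))))
    (Nat.lor X1 (Nat.shiftRight X1 (Nat.mul 4 K))))
    (Nat.lor X (Nat.shiftRight X (Nat.mul 8 K)))

/-- points excluded by a witness; `e` true: equal codes, any common distance -/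
def kill (K S B : ℕ) (e : Bool) (u v be al : ℕ) : ℕ :=
  match e with
  | true => fold16 K (Nat.land (Nat.shiftRight B (Nat.add K (Nat.sub S u)))
      (Nat.shiftRight B (Nat.add K (Nat.sub S v))))
  | false => Nat.land (Nat.shiftRight B (Nat.add (Nat.mul K be) (Nat.sub S u)))
      (Nat.shiftRight B (Nat.add (Nat.mul K al) (Nat.sub S v)))

/-- validity of a witness -/
def okw (S Win P : ℕ) (base : List ℕ) (e : Bool) (u v be al : ℕ) : Bool :=
  Nat.beq (Nat.land (Nat.land (Nat.shiftRight Win u) (Nat.shiftRight Win v)) 1) 1 &&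
  (!(Nat.beq u v) &&
  (match e with
  | true => (fun c => Nat.beq c (codeB S P base v) && Nat.beq (Nat.land c 7) 0)
      (codeB S P base u)
  | false => (fun c => Nat.beq c (Nat.add (codeB S P base v) (Nat.pow 8 al)) &&
      Nat.beq (Nat.land c 7) 0) (Nat.add (codeB S P base u) (Nat.pow 8 be))))

/-- the points that need not be covered -/
def excl (base : List ℕ) : ℕ :=
  match base with
  | [] => 0
  | x :: l => l.foldr (fun a m => Nat.lor (Nat.shiftLeft 1 a) m)
      (Nat.sub (Nat.shiftLeft 1 (Nat.add x 1)) 1)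

/-- the mask covers everything needed -/
def covered (Win : ℕ) (base : List ℕ) (acc : ℕ) : Bool :=
  Nat.beq (Nat.land (Nat.lor acc (excl base)) Win) Win

/-- the main loop: words of 32 bits, `u` (10), `v` (10), `be` (5), `al` (5), last (1), `e` (1) -/
def loop (K S Win B P : ℕ) : ℕ → List (List ℕ) → ℕ → ℕ → List ℕ → Bool
  | 0, _, _, _, _ => false
  | n + 1, items, acc, W, Ws =>
    match items with
    | [] => true
    | base :: rest =>
      match Nat.beq W 0 with
      | true => match Ws with
        | [] => false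
        | W' :: Ws' => loop K S Win B P n (base :: rest) acc W' Ws'
      | false =>
        (fun u v be al fl => okw S Win P base (Nat.ble 2 fl) u v be al &&
          (match Nat.beq (Nat.land fl 1) 1 with
          | true => covered Win base (Nat.lor acc (kill K S B (Nat.ble 2 fl) u v be al)) &&
              loop K S Win B P n rest 0 (Nat.shiftRight W 32) Ws
          | false => loop K S Win B P n (base :: rest)
              (Nat.lor acc (kill K S B (Nat.ble 2 fl) u v be al)) (Nat.shiftRight W 32) Ws))
          (Nat.mod W 1024) (Nat.mod (Nat.shiftRight W 10) 1024)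
          (Nat.mod (Nat.shiftRight W 20) 32) (Nat.mod (Nat.shiftRight W 25) 32)
          (Nat.mod (Nat.shiftRight W 30) 4)

/-- key of a point -/
def keyN (s t x1 x2 : ℕ) : ℕ := Nat.add (Nat.mul (cc s x1) 64) (cc t x2)

/-- conditions on the third point -/
def condq (s t a b q : ℕ) : Bool :=
  Nat.blt (Nat.mod q (2 * t)) t &&
  (!(Nat.beq q 0) && (!(Nat.beq q (a * (2 * t) + b)) && (!(Nat.beq (a + b) 0) &&
  (Nat.ble (keyN s t a b) (keyN s t (Nat.div q (2 * t)) (Nat.mod q (2 * t))) &&
  (Nat.ble (keyN s t a b) (keyN s t (Nat.sub (Nat.add (Nat.div q (2 * t)) s) a)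
    (Nat.sub (Nat.add (Nat.mod q (2 * t)) t) b)) &&
  Nat.ble q (Nat.add (Nat.mul (Nat.mod (Nat.sub (Nat.add a s) (Nat.div q (2 * t))) s) (2 * t))
    (Nat.mod (Nat.sub (Nat.add b t) (Nat.mod q (2 * t))) t)))))))

/-- base pairs for a row -/
def items (s t a : ℕ) : List (List ℕ) :=
  (List.range (t / 2 + 1)).flatMap fun b =>
    ((List.range (2 * s * t)).filter (condq s t a b)).map fun q => [q, a * (2 * t) + b]

/-- all points of the window except the origin -/
def winList (s t : ℕ) : List ℕ :=
  (List.range (2 * s * t)).filter fun x => Nat.blt (Nat.mod x (2 * t)) t && !(Nat.beq x 0)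

/-- decreasing lists of points, smallest point in `[lo, hi)` -/
def combos (s t lo hi : ℕ) : ℕ → List (List ℕ)
  | 0 => ((winList s t).filter fun x => Nat.ble lo x && Nat.blt x hi).map fun x => [x]
  | k + 1 => (combos s t lo hi k).flatMap fun c =>
      ((winList s t).filter fun x => Nat.blt (c.headD 0) x).map fun x => x :: c

end Pool.Agent.H74.TO
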