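import Pool.Agent.H74.TO.ChkSpec

namespace Pool.Agent.H74.TO

open Pool.Agent.H74.MD

variable {s t K S Win B P : ℕ}

theorem inW_iff (ht : 0 < t) {x : ℕ} : inW s t x ↔ x < 2 * s * t ∧ x % (2 * t) < t := by
  unfold inW
  have h0 : 0 < 2 * t := by omega
  have e : 2 * s * t = s * (2 * t) := by ring
  rw [e, Nat.div_lt_iff_lt_mul h0]

theorem inW_idx {a b : ℕ} (ha : a < s) (hb : b < t) : inW s t (a * (2 * t) + b) := by
  unfold inW
  obtain ⟨h1, h2⟩ := idx_split (t := t) (a := a) (b := b) (by omega)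
  rw [h1, h2]
  exact ⟨ha, hb⟩

theorem items_ok {a : ℕ} (hs : 0 < s) (ht : 0 < t) (ha : 2 * a ≤ s) :
    ∀ base ∈ items s t a, (∀ x ∈ base, inW s t x) ∧ base.length ≤ 5 := by
  intro base hb
  unfold items at hb
  rw [List.mem_flatMap] at hb
  obtain ⟨b, hb1, hb2⟩ := hb
  rw [List.mem_range] at hb1
  rw [List.mem_map] at hb2
  obtain ⟨q, hq, rfl⟩ := hb2
  rw [List.mem_filter, List.mem_range] at hq
  obtain ⟨hq1, hq2⟩ := hq
  unfold condq at hq2
  rw [Bool.and_eq_true, Nat.blt_eq] at hq2
  refine ⟨?_, by simp⟩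
  intro x hx
  rw [List.mem_cons, List.mem_singleton] at hx
  rcases hx with rfl | rfl
  · exact (inW_iff ht).2 ⟨hq1, hq2.1⟩
  · exact inW_idx (by omega) (by omega)

/-- everything is confused for the base pairs of the row -/
def RowOK (s t a : ℕ) : Prop :=
  ∀ base ∈ items s t a, ∀ r, inW s t r → (excl base).testBit r = false → Cfb s t base r

theorem Tab.row (T : Tab s t K S Win B P) {a : ℕ} (ha : 2 * a ≤ s) {n : ℕ} {Ws : List ℕ}
    (h : loop K S Win B P n (items s t a) 0 0 Ws = true) : RowOK s t a :=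
  T.loop_spec n _ _ _ _ h (items_ok T.hs T.ht ha) (fun b _ _ => Good_zero b)

theorem mem_winList (ht : 0 < t) {x : ℕ} : x ∈ winList s t ↔ inW s t x ∧ x ≠ 0 := by
  unfold winList
  rw [List.mem_filter, List.mem_range, Bool.and_eq_true, Nat.blt_eq, inW_iff ht]
  have : (!(Nat.beq x 0)) = true ↔ x ≠ 0 := by
    rw [Bool.not_eq_true', ← Bool.not_eq_true, Nat.beq_eq]
  rw [this]
  tauto

/-- everything is confused for the decreasing lists with smallest element in `[lo, hi)` -/
def ComOK (s t lo hi k : ℕ) : Prop :=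
  ∀ base ∈ combos s t lo hi k, ∀ r, inW s t r → (excl base).testBit r = false → Cfb s t base r

theorem combos_ok (ht : 0 < t) {lo hi : ℕ} : ∀ k : ℕ, ∀ base ∈ combos s t lo hi k,
    (∀ x ∈ base, inW s t x) ∧ base.length = k + 1 := by
  intro k
  induction k with
  | zero =>
    intro base hb
    unfold combos at hb
    rw [List.mem_map] at hb
    obtain ⟨x, hx, rfl⟩ := hb
    rw [List.mem_filter, mem_winList ht] at hx
    refine ⟨?_, rfl⟩
    intro y hy
    rw [List.mem_singleton] at hy
    subst hy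
    exact hx.1.1
  | succ k ih =>
    intro base hb
    unfold combos at hb
    rw [List.mem_flatMap] at hb
    obtain ⟨c, hc, hb⟩ := hb
    rw [List.mem_map] at hb
    obtain ⟨x, hx, rfl⟩ := hb
    rw [List.mem_filter, mem_winList ht] at hx
    obtain ⟨i1, i2⟩ := ih c hc
    refine ⟨?_, by rw [List.length_cons, i2]⟩
    intro y hy
    rw [List.mem_cons] at hy
    rcases hy with rfl | hy
    · exact hx.1.1
    · exact i1 y hy

theorem mem_combos (ht : 0 < t) {lo hi : ℕ} : ∀ (k : ℕ) (base : List ℕ),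
    base.length = k + 1 → base.Pairwise (fun x y => y < x) → (∀ x ∈ base, inW s t x ∧ x ≠ 0) →
    (∀ h : base ≠ [], lo ≤ base.getLast h ∧ base.getLast h < hi) →
    base ∈ combos s t lo hi k := by
  intro k
  induction k with
  | zero =>
    intro base h1 h2 h3 h4
    obtain ⟨x, rfl⟩ := List.length_eq_one_iff.1 h1
    unfold combos
    rw [List.mem_map]
    refine ⟨x, ?_, rfl⟩
    have h5 := h4 (by simp)
    rw [List.getLast_singleton] at h5
    rw [List.mem_filter, mem_winList ht, Bool.and_eq_true, Nat.ble_eq, Nat.blt_eq]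
    exact ⟨h3 x (by simp), h5⟩
  | succ k ih =>
    intro base h1 h2 h3 h4
    obtain ⟨x, c, rfl⟩ := List.exists_cons_of_length_eq_add_one h1
    have hc : c.length = k + 1 := by simpa using h1
    have hne : c ≠ [] := by
      intro e; rw [e] at hc; simp at hc
    obtain ⟨y, c', rfl⟩ := List.exists_cons_of_length_eq_add_one hc
    unfold combos
    rw [List.mem_flatMap]
    refine ⟨y :: c', ih _ hc (List.Pairwise.of_cons h2)
      (fun z hz => h3 z (List.mem_cons_of_mem _ hz)) ?_, ?_⟩
    · intro h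
      have := h4 (by simp)
      rw [List.getLast_cons h] at this
      exact this
    · rw [List.mem_map]
      refine ⟨x, ?_, rfl⟩
      rw [List.mem_filter, mem_winList ht, Nat.blt_eq]
      refine ⟨h3 x List.mem_cons_self, ?_⟩
      rw [List.pairwise_cons] at h2
      exact h2.1 y List.mem_cons_self

theorem Tab.com (T : Tab s t K S Win B P) {lo hi k : ℕ} (hk : k ≤ 4) {n : ℕ} {Ws : List ℕ}
    (h : loop K S Win B P n (combos s t lo hi k) 0 0 Ws = true) : ComOK s t lo hi k :=
  T.loop_spec n _ _ _ _ h (fun b hb => by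
    obtain ⟨h1, h2⟩ := combos_ok T.ht k b hb
    exact ⟨h1, by omega⟩) (fun b _ _ => Good_zero b)

end Pool.Agent.H74.TO
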