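import Pool.Agent.H74.TO.Chk
import Pool.Agent.H74.TO.Apex

namespace Pool.Agent.H74.TO

open Pool.Agent.H74.MD

theorem cc_cast {n i : ℕ} (hn : 0 < n) : (cc n i : ℤ) = cyc n i := by
  unfold cc cyc
  have h1 : i % n < n := Nat.mod_lt _ hn
  have h2 : (((i % n : ℕ)) : ℤ) = (i : ℤ) % n := by push_cast; rfl
  rw [← h2]
  have e1 : Nat.mod i n = i % n := rfl
  simp only [e1]
  rcases Nat.lt_or_ge n (2 * (i % n)) with h | h
  · have hb : Nat.ble (Nat.mul 2 (i % n)) n = false := by
      rw [← Bool.not_eq_true, Nat.ble_eq]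
      show ¬ (2 * (i % n) ≤ n)
      omega
    rw [hb]
    show (((n - i % n : ℕ)) : ℤ) = _
    omega
  · have hb : Nat.ble (Nat.mul 2 (i % n)) n = true := by
      rw [Nat.ble_eq]
      exact h
    rw [hb]
    show (((i % n : ℕ)) : ℤ) = _
    omega

/-- the point with doubled index `x` -/
def ofD (t x : ℕ) : ℤ × ℤ := (((x / (2 * t) : ℕ) : ℤ), ((x % (2 * t) : ℕ) : ℤ))

/-- the index is in the window -/
def inW (s t x : ℕ) : Prop := x / (2 * t) < s ∧ x % (2 * t) < t

/-- distance between two points given by their indices -/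
def dd (s t a u : ℕ) : ℕ :=
  cc s (u / (2 * t) + s - a / (2 * t)) + cc t (u % (2 * t) + t - a % (2 * t))

theorem dd_cast {s t a u : ℕ} (hs : 0 < s) (ht : 0 < t) (ha : inW s t a) :
    (dd s t a u : ℤ) = dt s t (ofD t a) (ofD t u) := by
  obtain ⟨h1, h2⟩ := ha
  unfold dd dt ofD
  simp only
  generalize a / (2 * t) = a1 at *
  generalize a % (2 * t) = a2 at *
  generalize u / (2 * t) = u1 at *
  generalize u % (2 * t) = u2 at *
  rw [Nat.cast_add, cc_cast hs, cc_cast ht, Nat.cast_sub (by omega), Nat.cast_sub (by omega),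
    Nat.cast_add, Nat.cast_add]
  congr 1
  · apply cyc_congr
    exact ⟨1, by ring⟩
  · apply cyc_congr
    exact ⟨1, by ring⟩

theorem idx_split {t a b : ℕ} (h : b < 2 * t) :
    (a * (2 * t) + b) / (2 * t) = a ∧ (a * (2 * t) + b) % (2 * t) = b := by
  have h0 : 0 < 2 * t := by omega
  constructor
  · rw [mul_comm, Nat.mul_add_div h0, Nat.div_eq_of_lt h]; rfl
  · rw [mul_comm, Nat.mul_add_mod, Nat.mod_eq_of_lt h]

theorem idx_sub {s t a u : ℕ} (ha : inW s t a) (hu : inW s t u) :
    (u + (2 * s * t + t) - a) / (2 * t) = u / (2 * t) + s - a / (2 * t) ∧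
    (u + (2 * s * t + t) - a) % (2 * t) = u % (2 * t) + t - a % (2 * t) ∧
    u + (2 * s * t + t) - a < 4 * s * t := by
  obtain ⟨h1, h2⟩ := ha
  obtain ⟨h3, h4⟩ := hu
  have ea := Nat.div_add_mod a (2 * t)
  have eu := Nat.div_add_mod u (2 * t)
  generalize a / (2 * t) = a1 at *
  generalize a % (2 * t) = a2 at *
  generalize u / (2 * t) = u1 at *
  generalize u % (2 * t) = u2 at *
  have key : u + (2 * s * t + t) - a = (u1 + s - a1) * (2 * t) + (u2 + t - a2) := by
    rw [← ea, ← eu]
    obtain ⟨k, hk⟩ : ∃ k, s = a1 + k := ⟨s - a1, by omega⟩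
    obtain ⟨m, hm⟩ : ∃ m, t = a2 + m := ⟨t - a2, by omega⟩
    have e1 : u1 + s - a1 = u1 + k := by omega
    have e2 : u2 + t - a2 = u2 + m := by omega
    rw [e1, e2]
    have e3 : 2 * t * u1 + u2 + (2 * s * t + t) = (2 * t * a1 + a2) +
        ((u1 + k) * (2 * t) + (u2 + m)) := by
      have e4 : 2 * t * u1 + u2 + (2 * s * t + t) = 2 * t * u1 + u2 + (2 * (a1 + k) * t +
        (a2 + m)) := by rw [← hk, ← hm]
      rw [e4]; ring
    rw [e3]
    exact Nat.add_sub_cancel_left _ _
  have hlt : u2 + t - a2 < 2 * t := by omega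
  rw [key]
  refine ⟨(idx_split hlt).1, (idx_split hlt).2, ?_⟩
  have : u1 + s - a1 + 1 ≤ 2 * s := by omega
  calc (u1 + s - a1) * (2 * t) + (u2 + t - a2) < (u1 + s - a1) * (2 * t) + 2 * t :=
        Nat.add_lt_add_left hlt _
    _ = (u1 + s - a1 + 1) * (2 * t) := by ring
    _ ≤ (2 * s) * (2 * t) := Nat.mul_le_mul_right _ this
    _ = 4 * s * t := by ring

theorem di_eq {s t a u : ℕ} (ha : inW s t a) (hu : inW s t u) :
    di s t (u + (2 * s * t + t) - a) = dd s t a u := by
  obtain ⟨e1, e2, -⟩ := idx_sub ha hu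
  unfold di dd
  show cc s ((u + (2 * s * t + t) - a) / (2 * t)) + cc t ((u + (2 * s * t + t) - a) % (2 * t)) = _
  rw [e1, e2]

theorem cc_add_self {n i : ℕ} : cc n (i + n) = cc n i := by
  unfold cc
  have : Nat.mod (i + n) n = Nat.mod i n := Nat.add_mod_right i n
  rw [this]

theorem di_zero {s t u : ℕ} : di s t u = dd s t 0 u := by
  unfold di dd
  show cc s (u / (2 * t)) + cc t (u % (2 * t)) = _
  rw [Nat.zero_div, Nat.zero_mod, Nat.sub_zero, Nat.sub_zero, cc_add_self, cc_add_self]

theorem inW_zero {s t : ℕ} (hs : 0 < s) (ht : 0 < t) : inW s t 0 := by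
  unfold inW
  rw [Nat.zero_div, Nat.zero_mod]
  exact ⟨hs, ht⟩

theorem dd_symm {s t a u : ℕ} (hs : 0 < s) (ht : 0 < t) (ha : inW s t a) (hu : inW s t u) :
    dd s t a u = dd s t u a := by
  have h1 := dd_cast (u := u) hs ht ha
  have h2 := dd_cast (u := a) hs ht hu
  have h3 : dt s t (ofD t a) (ofD t u) = dt s t (ofD t u) (ofD t a) := by
    unfold dt
    rw [← cyc_neg (n := (s : ℤ)) (u := (ofD t u).1 - (ofD t a).1) (by exact_mod_cast hs),
      ← cyc_neg (n := (t : ℤ)) (u := (ofD t u).2 - (ofD t a).2) (by exact_mod_cast ht),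
      neg_sub, neg_sub]
  have : (dd s t a u : ℤ) = dd s t u a := by rw [h1, h2, h3]
  exact_mod_cast this

theorem dd_eq_zero {s t a u : ℕ} (hs : 0 < s) (ht : 0 < t) (ha : inW s t a)
    (h : Eqv s t (ofD t u) (ofD t a)) : dd s t a u = 0 := by
  have h1 := dd_cast (u := u) hs ht ha
  rw [dt_congr (Eqv.refl' _ _ _) h, dt_self _ _ (by exact_mod_cast hs) (by exact_mod_cast ht)] at h1
  exact_mod_cast h1

theorem ofD_inj {s t a u : ℕ} (ha : inW s t a) (hu : inW s t u)
    (h : Eqv s t (ofD t u) (ofD t a)) : u = a := by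
  obtain ⟨h1, h2⟩ := ha
  obtain ⟨h3, h4⟩ := hu
  obtain ⟨k1, k2⟩ := h
  unfold ofD at k1 k2
  simp only at k1 k2
  have aux : ∀ n x y : ℕ, x < n → y < n → (n : ℤ) ∣ (x : ℤ) - y → x = y := by
    intro n x y hx hy hd
    obtain ⟨k, hk⟩ := hd
    rcases lt_trichotomy k 0 with hk0 | hk0 | hk0
    · have : (n : ℤ) * k ≤ (n : ℤ) * (-1) := mul_le_mul_of_nonneg_left (by omega) (by omega)
      omega
    · subst hk0; omega
    · have : (n : ℤ) * 1 ≤ (n : ℤ) * k := mul_le_mul_of_nonneg_left (by omega) (by omega)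
      omega
  rw [← Nat.div_add_mod u (2 * t), ← Nat.div_add_mod a (2 * t), aux _ _ _ h3 h1 k1,
    aux _ _ _ h4 h2 k2]

/-- main criterion -/
theorem Cf_of_codes {s t : ℕ} (hs : 0 < s) (ht : 0 < t) (L : List ℕ) (hL : L.length ≤ 7)
    (hW : ∀ a ∈ L, inW s t a) {u v : ℕ} (hu : inW s t u) (hv : inW s t v) (huv : u ≠ v)
    (h1 : enc (L.map fun a => dd s t a u) = enc (L.map fun a => dd s t a v))
    (h2 : enc (L.map fun a => dd s t a u) % 8 = 0) :
    Cf s t ((L.map (ofD t) : List (ℤ × ℤ)) : Multiset (ℤ × ℤ)) := by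
  have z : ∀ w, enc (L.map fun a => dd s t a w) % 8 = 0 → ∀ a ∈ L, dd s t a w ≠ 0 := by
    intro w hw a ha h0
    have hc := enc_count (l := L.map fun a => dd s t a w) (by simpa using hL) 0
    rw [pow_zero, Nat.div_one, hw] at hc
    have hm : (0 : ℕ) ∈ L.map fun a => dd s t a w := List.mem_map.2 ⟨a, ha, h0⟩
    have := List.count_pos_iff.2 hm
    omega
  refine ⟨ofD t u, ofD t v, fun h => huv (ofD_inj hv hu h), ?_, ?_, ?_⟩
  · intro a ha h
    rw [Multiset.mem_coe, List.mem_map] at ha
    obtain ⟨b, hb, rfl⟩ := ha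
    exact z u h2 b hb (dd_eq_zero hs ht (hW b hb) h)
  · intro a ha h
    rw [Multiset.mem_coe, List.mem_map] at ha
    obtain ⟨b, hb, rfl⟩ := ha
    exact z v (by rw [← h1]; exact h2) b hb (dd_eq_zero hs ht (hW b hb) h)
  · have hp := perm_of_enc (l := L.map fun a => dd s t a u) (l' := L.map fun a => dd s t a v)
      (by simpa using hL) (by simpa using hL) h1
    have key : ∀ w : ℕ, code s t ((L.map (ofD t) : List (ℤ × ℤ)) : Multiset (ℤ × ℤ)) (ofD t w) =
        (((L.map fun a => dd s t a w).map (fun i : ℕ => (i : ℤ)) : List ℤ) : Multiset ℤ) := by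
      intro w
      unfold code
      rw [Multiset.map_coe, List.map_map, List.map_map]
      congr 1
      apply List.map_congr_left
      intro b hb
      exact (dd_cast hs ht (hW b hb)).symm
    rw [key, key]
    exact Multiset.coe_eq_coe.2 (hp.map _)

theorem mkB_spec {s t K : ℕ} : ∀ n x : ℕ, (mkB s t K n).testBit x = true →
    ∃ i < n, x = K * di s t i + i := by
  intro n
  induction n with
  | zero => intro x h; simp [mkB] at h
  | succ n ih =>
    intro x h
    unfold mkB at h
    change (mkB s t K n ||| (1 <<< (K * di s t n + n))).testBit x = true at h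
    rw [Nat.testBit_or, Bool.or_eq_true] at h
    rcases h with h | h
    · obtain ⟨i, hi, e⟩ := ih x h
      exact ⟨i, by omega, e⟩
    · refine ⟨n, by omega, ?_⟩
      rw [Nat.one_shiftLeft, Nat.testBit_two_pow] at h
      exact (of_decide_eq_true h).symm

theorem mkWin_spec {s t : ℕ} : ∀ n x : ℕ, (mkWin s t n).testBit x = true ↔
    x < n ∧ x % (2 * t) < t := by
  intro n
  induction n with
  | zero => intro x; simp [mkWin]
  | succ n ih =>
    intro x
    unfold mkWin
    rcases hb : Nat.blt (Nat.mod n (2 * t)) t with _ | _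
    · simp only
      rw [ih]
      have hb' : ¬ (n % (2 * t) < t) := by
        intro h
        have : Nat.blt (Nat.mod n (2 * t)) t = true := by rw [Nat.blt_eq]; exact h
        rw [hb] at this
        exact absurd this (by simp)
      constructor
      · rintro ⟨h1, h2⟩; exact ⟨by omega, h2⟩
      · rintro ⟨h1, h2⟩
        refine ⟨?_, h2⟩
        rcases Nat.lt_succ_iff_lt_or_eq.1 h1 with h | h
        · exact h
        · subst h; exact absurd h2 hb'
    · simp only
      change (mkWin s t n ||| (1 <<< n)).testBit x = true ↔ _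
      rw [Nat.blt_eq] at hb
      rw [Nat.testBit_or, Bool.or_eq_true, ih, Nat.one_shiftLeft, Nat.testBit_two_pow]
      constructor
      · rintro (⟨h1, h2⟩ | h)
        · exact ⟨by omega, h2⟩
        · have : n = x := by simpa using h
          subst this
          exact ⟨by omega, hb⟩
      · rintro ⟨h1, h2⟩
        rcases Nat.lt_succ_iff_lt_or_eq.1 h1 with h | h
        · exact Or.inl ⟨h, h2⟩
        · right; subst h; simp

/-- everything about the tables -/
structure Tab (s t K S Win B P : ℕ) : Prop where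
  hs : 0 < s
  ht : 0 < t
  hK : K = 4 * s * t
  hS : S = 2 * s * t + t
  hB : Nat.beq (mkB s t K (4 * s * t)) B = true
  hP : okT s t P = true
  hW : Nat.beq (mkWin s t (2 * s * t)) Win = true

variable {s t K S Win B P : ℕ}

theorem Tab.win (T : Tab s t K S Win B P) (x : ℕ) : Win.testBit x = true ↔ inW s t x := by
  have h := Nat.eq_of_beq_eq_true T.hW
  rw [← h, mkWin_spec]
  unfold inW
  have h0 : 0 < 2 * t := by have := T.ht; omega
  have e : 2 * s * t = s * (2 * t) := by ring
  constructor
  · rintro ⟨h1, h2⟩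
    refine ⟨?_, h2⟩
    rw [e] at h1
    exact (Nat.div_lt_iff_lt_mul h0).2 h1
  · rintro ⟨h1, h2⟩
    refine ⟨?_, h2⟩
    rw [e]
    exact (Nat.div_lt_iff_lt_mul h0).1 h1

theorem Tab.cellP (T : Tab s t K S Win B P) {x : ℕ} (hx : x < 4 * s * t) :
    cell P x = 8 ^ di s t x := by
  have h := T.hP
  unfold okT at h
  rw [List.all_eq_true] at h
  exact Nat.eq_of_beq_eq_true (h x (List.mem_range.2 hx))

theorem Tab.bitB (T : Tab s t K S Win B P) {d y : ℕ} (hy : y < 4 * s * t)
    (h : B.testBit (K * d + y) = true) : di s t y = d := by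
  have hb := Nat.eq_of_beq_eq_true T.hB
  rw [← hb] at h
  obtain ⟨i, hi, e⟩ := mkB_spec _ _ h
  rw [T.hK] at e
  have hpos : 0 < 4 * s * t := by omega
  have e1 : (4 * s * t * d + y) / (4 * s * t) = (4 * s * t * di s t i + i) / (4 * s * t) := by
    rw [e]
  have e2 : (4 * s * t * d + y) % (4 * s * t) = (4 * s * t * di s t i + i) % (4 * s * t) := by
    rw [e]
  rw [Nat.mul_add_div hpos, Nat.mul_add_div hpos, Nat.div_eq_of_lt hy, Nat.div_eq_of_lt hi] at e1
  rw [Nat.mul_add_mod, Nat.mul_add_mod, Nat.mod_eq_of_lt hy, Nat.mod_eq_of_lt hi] at e2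
  rw [e2]
  omega

theorem Tab.bit (T : Tab s t K S Win B P) {d u r : ℕ} (hu : inW s t u) (hr : inW s t r)
    (h : B.testBit (K * d + (S - u) + r) = true) : dd s t u r = d := by
  obtain ⟨-, -, h3⟩ := idx_sub hu hr
  rw [← di_eq hu hr]
  apply T.bitB h3
  have hu' : u ≤ 2 * s * t + t := by
    have h0 : 0 < 2 * t := by have := T.ht; omega
    have := (Nat.div_lt_iff_lt_mul h0).1 hu.1
    have e : s * (2 * t) = 2 * s * t := by ring
    omega
  rw [T.hS] at h
  convert h using 2
  omega

theorem Tab.codeB (T : Tab s t K S Win B P) {base : List ℕ} (hb : ∀ a ∈ base, inW s t a)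
    {u : ℕ} (hu : inW s t u) :
    codeB S P base u = enc ((0 :: base).map fun a => dd s t a u) := by
  unfold TO.codeB
  have h0 : cell P u = 8 ^ dd s t 0 u := by
    rw [← di_zero]
    apply T.cellP
    obtain ⟨h1, h2⟩ := hu
    have h0 : 0 < 2 * t := by omega
    have := (Nat.div_lt_iff_lt_mul h0).1 h1
    have e : s * (2 * t) = 2 * s * t := by ring
    have e' : 4 * s * t = 2 * (2 * s * t) := by ring
    omega
  rw [h0]
  have key : ∀ l : List ℕ, (∀ a ∈ l, inW s t a) →
      l.foldr (fun a c => Nat.add (cell P (Nat.sub (Nat.add u S) a)) c) (8 ^ dd s t 0 u) =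
        8 ^ dd s t 0 u + enc (l.map fun a => dd s t a u) := by
    intro l
    induction l with
    | nil => intro _; simp [enc]
    | cons a l ih =>
      intro hl
      rw [List.foldr_cons, ih (fun b hb => hl b (List.mem_cons_of_mem _ hb))]
      have ha := hl a List.mem_cons_self
      have e1 : cell P (Nat.sub (Nat.add u S) a) = 8 ^ dd s t a u := by
        rw [← di_eq ha hu]
        obtain ⟨-, -, h3⟩ := idx_sub ha hu
        rw [← T.cellP h3, ← T.hS]
        rfl
      rw [e1]
      show 8 ^ dd s t a u + (8 ^ dd s t 0 u + enc (List.map (fun a => dd s t a u) l)) = _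
      simp only [enc, List.map_cons, List.sum_cons]
      ring
  rw [key base hb]
  simp only [enc, List.map_cons, List.sum_cons]

/-- confusion for the set `{0} ∪ base ∪ {r}` -/
def Cfb (s t : ℕ) (base : List ℕ) (r : ℕ) : Prop :=
  Cf s t (((r :: 0 :: base).map (ofD t) : List (ℤ × ℤ)) : Multiset (ℤ × ℤ))

theorem fold16_spec {K X r : ℕ} (h : (fold16 K X).testBit r = true) :
    ∃ j, X.testBit (K * j + r) = true := by
  unfold fold16 at h
  simp only at h
  have f1 : ∀ Y m x, (Nat.lor Y (Nat.shiftRight Y m)).testBit x = true →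
      Y.testBit x = true ∨ Y.testBit (m + x) = true := by
    intro Y m x h
    change (Y ||| (Y >>> m)).testBit x = true at h
    rw [Nat.testBit_or, Bool.or_eq_true, Nat.testBit_shiftRight] at h
    exact h
  have step : ∀ (Y Z m : ℕ) , (∀ x, Z.testBit x = true → Y.testBit x = true ∨
      Y.testBit (Nat.mul m K + x) = true) → (∀ x, Y.testBit x = true → ∃ j, X.testBit (K * j + x) = true) →
      ∀ x, Z.testBit x = true → ∃ j, X.testBit (K * j + x) = true := by
    intro Y Z m h1 h2 x hx
    rcases h1 x hx with h | h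
    · exact h2 x h
    · obtain ⟨j, hj⟩ := h2 _ h
      refine ⟨j + m, ?_⟩
      have e : K * (j + m) + x = K * j + (Nat.mul m K + x) := by
        show K * (j + m) + x = K * j + (m * K + x)
        ring
      rw [e]; exact hj
  have s0 : ∀ x, X.testBit x = true → ∃ j, X.testBit (K * j + x) = true := by
    intro x hx
    exact ⟨0, by simpa using hx⟩
  have s1 := step X _ 8 (f1 X (Nat.mul 8 K)) s0
  have s2 := step _ _ 4 (f1 _ (Nat.mul 4 K)) s1
  have s3 := step _ _ 2 (f1 _ (Nat.mul 2 K)) s2
  have s4 := step _ (Nat.lor _ (Nat.shiftRight _ K)) 1 (by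
    intro x hx
    have := f1 _ K x hx
    have e : Nat.mul 1 K = K := Nat.one_mul K
    rw [e]; exact this) s3
  exact s4 r h

theorem Tab.witness (T : Tab s t K S Win B P) {base : List ℕ} (hb : ∀ a ∈ base, inW s t a)
    (hlen : base.length ≤ 5) {e : Bool} {u v be al : ℕ}
    (hok : okw S Win P base e u v be al = true) {r : ℕ} (hr : inW s t r)
    (hk : (kill K S B e u v be al).testBit r = true) : Cfb s t base r := by
  unfold okw at hok
  rw [Bool.and_eq_true, Bool.and_eq_true] at hok
  obtain ⟨h1, h2, h3⟩ := hok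
  have h1' := Nat.eq_of_beq_eq_true h1
  change ((Win >>> u) &&& (Win >>> v)) &&& 1 = 1 at h1'
  rw [Nat.and_one_is_mod] at h1'
  have h1'' : ((Win >>> u) &&& (Win >>> v)).testBit 0 = true := by
    rw [Nat.testBit_zero, h1']; rfl
  rw [Nat.testBit_and, Bool.and_eq_true, Nat.testBit_shiftRight, Nat.testBit_shiftRight,
    Nat.add_zero, Nat.add_zero, T.win, T.win] at h1''
  obtain ⟨hu, hv⟩ := h1''
  have huv : u ≠ v := by
    intro h
    rw [h, Nat.beq_refl] at h2
    exact absurd h2 (by simp)
  have hbase : ∀ a ∈ r :: 0 :: base, inW s t a := by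
    intro a ha
    rw [List.mem_cons, List.mem_cons] at ha
    rcases ha with rfl | rfl | ha
    · exact hr
    · exact inW_zero T.hs T.ht
    · exact hb a ha
  have hl : (r :: 0 :: base).length ≤ 7 := by simp only [List.length_cons]; omega
  have hmod : ∀ c : ℕ, Nat.beq (Nat.land c 7) 0 = true → c % 8 = 0 := by
    intro c hc
    have := Nat.eq_of_beq_eq_true hc
    change c &&& 7 = 0 at this
    have e : (7 : ℕ) = 2 ^ 3 - 1 := by norm_num
    rw [e, Nat.and_two_pow_sub_one_eq_mod] at this
    simpa using this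
  have encs : ∀ w, inW s t w → enc ((r :: 0 :: base).map fun a => dd s t a w) =
      TO.codeB S P base w + 8 ^ dd s t r w := by
    intro w hw
    rw [T.codeB hb hw]
    simp only [enc, List.map_cons, List.sum_cons]
    ring
  rcases e with _ | _
  · -- ordinary witness
    simp only [Bool.and_eq_true] at h3
    obtain ⟨h3, h4⟩ := h3
    have h3' := Nat.eq_of_beq_eq_true h3
    have h4' := hmod _ h4
    unfold kill at hk
    simp only at hk
    change ((B >>> (K * be + (S - u))) &&& (B >>> (K * al + (S - v)))).testBit r = true at hk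
    rw [Nat.testBit_and, Bool.and_eq_true, Nat.testBit_shiftRight, Nat.testBit_shiftRight] at hk
    have d1 := T.bit hu hr hk.1
    have d2 := T.bit hv hr hk.2
    rw [dd_symm T.hs T.ht hu hr] at d1
    rw [dd_symm T.hs T.ht hv hr] at d2
    refine Cf_of_codes T.hs T.ht _ hl hbase hu hv huv ?_ ?_
    · rw [encs u hu, encs v hv, d1, d2]
      exact h3'
    · rw [encs u hu, d1]
      exact h4'
  · simp only [Bool.and_eq_true] at h3
    obtain ⟨h3, h4⟩ := h3
    have h3' := Nat.eq_of_beq_eq_true h3
    have h4' := hmod _ h4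
    unfold kill at hk
    simp only at hk
    obtain ⟨j, hj⟩ := fold16_spec hk
    change ((B >>> (K + (S - u))) &&& (B >>> (K + (S - v)))).testBit (K * j + r) = true at hj
    rw [Nat.testBit_and, Bool.and_eq_true, Nat.testBit_shiftRight, Nat.testBit_shiftRight] at hj
    have e1 : ∀ w, K + (S - w) + (K * j + r) = K * (j + 1) + (S - w) + r := by intro w; ring
    rw [e1, e1] at hj
    have d1 := T.bit hu hr hj.1
    have d2 := T.bit hv hr hj.2
    rw [dd_symm T.hs T.ht hu hr] at d1
    rw [dd_symm T.hs T.ht hv hr] at d2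
    refine Cf_of_codes T.hs T.ht _ hl hbase hu hv huv ?_ ?_
    · rw [encs u hu, encs v hv, d1, d2, h3']
    · rw [encs u hu, d1]
      have : 8 ^ (j + 1) % 8 = 0 := by
        rw [pow_succ]; exact Nat.mul_mod_left _ _
      omega

/-- accumulated mask is sound -/
def Good (s t : ℕ) (base : List ℕ) (acc : ℕ) : Prop :=
  ∀ r, inW s t r → acc.testBit r = true → Cfb s t base r

theorem Tab.good_step (T : Tab s t K S Win B P) {base : List ℕ} (hb : ∀ a ∈ base, inW s t a)
    (hlen : base.length ≤ 5) {e : Bool} {u v be al : ℕ}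
    (hok : okw S Win P base e u v be al = true) {acc : ℕ} (ha : Good s t base acc) :
    Good s t base (Nat.lor acc (kill K S B e u v be al)) := by
  intro r hr h
  change (acc ||| kill K S B e u v be al).testBit r = true at h
  rw [Nat.testBit_or, Bool.or_eq_true] at h
  rcases h with h | h
  · exact ha r hr h
  · exact T.witness hb hlen hok hr h

theorem Tab.covered_spec (T : Tab s t K S Win B P) {base : List ℕ} {acc : ℕ}
    (ha : Good s t base acc) (hc : covered Win base acc = true) {r : ℕ} (hr : inW s t r)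
    (he : (excl base).testBit r = false) : Cfb s t base r := by
  unfold covered at hc
  have h := Nat.eq_of_beq_eq_true hc
  change (acc ||| excl base) &&& Win = Win at h
  have hw := (T.win r).2 hr
  rw [← h, Nat.testBit_and, Bool.and_eq_true, Nat.testBit_or, he, Bool.or_false] at hw
  exact ha r hr hw.1

theorem Good_zero (base : List ℕ) : Good s t base 0 := by
  intro r _ h
  simp at h

theorem Tab.loop_spec (T : Tab s t K S Win B P) : ∀ (n : ℕ) (items : List (List ℕ))
    (acc W : ℕ) (Ws : List ℕ), loop K S Win B P n items acc W Ws = true →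
    (∀ base ∈ items, (∀ a ∈ base, inW s t a) ∧ base.length ≤ 5) →
    (∀ base rest, items = base :: rest → Good s t base acc) →
    ∀ base ∈ items, ∀ r, inW s t r → (excl base).testBit r = false → Cfb s t base r := by
  intro n
  induction n with
  | zero => intro items acc W Ws h; simp [loop] at h
  | succ n ih =>
    intro items acc W Ws h hI hG base hbase r hr hx
    rcases items with _ | ⟨b0, rest⟩
    · simp at hbase
    have hI0 := hI b0 List.mem_cons_self
    have hG0 := hG b0 rest rfl
    unfold loop at h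
    simp only at h
    rcases hW : Nat.beq W 0 with _ | _
    · rw [hW] at h
      simp only [Bool.and_eq_true] at h
      obtain ⟨h1, h2⟩ := h
      rcases hl : Nat.beq (Nat.land (Nat.mod (Nat.shiftRight W 30) 4) 1) 1 with _ | _
      · rw [hl] at h2
        simp only at h2
        refine ih _ _ _ _ h2 hI ?_ base hbase r hr hx
        intro b' r' e
        rw [List.cons.injEq] at e
        obtain ⟨rfl, rfl⟩ := e
        exact T.good_step hI0.1 hI0.2 h1 hG0
      · rw [hl] at h2
        simp only [Bool.and_eq_true] at h2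
        obtain ⟨h2, h3⟩ := h2
        rw [List.mem_cons] at hbase
        rcases hbase with rfl | hbase
        · exact T.covered_spec (T.good_step hI0.1 hI0.2 h1 hG0) h2 hr hx
        · refine ih _ _ _ _ h3 (fun b hb => hI b (List.mem_cons_of_mem _ hb)) ?_ base hbase r hr hx
          intro b' r' _
          exact Good_zero b'
    · rw [hW] at h
      simp only at h
      rcases Ws with _ | ⟨W', Ws'⟩
      · simp at h
      · simp only at h
        exact ih _ _ _ _ h hI hG base hbase r hr hx

theorem excl_spec {x : ℕ} {l : List ℕ} {r : ℕ} (h1 : x < r) (h2 : r ∉ l) :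
    (excl (x :: l)).testBit r = false := by
  unfold excl
  simp only
  induction l with
  | nil =>
    rw [List.foldr_nil]
    change ((1 <<< (x + 1)) - 1).testBit r = false
    rw [Nat.one_shiftLeft, Nat.testBit_two_pow_sub_one]
    simp only [decide_eq_false_iff_not]
    omega
  | cons a l ih =>
    rw [List.foldr_cons]
    rw [List.mem_cons, not_or] at h2
    have ih' := ih h2.2
    change ((1 <<< a) ||| (l.foldr (fun a m => Nat.lor (Nat.shiftLeft 1 a) m)
      (Nat.sub (Nat.shiftLeft 1 (Nat.add x 1)) 1))).testBit r = false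
    rw [Nat.testBit_or, ih', Bool.or_false, Nat.one_shiftLeft, Nat.testBit_two_pow]
    simp only [decide_eq_false_iff_not]
    exact fun h => h2.1 h.symm

end Pool.Agent.H74.TO
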