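import Mathlib

namespace Pool.Agent.H74.TO

open SimpleGraph

/-- `S` is an outer multiset resolving set of `G`: distinct vertices outside `S` have distinct
multisets of distances (with multiplicities) to the elements of `S`. -/
def IsOuterMultisetResolving {V : Type*} (G : SimpleGraph V) (S : Finset V) : Prop :=
  ∀ u v : V, u ∉ S → v ∉ S →
    S.val.map (fun s => G.dist u s) = S.val.map (fun s => G.dist v s) → u = v

/-- The outer multiset dimension: the least cardinality of an outer multiset resolving set. -/
noncomputable def odim {V : Type*} (G : SimpleGraph V) : ℕ :=
  sInf {k : ℕ | ∃ S : Finset V, S.card = k ∧ IsOuterMultisetResolving G S}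

end Pool.Agent.H74.TO
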