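import Pool.Agent.H74.MD.Dist
import Pool.Agent.H74.TO.Defs

namespace Pool.Agent.H74.TO

open SimpleGraph Pool.Agent.H74.MD

/-- distance in the torus, integer representatives -/
def dt (s t : ℤ) (a v : ℤ × ℤ) : ℤ := cyc s (v.1 - a.1) + cyc t (v.2 - a.2)

/-- the multiset of distances -/
def code (s t : ℤ) (L : Multiset (ℤ × ℤ)) (v : ℤ × ℤ) : Multiset ℤ := L.map (fun a => dt s t a v)

/-- same vertex of the torus -/
def Eqv (s t : ℤ) (u v : ℤ × ℤ) : Prop := s ∣ u.1 - v.1 ∧ t ∣ u.2 - v.2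

/-- two distinct vertices outside `L` have the same multiset. -/
def Cf (s t : ℤ) (L : Multiset (ℤ × ℤ)) : Prop :=
  ∃ u v : ℤ × ℤ, ¬ Eqv s t u v ∧ (∀ a ∈ L, ¬ Eqv s t u a) ∧ (∀ a ∈ L, ¬ Eqv s t v a) ∧
    code s t L u = code s t L v

theorem Eqv.refl' (s t : ℤ) (u : ℤ × ℤ) : Eqv s t u u := by
  unfold Eqv; simp

theorem Eqv.symm' {s t : ℤ} {u v : ℤ × ℤ} (h : Eqv s t u v) : Eqv s t v u := by
  unfold Eqv at *
  refine ⟨?_, ?_⟩
  · rw [← neg_sub]; exact (dvd_neg).2 h.1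
  · rw [← neg_sub]; exact (dvd_neg).2 h.2

theorem Eqv.trans' {s t : ℤ} {u v w : ℤ × ℤ} (h : Eqv s t u v) (h' : Eqv s t v w) :
    Eqv s t u w := by
  unfold Eqv at *
  refine ⟨?_, ?_⟩
  · rw [← sub_add_sub_cancel u.1 v.1 w.1]; exact dvd_add h.1 h'.1
  · rw [← sub_add_sub_cancel u.2 v.2 w.2]; exact dvd_add h.2 h'.2

/-- the distance is zero only for equal vertices -/
theorem Eqv_of_dt {s t : ℤ} (hs : 0 < s) (ht : 0 < t) {a v : ℤ × ℤ} (h : dt s t a v = 0) :
    Eqv s t v a := by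
  unfold dt at h
  have h1 := cyc_nonneg (n := s) (u := v.1 - a.1) hs
  have h2 := cyc_nonneg (n := t) (u := v.2 - a.2) ht
  exact ⟨cyc_eq_zero (by omega), cyc_eq_zero (by omega)⟩

theorem dt_congr {s t : ℤ} {a a' v v' : ℤ × ℤ} (h : Eqv s t a a') (h' : Eqv s t v v') :
    dt s t a v = dt s t a' v' := by
  unfold dt
  unfold Eqv at h h'
  rw [cyc_congr (n := s) (u := v.1 - a.1) (v := v'.1 - a'.1) (by
      have e : v.1 - a.1 - (v'.1 - a'.1) = (v.1 - v'.1) - (a.1 - a'.1) := by ring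
      rw [e]; exact dvd_sub h'.1 h.1),
    cyc_congr (n := t) (u := v.2 - a.2) (v := v'.2 - a'.2) (by
      have e : v.2 - a.2 - (v'.2 - a'.2) = (v.2 - v'.2) - (a.2 - a'.2) := by ring
      rw [e]; exact dvd_sub h'.2 h.2)]

theorem dt_self (s t : ℤ) (hs : 0 < s) (ht : 0 < t) (a : ℤ × ℤ) : dt s t a a = 0 := by
  unfold dt
  rw [sub_self, sub_self]
  have h1 : cyc s 0 = 0 := cyc_of_dvd_sub le_rfl (by omega) hs (by simp)
  have h2 : cyc t 0 = 0 := cyc_of_dvd_sub le_rfl (by omega) ht (by simp)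
  rw [h1, h2]; rfl

theorem cyc_sign {n e u : ℤ} (hn : 0 < n) (he : e = 1 ∨ e = -1) : cyc n (e * u) = cyc n u := by
  rcases he with rfl | rfl
  · rw [one_mul]
  · rw [neg_one_mul]; exact cyc_neg hn

/-- transport along an isometry of the torus -/
theorem Cf_iso {α : Type*} {s t : ℤ} (hs : 0 < s) (ht : 0 < t) (e1 e2 c1 c2 : ℤ)
    (he1 : e1 = 1 ∨ e1 = -1) (he2 : e2 = 1 ∨ e2 = -1) (M : Multiset α) (f g : α → ℤ × ℤ)
    (hfg : ∀ a, s ∣ e1 * (f a).1 + c1 - (g a).1 ∧ t ∣ e2 * (f a).2 + c2 - (g a).2)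
    (H : Cf s t (M.map g)) : Cf s t (M.map f) := by
  obtain ⟨u, v, h1, h2, h3, h4⟩ := H
  -- inverse isometry
  let φ : ℤ × ℤ → ℤ × ℤ := fun w => (e1 * (w.1 - c1), e2 * (w.2 - c2))
  have ee1 : e1 * e1 = 1 := by rcases he1 with rfl | rfl <;> norm_num
  have ee2 : e2 * e2 = 1 := by rcases he2 with rfl | rfl <;> norm_num
  have key : ∀ w a, Eqv s t (φ w) (f a) → Eqv s t w (g a) := by
    intro w a h
    obtain ⟨k1, k2⟩ := h
    obtain ⟨m1, m2⟩ := hfg a
    simp only [φ] at k1 k2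
    refine ⟨?_, ?_⟩
    · have e : w.1 - (g a).1 = e1 * (e1 * (w.1 - c1) - (f a).1) + (e1 * (f a).1 + c1 - (g a).1) := by
        have : e1 * (e1 * (w.1 - c1) - (f a).1) = e1 * e1 * (w.1 - c1) - e1 * (f a).1 := by ring
        rw [this, ee1]; ring
      rw [e]
      exact dvd_add (Dvd.dvd.mul_left k1 _) m1
    · have e : w.2 - (g a).2 = e2 * (e2 * (w.2 - c2) - (f a).2) + (e2 * (f a).2 + c2 - (g a).2) := by
        have : e2 * (e2 * (w.2 - c2) - (f a).2) = e2 * e2 * (w.2 - c2) - e2 * (f a).2 := by ring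
        rw [this, ee2]; ring
      rw [e]
      exact dvd_add (Dvd.dvd.mul_left k2 _) m2
  have key2 : Eqv s t (φ u) (φ v) → Eqv s t u v := by
    intro h
    obtain ⟨k1, k2⟩ := h
    simp only [φ] at k1 k2
    refine ⟨?_, ?_⟩
    · have e : u.1 - v.1 = e1 * (e1 * (u.1 - c1) - e1 * (v.1 - c1)) := by
        have : e1 * (e1 * (u.1 - c1) - e1 * (v.1 - c1)) = e1 * e1 * (u.1 - v.1) := by ring
        rw [this, ee1]; ring
      rw [e]; exact Dvd.dvd.mul_left k1 _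
    · have e : u.2 - v.2 = e2 * (e2 * (u.2 - c2) - e2 * (v.2 - c2)) := by
        have : e2 * (e2 * (u.2 - c2) - e2 * (v.2 - c2)) = e2 * e2 * (u.2 - v.2) := by ring
        rw [this, ee2]; ring
      rw [e]; exact Dvd.dvd.mul_left k2 _
  have kd : ∀ w a, dt s t (f a) (φ w) = dt s t (g a) w := by
    intro w a
    obtain ⟨m1, m2⟩ := hfg a
    unfold dt
    simp only [φ]
    rw [← cyc_sign hs he1 (u := e1 * (w.1 - c1) - (f a).1),
      ← cyc_sign ht he2 (u := e2 * (w.2 - c2) - (f a).2)]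
    congr 1
    · apply cyc_congr
      have e : e1 * (e1 * (w.1 - c1) - (f a).1) - (w.1 - (g a).1) =
          - (e1 * (f a).1 + c1 - (g a).1) := by
        have : e1 * (e1 * (w.1 - c1) - (f a).1) = e1 * e1 * (w.1 - c1) - e1 * (f a).1 := by ring
        rw [this, ee1]; ring
      rw [e]; exact (dvd_neg).2 m1
    · apply cyc_congr
      have e : e2 * (e2 * (w.2 - c2) - (f a).2) - (w.2 - (g a).2) =
          - (e2 * (f a).2 + c2 - (g a).2) := by
        have : e2 * (e2 * (w.2 - c2) - (f a).2) = e2 * e2 * (w.2 - c2) - e2 * (f a).2 := by ring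
        rw [this, ee2]; ring
      rw [e]; exact (dvd_neg).2 m2
  refine ⟨φ u, φ v, fun h => h1 (key2 h), ?_, ?_, ?_⟩
  · intro a ha h
    rw [Multiset.mem_map] at ha
    obtain ⟨b, hb, rfl⟩ := ha
    exact h2 _ (Multiset.mem_map_of_mem g hb) (key u b h)
  · intro a ha h
    rw [Multiset.mem_map] at ha
    obtain ⟨b, hb, rfl⟩ := ha
    exact h3 _ (Multiset.mem_map_of_mem g hb) (key v b h)
  · unfold code at h4 ⊢
    rw [Multiset.map_map, Multiset.map_map] at h4 ⊢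
    simp only [Function.comp_def] at h4 ⊢
    simp only [kd]
    exact h4

/-- swap of the two axes -/
theorem Cf_swap {s t : ℤ} {L : Multiset (ℤ × ℤ)} (H : Cf t s (L.map Prod.swap)) : Cf s t L := by
  obtain ⟨u, v, h1, h2, h3, h4⟩ := H
  refine ⟨u.swap, v.swap, ?_, ?_, ?_, ?_⟩
  · intro h; exact h1 ⟨h.2, h.1⟩
  · intro a ha h
    exact h2 a.swap (Multiset.mem_map_of_mem _ ha) ⟨h.2, h.1⟩
  · intro a ha h
    exact h3 a.swap (Multiset.mem_map_of_mem _ ha) ⟨h.2, h.1⟩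
  · unfold code at h4 ⊢
    rw [Multiset.map_map, Multiset.map_map] at h4
    simp only [Function.comp_def] at h4
    have e : ∀ w a : ℤ × ℤ, dt t s a.swap w = dt s t a w.swap := by
      intro w a
      unfold dt
      simp only [Prod.fst_swap, Prod.snd_swap]
      ring
    simp only [e] at h4
    exact h4

end Pool.Agent.H74.TO
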