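import Pool.Agent.H74.TO.Data00
import Pool.Agent.H74.TO.Data01
import Pool.Agent.H74.TO.Data02
import Pool.Agent.H74.TO.Data03
import Pool.Agent.H74.TO.Data04
import Pool.Agent.H74.TO.Data05
import Pool.Agent.H74.TO.Data06
import Pool.Agent.H74.TO.Data07
import Pool.Agent.H74.TO.Data08
import Pool.Agent.H74.TO.Data09
import Pool.Agent.H74.TO.Data10
import Pool.Agent.H74.TO.Data11
import Pool.Agent.H74.TO.Data12
import Pool.Agent.H74.TO.Data13
import Pool.Agent.H74.TO.Data14
import Pool.Agent.H74.TO.Data15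
import Pool.Agent.H74.TO.Data16
import Pool.Agent.H74.TO.Data17
import Pool.Agent.H74.TO.Data18
import Pool.Agent.H74.TO.Data19
import Pool.Agent.H74.TO.Data20
import Pool.Agent.H74.TO.Data21
import Pool.Agent.H74.TO.Data22
import Pool.Agent.H74.TO.Data23
import Pool.Agent.H74.TO.Data24
import Pool.Agent.H74.TO.Data25
import Pool.Agent.H74.TO.Data26
import Pool.Agent.H74.TO.Data27
import Pool.Agent.H74.TO.Data28
import Pool.Agent.H74.TO.Data29
import Pool.Agent.H74.TO.Data30
import Pool.Agent.H74.TO.Data31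
import Pool.Agent.H74.TO.Data32
import Pool.Agent.H74.TO.Data33

namespace Pool.Agent.H74.TO

theorem rows_3_3 (a : ℕ) (ha : 2 * a ≤ 3) : RowOK 3 3 a := by
  have h : a ≤ 1 := by omega
  interval_cases a
  · exact row_3_3_0
  · exact row_3_3_1

theorem rows_3_4 (a : ℕ) (ha : 2 * a ≤ 3) : RowOK 3 4 a := by
  have h : a ≤ 1 := by omega
  interval_cases a
  · exact row_3_4_0
  · exact row_3_4_1

theorem rows_3_5 (a : ℕ) (ha : 2 * a ≤ 3) : RowOK 3 5 a := by
  have h : a ≤ 1 := by omega
  interval_cases a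
  · exact row_3_5_0
  · exact row_3_5_1

theorem rows_3_6 (a : ℕ) (ha : 2 * a ≤ 3) : RowOK 3 6 a := by
  have h : a ≤ 1 := by omega
  interval_cases a
  · exact row_3_6_0
  · exact row_3_6_1

theorem rows_3_7 (a : ℕ) (ha : 2 * a ≤ 3) : RowOK 3 7 a := by
  have h : a ≤ 1 := by omega
  interval_cases a
  · exact row_3_7_0
  · exact row_3_7_1

theorem rows_3_9 (a : ℕ) (ha : 2 * a ≤ 3) : RowOK 3 9 a := by
  have h : a ≤ 1 := by omega
  interval_cases a
  · exact row_3_9_0
  · exact row_3_9_1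

theorem rows_3_11 (a : ℕ) (ha : 2 * a ≤ 3) : RowOK 3 11 a := by
  have h : a ≤ 1 := by omega
  interval_cases a
  · exact row_3_11_0
  · exact row_3_11_1

theorem rows_4_4 (a : ℕ) (ha : 2 * a ≤ 4) : RowOK 4 4 a := by
  have h : a ≤ 2 := by omega
  interval_cases a
  · exact row_4_4_0
  · exact row_4_4_1
  · exact row_4_4_2

theorem rows_4_5 (a : ℕ) (ha : 2 * a ≤ 4) : RowOK 4 5 a := by
  have h : a ≤ 2 := by omega
  interval_cases a
  · exact row_4_5_0
  · exact row_4_5_1
  · exact row_4_5_2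

theorem rows_4_6 (a : ℕ) (ha : 2 * a ≤ 4) : RowOK 4 6 a := by
  have h : a ≤ 2 := by omega
  interval_cases a
  · exact row_4_6_0
  · exact row_4_6_1
  · exact row_4_6_2

theorem rows_4_7 (a : ℕ) (ha : 2 * a ≤ 4) : RowOK 4 7 a := by
  have h : a ≤ 2 := by omega
  interval_cases a
  · exact row_4_7_0
  · exact row_4_7_1
  · exact row_4_7_2

theorem rows_4_8 (a : ℕ) (ha : 2 * a ≤ 4) : RowOK 4 8 a := by
  have h : a ≤ 2 := by omega
  interval_cases a
  · exact row_4_8_0
  · exact row_4_8_1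
  · exact row_4_8_2

theorem rows_4_9 (a : ℕ) (ha : 2 * a ≤ 4) : RowOK 4 9 a := by
  have h : a ≤ 2 := by omega
  interval_cases a
  · exact row_4_9_0
  · exact row_4_9_1
  · exact row_4_9_2

theorem rows_4_10 (a : ℕ) (ha : 2 * a ≤ 4) : RowOK 4 10 a := by
  have h : a ≤ 2 := by omega
  interval_cases a
  · exact row_4_10_0
  · exact row_4_10_1
  · exact row_4_10_2

theorem rows_4_11 (a : ℕ) (ha : 2 * a ≤ 4) : RowOK 4 11 a := by
  have h : a ≤ 2 := by omega
  interval_cases a
  · exact row_4_11_0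
  · exact row_4_11_1
  · exact row_4_11_2

theorem rows_4_13 (a : ℕ) (ha : 2 * a ≤ 4) : RowOK 4 13 a := by
  have h : a ≤ 2 := by omega
  interval_cases a
  · exact row_4_13_0
  · exact row_4_13_1
  · exact row_4_13_2

theorem rows_5_5 (a : ℕ) (ha : 2 * a ≤ 5) : RowOK 5 5 a := by
  have h : a ≤ 2 := by omega
  interval_cases a
  · exact row_5_5_0
  · exact row_5_5_1
  · exact row_5_5_2

theorem rows_5_6 (a : ℕ) (ha : 2 * a ≤ 5) : RowOK 5 6 a := by
  have h : a ≤ 2 := by omega
  interval_cases a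
  · exact row_5_6_0
  · exact row_5_6_1
  · exact row_5_6_2

theorem rows_5_7 (a : ℕ) (ha : 2 * a ≤ 5) : RowOK 5 7 a := by
  have h : a ≤ 2 := by omega
  interval_cases a
  · exact row_5_7_0
  · exact row_5_7_1
  · exact row_5_7_2

theorem rows_5_8 (a : ℕ) (ha : 2 * a ≤ 5) : RowOK 5 8 a := by
  have h : a ≤ 2 := by omega
  interval_cases a
  · exact row_5_8_0
  · exact row_5_8_1
  · exact row_5_8_2

theorem rows_5_9 (a : ℕ) (ha : 2 * a ≤ 5) : RowOK 5 9 a := by
  have h : a ≤ 2 := by omega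
  interval_cases a
  · exact row_5_9_0
  · exact row_5_9_1
  · exact row_5_9_2

theorem rows_5_11 (a : ℕ) (ha : 2 * a ≤ 5) : RowOK 5 11 a := by
  have h : a ≤ 2 := by omega
  interval_cases a
  · exact row_5_11_0
  · exact row_5_11_1
  · exact row_5_11_2

theorem rows_5_13 (a : ℕ) (ha : 2 * a ≤ 5) : RowOK 5 13 a := by
  have h : a ≤ 2 := by omega
  interval_cases a
  · exact row_5_13_0
  · exact row_5_13_1
  · exact row_5_13_2

theorem rows_6_6 (a : ℕ) (ha : 2 * a ≤ 6) : RowOK 6 6 a := by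
  have h : a ≤ 3 := by omega
  interval_cases a
  · exact row_6_6_0
  · exact row_6_6_1
  · exact row_6_6_2
  · exact row_6_6_3

theorem rows_6_7 (a : ℕ) (ha : 2 * a ≤ 6) : RowOK 6 7 a := by
  have h : a ≤ 3 := by omega
  interval_cases a
  · exact row_6_7_0
  · exact row_6_7_1
  · exact row_6_7_2
  · exact row_6_7_3

theorem rows_6_8 (a : ℕ) (ha : 2 * a ≤ 6) : RowOK 6 8 a := by
  have h : a ≤ 3 := by omega
  interval_cases a
  · exact row_6_8_0
  · exact row_6_8_1
  · exact row_6_8_2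
  · exact row_6_8_3

theorem rows_6_9 (a : ℕ) (ha : 2 * a ≤ 6) : RowOK 6 9 a := by
  have h : a ≤ 3 := by omega
  interval_cases a
  · exact row_6_9_0
  · exact row_6_9_1
  · exact row_6_9_2
  · exact row_6_9_3

theorem rows_6_10 (a : ℕ) (ha : 2 * a ≤ 6) : RowOK 6 10 a := by
  have h : a ≤ 3 := by omega
  interval_cases a
  · exact row_6_10_0
  · exact row_6_10_1
  · exact row_6_10_2
  · exact row_6_10_3

theorem rows_6_11 (a : ℕ) (ha : 2 * a ≤ 6) : RowOK 6 11 a := by
  have h : a ≤ 3 := by omega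
  interval_cases a
  · exact row_6_11_0
  · exact row_6_11_1
  · exact row_6_11_2
  · exact row_6_11_3

theorem rows_6_13 (a : ℕ) (ha : 2 * a ≤ 6) : RowOK 6 13 a := by
  have h : a ≤ 3 := by omega
  interval_cases a
  · exact row_6_13_0
  · exact row_6_13_1
  · exact row_6_13_2
  · exact row_6_13_3

theorem rows_7_7 (a : ℕ) (ha : 2 * a ≤ 7) : RowOK 7 7 a := by
  have h : a ≤ 3 := by omega
  interval_cases a
  · exact row_7_7_0
  · exact row_7_7_1
  · exact row_7_7_2
  · exact row_7_7_3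

theorem rows_7_8 (a : ℕ) (ha : 2 * a ≤ 7) : RowOK 7 8 a := by
  have h : a ≤ 3 := by omega
  interval_cases a
  · exact row_7_8_0
  · exact row_7_8_1
  · exact row_7_8_2
  · exact row_7_8_3

theorem rows_7_9 (a : ℕ) (ha : 2 * a ≤ 7) : RowOK 7 9 a := by
  have h : a ≤ 3 := by omega
  interval_cases a
  · exact row_7_9_0
  · exact row_7_9_1
  · exact row_7_9_2
  · exact row_7_9_3

theorem rows_7_10 (a : ℕ) (ha : 2 * a ≤ 7) : RowOK 7 10 a := by
  have h : a ≤ 3 := by omega
  interval_cases a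
  · exact row_7_10_0
  · exact row_7_10_1
  · exact row_7_10_2
  · exact row_7_10_3

theorem rows_7_11 (a : ℕ) (ha : 2 * a ≤ 7) : RowOK 7 11 a := by
  have h : a ≤ 3 := by omega
  interval_cases a
  · exact row_7_11_0
  · exact row_7_11_1
  · exact row_7_11_2
  · exact row_7_11_3

theorem rows_7_12 (a : ℕ) (ha : 2 * a ≤ 7) : RowOK 7 12 a := by
  have h : a ≤ 3 := by omega
  interval_cases a
  · exact row_7_12_0
  · exact row_7_12_1
  · exact row_7_12_2
  · exact row_7_12_3

theorem rows_7_13 (a : ℕ) (ha : 2 * a ≤ 7) : RowOK 7 13 a := by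
  have h : a ≤ 3 := by omega
  interval_cases a
  · exact row_7_13_0
  · exact row_7_13_1
  · exact row_7_13_2
  · exact row_7_13_3

theorem rows_7_14 (a : ℕ) (ha : 2 * a ≤ 7) : RowOK 7 14 a := by
  have h : a ≤ 3 := by omega
  interval_cases a
  · exact row_7_14_0
  · exact row_7_14_1
  · exact row_7_14_2
  · exact row_7_14_3

theorem rows_7_17 (a : ℕ) (ha : 2 * a ≤ 7) : RowOK 7 17 a := by
  have h : a ≤ 3 := by omega
  interval_cases a
  · exact row_7_17_0
  · exact row_7_17_1
  · exact row_7_17_2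
  · exact row_7_17_3

theorem rows_8_8 (a : ℕ) (ha : 2 * a ≤ 8) : RowOK 8 8 a := by
  have h : a ≤ 4 := by omega
  interval_cases a
  · exact row_8_8_0
  · exact row_8_8_1
  · exact row_8_8_2
  · exact row_8_8_3
  · exact row_8_8_4

theorem rows_8_9 (a : ℕ) (ha : 2 * a ≤ 8) : RowOK 8 9 a := by
  have h : a ≤ 4 := by omega
  interval_cases a
  · exact row_8_9_0
  · exact row_8_9_1
  · exact row_8_9_2
  · exact row_8_9_3
  · exact row_8_9_4

theorem rows_8_10 (a : ℕ) (ha : 2 * a ≤ 8) : RowOK 8 10 a := by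
  have h : a ≤ 4 := by omega
  interval_cases a
  · exact row_8_10_0
  · exact row_8_10_1
  · exact row_8_10_2
  · exact row_8_10_3
  · exact row_8_10_4

theorem rows_8_11 (a : ℕ) (ha : 2 * a ≤ 8) : RowOK 8 11 a := by
  have h : a ≤ 4 := by omega
  interval_cases a
  · exact row_8_11_0
  · exact row_8_11_1
  · exact row_8_11_2
  · exact row_8_11_3
  · exact row_8_11_4

theorem rows_8_13 (a : ℕ) (ha : 2 * a ≤ 8) : RowOK 8 13 a := by
  have h : a ≤ 4 := by omega
  interval_cases a
  · exact row_8_13_0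
  · exact row_8_13_1
  · exact row_8_13_2
  · exact row_8_13_3
  · exact row_8_13_4

theorem rows_9_9 (a : ℕ) (ha : 2 * a ≤ 9) : RowOK 9 9 a := by
  have h : a ≤ 4 := by omega
  interval_cases a
  · exact row_9_9_0
  · exact row_9_9_1
  · exact row_9_9_2
  · exact row_9_9_3
  · exact row_9_9_4

theorem rows_9_10 (a : ℕ) (ha : 2 * a ≤ 9) : RowOK 9 10 a := by
  have h : a ≤ 4 := by omega
  interval_cases a
  · exact row_9_10_0
  · exact row_9_10_1
  · exact row_9_10_2
  · exact row_9_10_3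
  · exact row_9_10_4

theorem rows_9_11 (a : ℕ) (ha : 2 * a ≤ 9) : RowOK 9 11 a := by
  have h : a ≤ 4 := by omega
  interval_cases a
  · exact row_9_11_0
  · exact row_9_11_1
  · exact row_9_11_2
  · exact row_9_11_3
  · exact row_9_11_4

theorem rows_9_12 (a : ℕ) (ha : 2 * a ≤ 9) : RowOK 9 12 a := by
  have h : a ≤ 4 := by omega
  interval_cases a
  · exact row_9_12_0
  · exact row_9_12_1
  · exact row_9_12_2
  · exact row_9_12_3
  · exact row_9_12_4

theorem rows_9_13 (a : ℕ) (ha : 2 * a ≤ 9) : RowOK 9 13 a := by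
  have h : a ≤ 4 := by omega
  interval_cases a
  · exact row_9_13_0
  · exact row_9_13_1
  · exact row_9_13_2
  · exact row_9_13_3
  · exact row_9_13_4

theorem rows_9_14 (a : ℕ) (ha : 2 * a ≤ 9) : RowOK 9 14 a := by
  have h : a ≤ 4 := by omega
  interval_cases a
  · exact row_9_14_0
  · exact row_9_14_1
  · exact row_9_14_2
  · exact row_9_14_3
  · exact row_9_14_4

theorem rows_9_17 (a : ℕ) (ha : 2 * a ≤ 9) : RowOK 9 17 a := by
  have h : a ≤ 4 := by omega
  interval_cases a
  · exact row_9_17_0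
  · exact row_9_17_1
  · exact row_9_17_2
  · exact row_9_17_3
  · exact row_9_17_4

theorem rows_10_10 (a : ℕ) (ha : 2 * a ≤ 10) : RowOK 10 10 a := by
  have h : a ≤ 5 := by omega
  interval_cases a
  · exact row_10_10_0
  · exact row_10_10_1
  · exact row_10_10_2
  · exact row_10_10_3
  · exact row_10_10_4
  · exact row_10_10_5

theorem rows_10_11 (a : ℕ) (ha : 2 * a ≤ 10) : RowOK 10 11 a := by
  have h : a ≤ 5 := by omega
  interval_cases a
  · exact row_10_11_0
  · exact row_10_11_1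
  · exact row_10_11_2
  · exact row_10_11_3
  · exact row_10_11_4
  · exact row_10_11_5

theorem rows_10_13 (a : ℕ) (ha : 2 * a ≤ 10) : RowOK 10 13 a := by
  have h : a ≤ 5 := by omega
  interval_cases a
  · exact row_10_13_0
  · exact row_10_13_1
  · exact row_10_13_2
  · exact row_10_13_3
  · exact row_10_13_4
  · exact row_10_13_5

theorem rows_11_11 (a : ℕ) (ha : 2 * a ≤ 11) : RowOK 11 11 a := by
  have h : a ≤ 5 := by omega
  interval_cases a
  · exact row_11_11_0
  · exact row_11_11_1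
  · exact row_11_11_2
  · exact row_11_11_3
  · exact row_11_11_4
  · exact row_11_11_5

theorem rows_11_12 (a : ℕ) (ha : 2 * a ≤ 11) : RowOK 11 12 a := by
  have h : a ≤ 5 := by omega
  interval_cases a
  · exact row_11_12_0
  · exact row_11_12_1
  · exact row_11_12_2
  · exact row_11_12_3
  · exact row_11_12_4
  · exact row_11_12_5

theorem rows_11_13 (a : ℕ) (ha : 2 * a ≤ 11) : RowOK 11 13 a := by
  have h : a ≤ 5 := by omega
  interval_cases a
  · exact row_11_13_0
  · exact row_11_13_1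
  · exact row_11_13_2
  · exact row_11_13_3
  · exact row_11_13_4
  · exact row_11_13_5

theorem rows_11_14 (a : ℕ) (ha : 2 * a ≤ 11) : RowOK 11 14 a := by
  have h : a ≤ 5 := by omega
  interval_cases a
  · exact row_11_14_0
  · exact row_11_14_1
  · exact row_11_14_2
  · exact row_11_14_3
  · exact row_11_14_4
  · exact row_11_14_5

theorem rows_11_17 (a : ℕ) (ha : 2 * a ≤ 11) : RowOK 11 17 a := by
  have h : a ≤ 5 := by omega
  interval_cases a
  · exact row_11_17_0
  · exact row_11_17_1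
  · exact row_11_17_2
  · exact row_11_17_3
  · exact row_11_17_4
  · exact row_11_17_5

theorem rows_12_13 (a : ℕ) (ha : 2 * a ≤ 12) : RowOK 12 13 a := by
  have h : a ≤ 6 := by omega
  interval_cases a
  · exact row_12_13_0
  · exact row_12_13_1
  · exact row_12_13_2
  · exact row_12_13_3
  · exact row_12_13_4
  · exact row_12_13_5
  · exact row_12_13_6

theorem rows_13_13 (a : ℕ) (ha : 2 * a ≤ 13) : RowOK 13 13 a := by
  have h : a ≤ 6 := by omega
  interval_cases a
  · exact row_13_13_0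
  · exact row_13_13_1
  · exact row_13_13_2
  · exact row_13_13_3
  · exact row_13_13_4
  · exact row_13_13_5
  · exact row_13_13_6

theorem rows_13_14 (a : ℕ) (ha : 2 * a ≤ 13) : RowOK 13 14 a := by
  have h : a ≤ 6 := by omega
  interval_cases a
  · exact row_13_14_0
  · exact row_13_14_1
  · exact row_13_14_2
  · exact row_13_14_3
  · exact row_13_14_4
  · exact row_13_14_5
  · exact row_13_14_6

theorem rows_13_17 (a : ℕ) (ha : 2 * a ≤ 13) : RowOK 13 17 a := by
  have h : a ≤ 6 := by omega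
  interval_cases a
  · exact row_13_17_0
  · exact row_13_17_1
  · exact row_13_17_2
  · exact row_13_17_3
  · exact row_13_17_4
  · exact row_13_17_5
  · exact row_13_17_6

theorem rows_17_17 (a : ℕ) (ha : 2 * a ≤ 17) : RowOK 17 17 a := by
  have h : a ≤ 8 := by omega
  interval_cases a
  · exact row_17_17_0
  · exact row_17_17_1
  · exact row_17_17_2
  · exact row_17_17_3
  · exact row_17_17_4
  · exact row_17_17_5
  · exact row_17_17_6
  · exact row_17_17_7
  · exact row_17_17_8

end Pool.Agent.H74.TO
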