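import Pool.Agent.H74.TO.Fam

namespace Pool.Agent.H74.TO

open Pool.Agent.H74.MD

/-- `t = 2g + 1`, landmarks `4, 0, g, g + 1` -/
theorem F1_arcs {t g y : ℤ} (ht : t = 2 * g + 1) (hg : 7 ≤ g) (hy : 0 ≤ y) (hy' : y < t) :
    (y = 0 ∧ cyc t (y - 4) = 4 ∧ cyc t (y - 0) = 0 ∧ cyc t (y - g) = g ∧
      cyc t (y - (g + 1)) = g) ∨
    (1 ≤ y ∧ y ≤ 4 ∧ cyc t (y - 4) = 4 - y ∧ cyc t (y - 0) = y ∧ cyc t (y - g) = g - y ∧
      cyc t (y - (g + 1)) = g + 1 - y) ∨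
    (4 ≤ y ∧ y ≤ g ∧ cyc t (y - 4) = y - 4 ∧ cyc t (y - 0) = y ∧ cyc t (y - g) = g - y ∧
      cyc t (y - (g + 1)) = g + 1 - y) ∨
    (g + 1 ≤ y ∧ y ≤ g + 4 ∧ cyc t (y - 4) = y - 4 ∧ cyc t (y - 0) = 2 * g + 1 - y ∧
      cyc t (y - g) = y - g ∧ cyc t (y - (g + 1)) = y - g - 1) ∨
    (g + 5 ≤ y ∧ y ≤ 2 * g ∧ cyc t (y - 4) = 2 * g + 5 - y ∧ cyc t (y - 0) = 2 * g + 1 - y ∧
      cyc t (y - g) = y - g ∧ cyc t (y - (g + 1)) = y - g - 1) := by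
  have ht0 : 0 < t := by omega
  by_cases k0 : y = 0
  · left
    exact ⟨k0, cyc_m (by omega) (by omega) ht0 (by omega),
      cyc_p (by omega) (by omega) ht0 (by omega), cyc_m (by omega) (by omega) ht0 (by omega),
      cyc_v (by omega) (by omega) ht0 (by omega)⟩
  right
  by_cases k1 : y ≤ 4
  · left
    exact ⟨by omega, k1, cyc_m (by omega) (by omega) ht0 (by omega),
      cyc_p (by omega) (by omega) ht0 (by omega), cyc_m (by omega) (by omega) ht0 (by omega),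
      cyc_m (by omega) (by omega) ht0 (by omega)⟩
  right
  by_cases k2 : y ≤ g
  · left
    exact ⟨by omega, k2, cyc_p (by omega) (by omega) ht0 (by omega),
      cyc_p (by omega) (by omega) ht0 (by omega), cyc_m (by omega) (by omega) ht0 (by omega),
      cyc_m (by omega) (by omega) ht0 (by omega)⟩
  right
  by_cases k3 : y ≤ g + 4
  · left
    exact ⟨by omega, k3, cyc_p (by omega) (by omega) ht0 (by omega),
      cyc_w (by omega) (by omega) ht0 (by omega), cyc_p (by omega) (by omega) ht0 (by omega),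
      cyc_p (by omega) (by omega) ht0 (by omega)⟩
  right
  exact ⟨by omega, by omega, cyc_w (by omega) (by omega) ht0 (by omega),
      cyc_w (by omega) (by omega) ht0 (by omega), cyc_p (by omega) (by omega) ht0 (by omega),
      cyc_p (by omega) (by omega) ht0 (by omega)⟩

theorem F1_core {s t h g : ℤ} (ht : t = 2 * g + 1) (hg : 7 ≤ g) (hg8 : g ≠ 8)
    (y y' a b a' b' : ℤ) (y1 : 0 ≤ y) (y2 : y < t) (y1' : 0 ≤ y') (y2' : y' < t) (yy : y ≤ y')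
    (E : Ecl s h a b) (E' : Ecl s h a' b')
    (N1 : a = 0 → y ≠ 4 ∧ y ≠ 0 ∧ y ≠ g) (N2 : b = 0 → y ≠ g + 1)
    (N1' : a' = 0 → y' ≠ 4 ∧ y' ≠ 0 ∧ y' ≠ g) (N2' : b' = 0 → y' ≠ g + 1)
    (hP : P4 (a + cyc t (y - 4)) (a + cyc t (y - 0)) (a + cyc t (y - g)) (b + cyc t (y - (g + 1)))
      (a' + cyc t (y' - 4)) (a' + cyc t (y' - 0)) (a' + cyc t (y' - g))
      (b' + cyc t (y' - (g + 1)))) : a = a' ∧ b = b' ∧ y = y' := by
  have A := F1_arcs ht hg y1 y2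
  have A' := F1_arcs ht hg y1' y2'
  generalize cyc t (y - 4) = c0 at A hP
  generalize cyc t (y - 0) = c1 at A hP
  generalize cyc t (y - g) = c2 at A hP
  generalize cyc t (y - (g + 1)) = c3 at A hP
  generalize cyc t (y' - 4) = d0 at A' hP
  generalize cyc t (y' - 0) = d1 at A' hP
  generalize cyc t (y' - g) = d2 at A' hP
  generalize cyc t (y' - (g + 1)) = d3 at A' hP
  unfold Ecl at E E'
  obtain ⟨e1, e2, e3, E⟩ := E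
  obtain ⟨e1', e2', e3', E'⟩ := E'
  clear y1 y2 y1' y2' e3 e3'
  subst ht
  rcases A with ⟨rfl, rfl, rfl, rfl, rfl⟩ | ⟨A, B, rfl, rfl, rfl, rfl⟩ |
    ⟨A, B, rfl, rfl, rfl, rfl⟩ | ⟨A, B, rfl, rfl, rfl, rfl⟩ | ⟨A, B, rfl, rfl, rfl, rfl⟩ <;>
  rcases A' with ⟨rfl, rfl, rfl, rfl, rfl⟩ | ⟨A', B', rfl, rfl, rfl, rfl⟩ |
    ⟨A', B', rfl, rfl, rfl, rfl⟩ | ⟨A', B', rfl, rfl, rfl, rfl⟩ |
    ⟨A', B', rfl, rfl, rfl, rfl⟩ <;>
  first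
  | (exfalso; clear N1 N2 N1' N2' hP E E'; omega)
  | (unfold P4 P3 at hP
     rcases E with ⟨rfl, E⟩ | ⟨rfl, E⟩ | ⟨E, rfl, rfl⟩ <;>
     rcases E' with ⟨rfl, E'⟩ | ⟨rfl, E'⟩ | ⟨E', rfl, rfl⟩ <;>
     rcases hP with ⟨P0, P⟩ | ⟨P0, P⟩ | ⟨P0, P⟩ | ⟨P0, P⟩ <;>
     rcases P with ⟨P, Q, R⟩ | ⟨P, Q, R⟩ | ⟨P, Q, R⟩ | ⟨P, Q, R⟩ | ⟨P, Q, R⟩ | ⟨P, Q, R⟩ <;>
     first
     | (exfalso; clear N1 N2 N1' N2'; omega)
     | (clear N1 N2 N1' N2'; omega)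
     | omega)

theorem F1_not {s t h g : ℤ} (hs : 3 ≤ s) (hh : s = 2 * h ∨ s = 2 * h + 1)
    (ht : t = 2 * g + 1) (hg : 7 ≤ g) (hg8 : g ≠ 8) :
    ¬ Cf s t {(0, 4), (0, 0), (0, g), (1, g + 1)} :=
  fam4 hs hh (by omega) (F1_core ht hg hg8)

end Pool.Agent.H74.TO
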