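import Pool.Agent.H74.TO.Fam

namespace Pool.Agent.H74.TO

open Pool.Agent.H74.MD

/-- `t = 2g`, landmarks `0, 5, g + 1, g + 2` -/
theorem F3_arcs {t g y : ℤ} (ht : t = 2 * g) (hg : 8 ≤ g) (hy : 0 ≤ y) (hy' : y < t) :
    (y = 0 ∧
      cyc t (y - 0) = 0 ∧
      cyc t (y - 5) = 5 ∧
      cyc t (y - (g + 1)) = g - 1 ∧
      cyc t (y - (g + 2)) = g - 2) ∨
    (y = 1 ∧
      cyc t (y - 0) = 1 ∧
      cyc t (y - 5) = 4 ∧
      cyc t (y - (g + 1)) = g ∧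
      cyc t (y - (g + 2)) = g - 1) ∨
    (2 ≤ y ∧
      y ≤ 5 ∧
      cyc t (y - 0) = y ∧
      cyc t (y - 5) = 5 - y ∧
      cyc t (y - (g + 1)) = g + 1 - y ∧
      cyc t (y - (g + 2)) = g + 2 - y) ∨
    (5 ≤ y ∧
      y ≤ g ∧
      cyc t (y - 0) = y ∧
      cyc t (y - 5) = y - 5 ∧
      cyc t (y - (g + 1)) = g + 1 - y ∧
      cyc t (y - (g + 2)) = g + 2 - y) ∨
    (y = g + 1 ∧
      cyc t (y - 0) = g - 1 ∧
      cyc t (y - 5) = g - 4 ∧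
      cyc t (y - (g + 1)) = 0 ∧
      cyc t (y - (g + 2)) = 1) ∨
    (g + 2 ≤ y ∧
      y ≤ g + 5 ∧
      cyc t (y - 0) = 2 * g - y ∧
      cyc t (y - 5) = y - 5 ∧
      cyc t (y - (g + 1)) = y - g - 1 ∧
      cyc t (y - (g + 2)) = y - g - 2) ∨
    (g + 6 ≤ y ∧
      y ≤ 2 * g - 1 ∧
      cyc t (y - 0) = 2 * g - y ∧
      cyc t (y - 5) = 2 * g + 5 - y ∧
      cyc t (y - (g + 1)) = y - g - 1 ∧
      cyc t (y - (g + 2)) = y - g - 2) := by
  have ht0 : 0 < t := by omega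
  by_cases k0 : y = 0
  · left
    exact ⟨by omega,
      cyc_p (by omega) (by omega) ht0 (by omega),
      cyc_m (by omega) (by omega) ht0 (by omega),
      cyc_v (by omega) (by omega) ht0 (by omega),
      cyc_v (by omega) (by omega) ht0 (by omega)⟩
  right
  by_cases k1 : y = 1
  · left
    exact ⟨by omega,
      cyc_p (by omega) (by omega) ht0 (by omega),
      cyc_m (by omega) (by omega) ht0 (by omega),
      cyc_m (by omega) (by omega) ht0 (by omega),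
      cyc_v (by omega) (by omega) ht0 (by omega)⟩
  right
  by_cases k2 : y ≤ 5
  · left
    exact ⟨by omega,
      by omega,
      cyc_p (by omega) (by omega) ht0 (by omega),
      cyc_m (by omega) (by omega) ht0 (by omega),
      cyc_m (by omega) (by omega) ht0 (by omega),
      cyc_m (by omega) (by omega) ht0 (by omega)⟩
  right
  by_cases k3 : y ≤ g
  · left
    exact ⟨by omega,
      by omega,
      cyc_p (by omega) (by omega) ht0 (by omega),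
      cyc_p (by omega) (by omega) ht0 (by omega),
      cyc_m (by omega) (by omega) ht0 (by omega),
      cyc_m (by omega) (by omega) ht0 (by omega)⟩
  right
  by_cases k4 : y = g + 1
  · left
    exact ⟨by omega,
      cyc_w (by omega) (by omega) ht0 (by omega),
      cyc_p (by omega) (by omega) ht0 (by omega),
      cyc_p (by omega) (by omega) ht0 (by omega),
      cyc_m (by omega) (by omega) ht0 (by omega)⟩
  right
  by_cases k5 : y ≤ g + 5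
  · left
    exact ⟨by omega,
      by omega,
      cyc_w (by omega) (by omega) ht0 (by omega),
      cyc_p (by omega) (by omega) ht0 (by omega),
      cyc_p (by omega) (by omega) ht0 (by omega),
      cyc_p (by omega) (by omega) ht0 (by omega)⟩
  right
  exact ⟨by omega,
    by omega,
    cyc_w (by omega) (by omega) ht0 (by omega),
    cyc_w (by omega) (by omega) ht0 (by omega),
    cyc_p (by omega) (by omega) ht0 (by omega),
    cyc_p (by omega) (by omega) ht0 (by omega)⟩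

theorem F3_core {s t h g : ℤ} (ht : t = 2 * g) (hg : 8 ≤ g) (hg9 : g ≠ 9)
    (y y' a b a' b' : ℤ) (y1 : 0 ≤ y) (y2 : y < t) (y1' : 0 ≤ y') (y2' : y' < t) (yy : y ≤ y')
    (E : Ecl s h a b) (E' : Ecl s h a' b')
    (N1 : a = 0 → y ≠ 0 ∧ y ≠ 5 ∧ y ≠ g + 1) (N2 : b = 0 → y ≠ g + 2)
    (N1' : a' = 0 → y' ≠ 0 ∧ y' ≠ 5 ∧ y' ≠ g + 1) (N2' : b' = 0 → y' ≠ g + 2)
    (hP : P4 (a + cyc t (y - 0)) (a + cyc t (y - 5)) (a + cyc t (y - (g + 1))) (b + cyc t (y - (g + 2)))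
      (a' + cyc t (y' - 0)) (a' + cyc t (y' - 5)) (a' + cyc t (y' - (g + 1))) (b' + cyc t (y' - (g + 2)))) :
    a = a' ∧ b = b' ∧ y = y' := by
  have A := F3_arcs ht hg y1 y2
  have A' := F3_arcs ht hg y1' y2'
  generalize cyc t (y - 0) = c0 at A hP
  generalize cyc t (y' - 0) = d0 at A' hP
  generalize cyc t (y - 5) = c1 at A hP
  generalize cyc t (y' - 5) = d1 at A' hP
  generalize cyc t (y - (g + 1)) = c2 at A hP
  generalize cyc t (y' - (g + 1)) = d2 at A' hP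
  generalize cyc t (y - (g + 2)) = c3 at A hP
  generalize cyc t (y' - (g + 2)) = d3 at A' hP
  unfold Ecl at E E'
  obtain ⟨e1, e2, e3, E⟩ := E
  obtain ⟨e1', e2', e3', E'⟩ := E'
  clear y1 y2 y1' y2' e3 e3'
  subst ht
  rcases A with ⟨rfl, rfl, rfl, rfl, rfl⟩ |
    ⟨rfl, rfl, rfl, rfl, rfl⟩ |
    ⟨A, B, rfl, rfl, rfl, rfl⟩ |
    ⟨A, B, rfl, rfl, rfl, rfl⟩ |
    ⟨rfl, rfl, rfl, rfl, rfl⟩ |
    ⟨A, B, rfl, rfl, rfl, rfl⟩ |
    ⟨A, B, rfl, rfl, rfl, rfl⟩ <;>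
  rcases A' with ⟨rfl, rfl, rfl, rfl, rfl⟩ |
    ⟨rfl, rfl, rfl, rfl, rfl⟩ |
    ⟨A', B', rfl, rfl, rfl, rfl⟩ |
    ⟨A', B', rfl, rfl, rfl, rfl⟩ |
    ⟨rfl, rfl, rfl, rfl, rfl⟩ |
    ⟨A', B', rfl, rfl, rfl, rfl⟩ |
    ⟨A', B', rfl, rfl, rfl, rfl⟩ <;>
  first
  | (exfalso; clear N1 N2 N1' N2' hP E E'; omega)
  | (unfold P4 P3 at hP
     rcases E with ⟨rfl, E⟩ | ⟨rfl, E⟩ | ⟨E, rfl, rfl⟩ <;>
     rcases E' with ⟨rfl, E'⟩ | ⟨rfl, E'⟩ | ⟨E', rfl, rfl⟩ <;>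
     rcases hP with ⟨P0, P⟩ | ⟨P0, P⟩ | ⟨P0, P⟩ | ⟨P0, P⟩ <;>
     rcases P with ⟨P, Q, R⟩ | ⟨P, Q, R⟩ | ⟨P, Q, R⟩ | ⟨P, Q, R⟩ | ⟨P, Q, R⟩ | ⟨P, Q, R⟩ <;>
     first
     | (exfalso; clear N1 N2 N1' N2'; omega)
     | (clear N1 N2 N1' N2'; omega)
     | omega)

theorem F3_not {s t h g : ℤ} (hs : 3 ≤ s) (hh : s = 2 * h ∨ s = 2 * h + 1)
    (ht : t = 2 * g) (hg : 8 ≤ g) (hg9 : g ≠ 9) :
    ¬ Cf s t {(0, 0), (0, 5), (0, g + 1), (1, g + 2)} :=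
  fam4 hs hh (by omega) (F3_core ht hg hg9)

end Pool.Agent.H74.TO
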