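import Pool.Agent.H74.TO.Fam

namespace Pool.Agent.H74.TO

open Pool.Agent.H74.MD

/-- `t = 2g`, landmarks `0, 4` -/
theorem F4_arcs {t g y : ℤ} (ht : t = 2 * g) (hg : 6 ≤ g) (hy : 0 ≤ y) (hy' : y < t) :
    (0 ≤ y ∧ y ≤ 4 ∧ cyc t (y - 0) = y ∧ cyc t (y - 4) = 4 - y) ∨
    (5 ≤ y ∧ y ≤ g ∧ cyc t (y - 0) = y ∧ cyc t (y - 4) = y - 4) ∨
    (g + 1 ≤ y ∧ y ≤ g + 4 ∧ cyc t (y - 0) = 2 * g - y ∧ cyc t (y - 4) = y - 4) ∨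
    (g + 5 ≤ y ∧ y ≤ 2 * g - 1 ∧ cyc t (y - 0) = 2 * g - y ∧
      cyc t (y - 4) = 2 * g + 4 - y) := by
  have ht0 : 0 < t := by omega
  by_cases k0 : y ≤ 4
  · left
    exact ⟨by omega, by omega, cyc_p (by omega) (by omega) ht0 (by omega),
      cyc_m (by omega) (by omega) ht0 (by omega)⟩
  right
  by_cases k1 : y ≤ g
  · left
    exact ⟨by omega, by omega, cyc_p (by omega) (by omega) ht0 (by omega),
      cyc_p (by omega) (by omega) ht0 (by omega)⟩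
  right
  by_cases k2 : y ≤ g + 4
  · left
    exact ⟨by omega, by omega, cyc_w (by omega) (by omega) ht0 (by omega),
      cyc_p (by omega) (by omega) ht0 (by omega)⟩
  right
  exact ⟨by omega, by omega, cyc_w (by omega) (by omega) ht0 (by omega),
    cyc_w (by omega) (by omega) ht0 (by omega)⟩

theorem F4_core {t g : ℤ} (ht : t = 2 * g) (hg : 6 ≤ g)
    (y y' a b a' b' : ℤ) (y1 : 0 ≤ y) (y2 : y < t) (y1' : 0 ≤ y') (y2' : y' < t)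
    (E : Ecl 3 1 a b) (E' : Ecl 3 1 a' b')
    (N1 : a = 0 → y ≠ 0 ∧ y ≠ 4) (N2 : b = 0 → y ≠ 0)
    (N1' : a' = 0 → y' ≠ 0 ∧ y' ≠ 4) (N2' : b' = 0 → y' ≠ 0)
    (hP : P3 (a + cyc t (y - 0)) (a + cyc t (y - 4)) (b + cyc t (y - 0))
      (a' + cyc t (y' - 0)) (a' + cyc t (y' - 4)) (b' + cyc t (y' - 0))) :
    a = a' ∧ b = b' ∧ y = y' := by
  have A := F4_arcs ht hg y1 y2
  have A' := F4_arcs ht hg y1' y2'
  generalize cyc t (y - 0) = c0 at A hP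
  generalize cyc t (y' - 0) = d0 at A' hP
  generalize cyc t (y - 4) = c1 at A hP
  generalize cyc t (y' - 4) = d1 at A' hP
  have cls : ∀ a b : ℤ, Ecl 3 1 a b → (a = 0 ∧ b = 1) ∨ (a = 1 ∧ b = 0) ∨ (a = 1 ∧ b = 1) := by
    intro a b h
    unfold Ecl at h
    omega
  have E1 := cls a b E
  have E1' := cls a' b' E'
  clear y1 y2 y1' y2' E E' cls
  subst ht
  rcases A with ⟨A, B, rfl, rfl⟩ | ⟨A, B, rfl, rfl⟩ | ⟨A, B, rfl, rfl⟩ | ⟨A, B, rfl, rfl⟩ <;>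
  rcases A' with ⟨A', B', rfl, rfl⟩ | ⟨A', B', rfl, rfl⟩ | ⟨A', B', rfl, rfl⟩ |
    ⟨A', B', rfl, rfl⟩ <;>
  (unfold P3 at hP
   rcases E1 with ⟨rfl, rfl⟩ | ⟨rfl, rfl⟩ | ⟨rfl, rfl⟩ <;>
   rcases E1' with ⟨rfl, rfl⟩ | ⟨rfl, rfl⟩ | ⟨rfl, rfl⟩ <;>
   rcases hP with ⟨P, Q, R⟩ | ⟨P, Q, R⟩ | ⟨P, Q, R⟩ | ⟨P, Q, R⟩ | ⟨P, Q, R⟩ | ⟨P, Q, R⟩ <;>
   first
   | (exfalso; clear N1 N2 N1' N2'; omega)
   | (clear N1 N2 N1' N2'; omega)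
   | omega)

theorem F4_not {t g : ℤ} (ht : t = 2 * g) (hg : 6 ≤ g) :
    ¬ Cf 3 t {(0, 0), (0, 4), (1, 0)} :=
  fam3 (by omega) (F4_core ht hg)

end Pool.Agent.H74.TO
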