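import Pool.Agent.H74.TO.NoThree
import Pool.Agent.H74.MD.Four

namespace Pool.Agent.H74.TO

open Pool.Agent.H74.MD

/-- the possible pairs (distance to column `0`, distance to column `1`) -/
def Ecl (s h a b : ℤ) : Prop :=
  0 ≤ a ∧ a ≤ h ∧ 0 ≤ b ∧ ((b = a + 1 ∧ a + 1 ≤ h) ∨ (b = a - 1 ∧ 1 ≤ a) ∨
    (s = 2 * h + 1 ∧ b = a ∧ a = h))

theorem xcls {s h x : ℤ} (hs : 3 ≤ s) (hh : s = 2 * h ∨ s = 2 * h + 1) :
    Ecl s h (cyc s x) (cyc s (x - 1)) := by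
  obtain ⟨z, z1, z2, z3⟩ := exists_red (by omega : 0 < s) x
  have e1 : cyc s x = cyc s z := cyc_congr z3
  have e2 : cyc s (x - 1) = cyc s (z - 1) := cyc_congr (dq z3 (by ring))
  rw [e1, e2]
  unfold Ecl
  by_cases k1 : z = 0
  · have f1 : cyc s z = 0 := cyc_p (by omega) (by omega) (by omega) (by omega)
    have f2 : cyc s (z - 1) = 1 := cyc_m (by omega) (by omega) (by omega) (by omega)
    rw [f1, f2]; omega
  by_cases k2 : z ≤ h
  · have f1 : cyc s z = z := cyc_p (by omega) (by omega) (by omega) (by omega)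
    have f2 : cyc s (z - 1) = z - 1 := cyc_p (by omega) (by omega) (by omega) (by omega)
    rw [f1, f2]; omega
  by_cases k3 : s = 2 * h + 1 ∧ z = h + 1
  · have f1 : cyc s z = h := cyc_w (by omega) (by omega) (by omega) (by omega)
    have f2 : cyc s (z - 1) = h := cyc_p (by omega) (by omega) (by omega) (by omega)
    rw [f1, f2]; omega
  · have f1 : cyc s z = s - z := cyc_w (by omega) (by omega) (by omega) (by omega)
    have f2 : cyc s (z - 1) = s - z + 1 := cyc_w (by omega) (by omega) (by omega) (by omega)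
    rw [f1, f2]; omega

theorem xinj {s h x x' : ℤ} (hs : 3 ≤ s) (hh : s = 2 * h ∨ s = 2 * h + 1)
    (h1 : cyc s x = cyc s x') (h2 : cyc s (x - 1) = cyc s (x' - 1)) : s ∣ x - x' := by
  obtain ⟨z, z1, z2, z3⟩ := exists_red (by omega : 0 < s) x
  obtain ⟨z', z1', z2', z3'⟩ := exists_red (by omega : 0 < s) x'
  have e1 : cyc s x = cyc s z := cyc_congr z3
  have e2 : cyc s (x - 1) = cyc s (z - 1) := cyc_congr (dq z3 (by ring))
  have e1' : cyc s x' = cyc s z' := cyc_congr z3'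
  have e2' : cyc s (x' - 1) = cyc s (z' - 1) := cyc_congr (dq z3' (by ring))
  rw [e1, e1'] at h1
  rw [e2, e2'] at h2
  have key : ∀ w : ℤ, 0 ≤ w → w < s → (w = 0 ∧ cyc s w = 0 ∧ cyc s (w - 1) = 1) ∨
      (1 ≤ w ∧ w ≤ h ∧ cyc s w = w ∧ cyc s (w - 1) = w - 1) ∨
      (s = 2 * h + 1 ∧ w = h + 1 ∧ cyc s w = h ∧ cyc s (w - 1) = h) ∨
      (h + 1 ≤ w ∧ ¬ (s = 2 * h + 1 ∧ w = h + 1) ∧ cyc s w = s - w ∧
        cyc s (w - 1) = s - w + 1) := by
    intro w w1 w2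
    by_cases k1 : w = 0
    · exact Or.inl ⟨k1, cyc_p (by omega) (by omega) (by omega) (by omega),
        cyc_m (by omega) (by omega) (by omega) (by omega)⟩
    by_cases k2 : w ≤ h
    · exact Or.inr (Or.inl ⟨by omega, k2, cyc_p (by omega) (by omega) (by omega) (by omega),
        cyc_p (by omega) (by omega) (by omega) (by omega)⟩)
    by_cases k3 : s = 2 * h + 1 ∧ w = h + 1
    · exact Or.inr (Or.inr (Or.inl ⟨k3.1, k3.2,
        cyc_w (by omega) (by omega) (by omega) (by omega),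
        cyc_p (by omega) (by omega) (by omega) (by omega)⟩))
    · exact Or.inr (Or.inr (Or.inr ⟨by omega, k3,
        cyc_w (by omega) (by omega) (by omega) (by omega),
        cyc_w (by omega) (by omega) (by omega) (by omega)⟩))
  have a1 := key z z1 z2
  have a2 := key z' z1' z2'
  have : z = z' := by
    rcases a1 with a1 | a1 | a1 | a1 <;> rcases a2 with a2 | a2 | a2 | a2 <;> omega
  have := dvd_sub z3 z3'
  exact dq this (by omega)

theorem fam4 {s t h l0 l1 l2 l3 : ℤ} (hs : 3 ≤ s) (hh : s = 2 * h ∨ s = 2 * h + 1) (ht : 3 ≤ t)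
    (core : ∀ y y' a b a' b' : ℤ, 0 ≤ y → y < t → 0 ≤ y' → y' < t → y ≤ y' → Ecl s h a b →
      Ecl s h a' b' → (a = 0 → y ≠ l0 ∧ y ≠ l1 ∧ y ≠ l2) → (b = 0 → y ≠ l3) →
      (a' = 0 → y' ≠ l0 ∧ y' ≠ l1 ∧ y' ≠ l2) → (b' = 0 → y' ≠ l3) →
      P4 (a + cyc t (y - l0)) (a + cyc t (y - l1)) (a + cyc t (y - l2)) (b + cyc t (y - l3))
        (a' + cyc t (y' - l0)) (a' + cyc t (y' - l1)) (a' + cyc t (y' - l2))
        (b' + cyc t (y' - l3)) → a = a' ∧ b = b' ∧ y = y') :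
    ¬ Cf s t {(0, l0), (0, l1), (0, l2), (1, l3)} := by
  rintro ⟨⟨x, y⟩, ⟨x', y'⟩, h1, h2, h3, h4⟩
  obtain ⟨z, z1, z2, z3⟩ := exists_red (by omega : 0 < t) y
  obtain ⟨z', z1', z2', z3'⟩ := exists_red (by omega : 0 < t) y'
  have ec : ∀ a : ℤ, cyc t (y - a) = cyc t (z - a) := fun a => cyc_congr (dq z3 (by ring))
  have ec' : ∀ a : ℤ, cyc t (y' - a) = cyc t (z' - a) := fun a => cyc_congr (dq z3' (by ring))
  simp only [code, dt, Multiset.insert_eq_cons, Multiset.map_cons, Multiset.map_singleton, ec,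
    ec', sub_zero] at h4
  have h5 := perm4 h4
  have h6 := perm4 h4.symm
  have ex : ∀ (x z y : ℤ), t ∣ y - z →
      (∀ a ∈ ({(0, l0), (0, l1), (0, l2), (1, l3)} : Multiset (ℤ × ℤ)), ¬ Eqv s t (x, y) a) →
      (cyc s x = 0 → z ≠ l0 ∧ z ≠ l1 ∧ z ≠ l2) ∧ (cyc s (x - 1) = 0 → z ≠ l3) := by
    intro x z y hz hn
    refine ⟨fun hx => ⟨?_, ?_, ?_⟩, fun hx => ?_⟩
    · rintro rfl
      exact hn (0, z) (by simp) ⟨dq (cyc_eq_zero hx) (by simp), hz⟩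
    · rintro rfl
      exact hn (0, z) (by simp) ⟨dq (cyc_eq_zero hx) (by simp), hz⟩
    · rintro rfl
      exact hn (0, z) (by simp) ⟨dq (cyc_eq_zero hx) (by simp), hz⟩
    · rintro rfl
      exact hn (1, z) (by simp) ⟨cyc_eq_zero hx, hz⟩
  have x1 := ex x z y z3 h2
  have x2 := ex x' z' y' z3' h3
  apply h1
  rcases le_total z z' with hzz | hzz
  · obtain ⟨q1, q2, q3⟩ := core z z' _ _ _ _ z1 z2 z1' z2' hzz (xcls hs hh) (xcls hs hh)
      x1.1 x1.2 x2.1 x2.2 h5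
    refine ⟨xinj hs hh q1 q2, ?_⟩
    have := dvd_sub z3 z3'
    exact dq this (by simp only; rw [q3]; ring)
  · obtain ⟨q1, q2, q3⟩ := core z' z _ _ _ _ z1' z2' z1 z2 hzz (xcls hs hh) (xcls hs hh)
      x2.1 x2.2 x1.1 x1.2 h6
    refine ⟨xinj hs hh q1.symm q2.symm, ?_⟩
    have := dvd_sub z3 z3'
    exact dq this (by simp only; rw [q3]; ring)

theorem fam3 {t l0 l1 l2 : ℤ} (ht : 3 ≤ t)
    (core : ∀ y y' a b a' b' : ℤ, 0 ≤ y → y < t → 0 ≤ y' → y' < t → Ecl 3 1 a b →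
      Ecl 3 1 a' b' → (a = 0 → y ≠ l0 ∧ y ≠ l1) → (b = 0 → y ≠ l2) →
      (a' = 0 → y' ≠ l0 ∧ y' ≠ l1) → (b' = 0 → y' ≠ l2) →
      P3 (a + cyc t (y - l0)) (a + cyc t (y - l1)) (b + cyc t (y - l2))
        (a' + cyc t (y' - l0)) (a' + cyc t (y' - l1)) (b' + cyc t (y' - l2)) →
        a = a' ∧ b = b' ∧ y = y') :
    ¬ Cf 3 t {(0, l0), (0, l1), (1, l2)} := by
  rintro ⟨⟨x, y⟩, ⟨x', y'⟩, h1, h2, h3, h4⟩
  obtain ⟨z, z1, z2, z3⟩ := exists_red (by omega : 0 < t) y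
  obtain ⟨z', z1', z2', z3'⟩ := exists_red (by omega : 0 < t) y'
  have ec : ∀ a : ℤ, cyc t (y - a) = cyc t (z - a) := fun a => cyc_congr (dq z3 (by ring))
  have ec' : ∀ a : ℤ, cyc t (y' - a) = cyc t (z' - a) := fun a => cyc_congr (dq z3' (by ring))
  simp only [code, dt, Multiset.insert_eq_cons, Multiset.map_cons, Multiset.map_singleton, ec,
    ec', sub_zero] at h4
  have h5 := perm3 h4
  have ex : ∀ (x z y : ℤ), t ∣ y - z →
      (∀ a ∈ ({(0, l0), (0, l1), (1, l2)} : Multiset (ℤ × ℤ)), ¬ Eqv 3 t (x, y) a) →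
      (cyc 3 x = 0 → z ≠ l0 ∧ z ≠ l1) ∧ (cyc 3 (x - 1) = 0 → z ≠ l2) := by
    intro x z y hz hn
    refine ⟨fun hx => ⟨?_, ?_⟩, fun hx => ?_⟩
    · rintro rfl
      exact hn (0, z) (by simp) ⟨dq (cyc_eq_zero hx) (by simp), hz⟩
    · rintro rfl
      exact hn (0, z) (by simp) ⟨dq (cyc_eq_zero hx) (by simp), hz⟩
    · rintro rfl
      exact hn (1, z) (by simp) ⟨cyc_eq_zero hx, hz⟩
  have x1 := ex x z y z3 h2
  have x2 := ex x' z' y' z3' h3
  have hh : (3 : ℤ) = 2 * 1 ∨ (3 : ℤ) = 2 * 1 + 1 := by norm_num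
  obtain ⟨q1, q2, q3⟩ := core z z' _ _ _ _ z1 z2 z1' z2' (xcls (by norm_num) hh)
    (xcls (by norm_num) hh) x1.1 x1.2 x2.1 x2.2 h5
  apply h1
  refine ⟨xinj (by norm_num) hh q1 q2, ?_⟩
  have := dvd_sub z3 z3'
  exact dq this (by simp only; rw [q3]; ring)

end Pool.Agent.H74.TO
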