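import Pool.Agent.H74.TO.Up

namespace Pool.Agent.H74.TO

theorem has_3_3 : Has 3 3 8 :=
  has_of_chk (by norm_num) (by norm_num) [0, 5, 3, 7, 4, 1, 8, 2] (by decide +kernel) (by decide +kernel)

theorem has_3_4 : Has 3 4 5 :=
  has_of_chk (by norm_num) (by norm_num) [0, 9, 4, 8, 6] (by decide +kernel) (by decide +kernel)

theorem has_3_5 : Has 3 5 7 :=
  has_of_chk (by norm_num) (by norm_num) [0, 2, 7, 1, 10, 6, 3] (by decide +kernel) (by decide +kernel)

theorem has_3_6 : Has 3 6 5 :=
  has_of_chk (by norm_num) (by norm_num) [0, 7, 6, 10, 8] (by decide +kernel) (by decide +kernel)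

theorem has_3_7 : Has 3 7 5 :=
  has_of_chk (by norm_num) (by norm_num) [0, 20, 9, 12, 6] (by decide +kernel) (by decide +kernel)

theorem has_3_8 : Has 3 8 4 :=
  has_of_chk (by norm_num) (by norm_num) [0, 3, 8, 17] (by decide +kernel) (by decide +kernel)

theorem has_3_9 : Has 3 9 5 :=
  has_of_chk (by norm_num) (by norm_num) [0, 18, 8, 10, 15] (by decide +kernel) (by decide +kernel)

theorem has_3_10 : Has 3 10 4 :=
  has_of_chk (by norm_num) (by norm_num) [0, 1, 10, 27] (by decide +kernel) (by decide +kernel)

theorem has_3_11 : Has 3 11 5 :=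
  has_of_chk (by norm_num) (by norm_num) [0, 19, 32, 4, 21] (by decide +kernel) (by decide +kernel)

theorem has_3_13 : Has 3 13 4 :=
  has_of_chk (by norm_num) (by norm_num) [0, 3, 7, 19] (by decide +kernel) (by decide +kernel)

theorem has_3_17 : Has 3 17 4 :=
  has_of_chk (by norm_num) (by norm_num) [0, 2, 21, 30] (by decide +kernel) (by decide +kernel)

theorem has_4_4 : Has 4 4 7 :=
  has_of_chk (by norm_num) (by norm_num) [0, 1, 6, 8, 3, 4, 11] (by decide +kernel) (by decide +kernel)

theorem has_4_5 : Has 4 5 5 :=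
  has_of_chk (by norm_num) (by norm_num) [0, 7, 6, 10, 13] (by decide +kernel) (by decide +kernel)

theorem has_4_6 : Has 4 6 5 :=
  has_of_chk (by norm_num) (by norm_num) [0, 1, 13, 23, 18] (by decide +kernel) (by decide +kernel)

theorem has_4_7 : Has 4 7 5 :=
  has_of_chk (by norm_num) (by norm_num) [0, 16, 6, 26, 22] (by decide +kernel) (by decide +kernel)

theorem has_4_8 : Has 4 8 5 :=
  has_of_chk (by norm_num) (by norm_num) [0, 2, 28, 12, 11] (by decide +kernel) (by decide +kernel)

theorem has_4_9 : Has 4 9 5 :=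
  has_of_chk (by norm_num) (by norm_num) [0, 21, 11, 4, 23] (by decide +kernel) (by decide +kernel)

theorem has_4_10 : Has 4 10 5 :=
  has_of_chk (by norm_num) (by norm_num) [0, 30, 29, 22, 33] (by decide +kernel) (by decide +kernel)

theorem has_4_11 : Has 4 11 5 :=
  has_of_chk (by norm_num) (by norm_num) [0, 1, 27, 15, 20] (by decide +kernel) (by decide +kernel)

theorem has_4_13 : Has 4 13 5 :=
  has_of_chk (by norm_num) (by norm_num) [0, 49, 46, 48, 40] (by decide +kernel) (by decide +kernel)

theorem has_4_17 : Has 4 17 4 :=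
  has_of_chk (by norm_num) (by norm_num) [0, 4, 9, 25] (by decide +kernel) (by decide +kernel)

theorem has_5_5 : Has 5 5 6 :=
  has_of_chk (by norm_num) (by norm_num) [0, 7, 9, 13, 2, 4] (by decide +kernel) (by decide +kernel)

theorem has_5_6 : Has 5 6 5 :=
  has_of_chk (by norm_num) (by norm_num) [0, 7, 11, 17, 22] (by decide +kernel) (by decide +kernel)

theorem has_5_7 : Has 5 7 5 :=
  has_of_chk (by norm_num) (by norm_num) [0, 8, 9, 34, 3] (by decide +kernel) (by decide +kernel)

theorem has_5_8 : Has 5 8 5 :=
  has_of_chk (by norm_num) (by norm_num) [0, 1, 5, 24, 3] (by decide +kernel) (by decide +kernel)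

theorem has_5_9 : Has 5 9 5 :=
  has_of_chk (by norm_num) (by norm_num) [0, 7, 26, 4, 18] (by decide +kernel) (by decide +kernel)

theorem has_5_10 : Has 5 10 4 :=
  has_of_chk (by norm_num) (by norm_num) [0, 11, 23, 38] (by decide +kernel) (by decide +kernel)

theorem has_5_11 : Has 5 11 5 :=
  has_of_chk (by norm_num) (by norm_num) [0, 34, 31, 15, 21] (by decide +kernel) (by decide +kernel)

theorem has_5_12 : Has 5 12 4 :=
  has_of_chk (by norm_num) (by norm_num) [0, 6, 14, 27] (by decide +kernel) (by decide +kernel)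

theorem has_5_13 : Has 5 13 5 :=
  has_of_chk (by norm_num) (by norm_num) [0, 37, 31, 51, 25] (by decide +kernel) (by decide +kernel)

theorem has_5_14 : Has 5 14 4 :=
  has_of_chk (by norm_num) (by norm_num) [0, 15, 28, 51] (by decide +kernel) (by decide +kernel)

theorem has_5_17 : Has 5 17 4 :=
  has_of_chk (by norm_num) (by norm_num) [0, 4, 9, 43] (by decide +kernel) (by decide +kernel)

theorem has_5_18 : Has 5 18 4 :=
  has_of_chk (by norm_num) (by norm_num) [0, 3, 25, 61] (by decide +kernel) (by decide +kernel)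

theorem has_6_6 : Has 6 6 6 :=
  has_of_chk (by norm_num) (by norm_num) [0, 32, 17, 18, 13, 1] (by decide +kernel) (by decide +kernel)

theorem has_6_7 : Has 6 7 5 :=
  has_of_chk (by norm_num) (by norm_num) [0, 32, 12, 13, 4] (by decide +kernel) (by decide +kernel)

theorem has_6_8 : Has 6 8 5 :=
  has_of_chk (by norm_num) (by norm_num) [0, 20, 9, 24, 39] (by decide +kernel) (by decide +kernel)

theorem has_6_9 : Has 6 9 5 :=
  has_of_chk (by norm_num) (by norm_num) [0, 36, 27, 10, 13] (by decide +kernel) (by decide +kernel)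

theorem has_6_10 : Has 6 10 5 :=
  has_of_chk (by norm_num) (by norm_num) [0, 59, 32, 39, 50] (by decide +kernel) (by decide +kernel)

theorem has_6_11 : Has 6 11 5 :=
  has_of_chk (by norm_num) (by norm_num) [0, 49, 60, 28, 18] (by decide +kernel) (by decide +kernel)

theorem has_6_13 : Has 6 13 5 :=
  has_of_chk (by norm_num) (by norm_num) [0, 64, 15, 27, 71] (by decide +kernel) (by decide +kernel)

theorem has_6_17 : Has 6 17 4 :=
  has_of_chk (by norm_num) (by norm_num) [0, 4, 9, 25] (by decide +kernel) (by decide +kernel)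

theorem has_7_7 : Has 7 7 5 :=
  has_of_chk (by norm_num) (by norm_num) [0, 48, 19, 39, 40] (by decide +kernel) (by decide +kernel)

theorem has_7_8 : Has 7 8 5 :=
  has_of_chk (by norm_num) (by norm_num) [0, 51, 2, 26, 8] (by decide +kernel) (by decide +kernel)

theorem has_7_9 : Has 7 9 5 :=
  has_of_chk (by norm_num) (by norm_num) [0, 4, 43, 51, 24] (by decide +kernel) (by decide +kernel)

theorem has_7_10 : Has 7 10 5 :=
  has_of_chk (by norm_num) (by norm_num) [0, 40, 13, 61, 38] (by decide +kernel) (by decide +kernel)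

theorem has_7_11 : Has 7 11 5 :=
  has_of_chk (by norm_num) (by norm_num) [0, 20, 54, 59, 64] (by decide +kernel) (by decide +kernel)

theorem has_7_12 : Has 7 12 5 :=
  has_of_chk (by norm_num) (by norm_num) [0, 81, 48, 37, 51] (by decide +kernel) (by decide +kernel)

theorem has_7_13 : Has 7 13 5 :=
  has_of_chk (by norm_num) (by norm_num) [0, 88, 80, 3, 82] (by decide +kernel) (by decide +kernel)

theorem has_7_14 : Has 7 14 5 :=
  has_of_chk (by norm_num) (by norm_num) [0, 64, 68, 80, 12] (by decide +kernel) (by decide +kernel)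

theorem has_7_17 : Has 7 17 5 :=
  has_of_chk (by norm_num) (by norm_num) [0, 51, 60, 118, 39] (by decide +kernel) (by decide +kernel)

theorem has_7_18 : Has 7 18 4 :=
  has_of_chk (by norm_num) (by norm_num) [0, 5, 11, 28] (by decide +kernel) (by decide +kernel)

theorem has_8_8 : Has 8 8 5 :=
  has_of_chk (by norm_num) (by norm_num) [0, 53, 18, 11, 14] (by decide +kernel) (by decide +kernel)

theorem has_8_9 : Has 8 9 5 :=
  has_of_chk (by norm_num) (by norm_num) [0, 68, 71, 25, 58] (by decide +kernel) (by decide +kernel)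

theorem has_8_10 : Has 8 10 5 :=
  has_of_chk (by norm_num) (by norm_num) [0, 25, 13, 30, 58] (by decide +kernel) (by decide +kernel)

theorem has_8_11 : Has 8 11 5 :=
  has_of_chk (by norm_num) (by norm_num) [0, 86, 71, 1, 81] (by decide +kernel) (by decide +kernel)

theorem has_8_13 : Has 8 13 5 :=
  has_of_chk (by norm_num) (by norm_num) [0, 94, 91, 100, 12] (by decide +kernel) (by decide +kernel)

theorem has_8_17 : Has 8 17 4 :=
  has_of_chk (by norm_num) (by norm_num) [0, 4, 9, 25] (by decide +kernel) (by decide +kernel)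

theorem has_9_9 : Has 9 9 5 :=
  has_of_chk (by norm_num) (by norm_num) [0, 48, 17, 52, 62] (by decide +kernel) (by decide +kernel)

theorem has_9_10 : Has 9 10 5 :=
  has_of_chk (by norm_num) (by norm_num) [0, 28, 81, 39, 79] (by decide +kernel) (by decide +kernel)

theorem has_9_11 : Has 9 11 5 :=
  has_of_chk (by norm_num) (by norm_num) [0, 92, 5, 89, 91] (by decide +kernel) (by decide +kernel)

theorem has_9_12 : Has 9 12 5 :=
  has_of_chk (by norm_num) (by norm_num) [0, 59, 60, 2, 45] (by decide +kernel) (by decide +kernel)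

theorem has_9_13 : Has 9 13 5 :=
  has_of_chk (by norm_num) (by norm_num) [0, 57, 110, 5, 11] (by decide +kernel) (by decide +kernel)

theorem has_9_14 : Has 9 14 5 :=
  has_of_chk (by norm_num) (by norm_num) [0, 28, 73, 81, 85] (by decide +kernel) (by decide +kernel)

theorem has_9_17 : Has 9 17 5 :=
  has_of_chk (by norm_num) (by norm_num) [0, 57, 79, 1, 66] (by decide +kernel) (by decide +kernel)

theorem has_9_18 : Has 9 18 4 :=
  has_of_chk (by norm_num) (by norm_num) [0, 5, 11, 28] (by decide +kernel) (by decide +kernel)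

theorem has_10_10 : Has 10 10 5 :=
  has_of_chk (by norm_num) (by norm_num) [0, 68, 88, 25, 38] (by decide +kernel) (by decide +kernel)

theorem has_10_11 : Has 10 11 5 :=
  has_of_chk (by norm_num) (by norm_num) [0, 49, 87, 56, 32] (by decide +kernel) (by decide +kernel)

theorem has_10_13 : Has 10 13 5 :=
  has_of_chk (by norm_num) (by norm_num) [0, 7, 35, 5, 36] (by decide +kernel) (by decide +kernel)

theorem has_10_17 : Has 10 17 4 :=
  has_of_chk (by norm_num) (by norm_num) [0, 4, 9, 25] (by decide +kernel) (by decide +kernel)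

theorem has_11_11 : Has 11 11 5 :=
  has_of_chk (by norm_num) (by norm_num) [0, 54, 86, 6, 120] (by decide +kernel) (by decide +kernel)

theorem has_11_12 : Has 11 12 5 :=
  has_of_chk (by norm_num) (by norm_num) [0, 92, 105, 33, 44] (by decide +kernel) (by decide +kernel)

theorem has_11_13 : Has 11 13 5 :=
  has_of_chk (by norm_num) (by norm_num) [0, 131, 55, 66, 7] (by decide +kernel) (by decide +kernel)

theorem has_11_14 : Has 11 14 5 :=
  has_of_chk (by norm_num) (by norm_num) [0, 56, 94, 86, 140] (by decide +kernel) (by decide +kernel)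

theorem has_11_17 : Has 11 17 5 :=
  has_of_chk (by norm_num) (by norm_num) [0, 133, 137, 70, 115] (by decide +kernel) (by decide +kernel)

theorem has_11_18 : Has 11 18 4 :=
  has_of_chk (by norm_num) (by norm_num) [0, 5, 11, 28] (by decide +kernel) (by decide +kernel)

theorem has_12_13 : Has 12 13 5 :=
  has_of_chk (by norm_num) (by norm_num) [0, 25, 116, 49, 95] (by decide +kernel) (by decide +kernel)

theorem has_12_17 : Has 12 17 4 :=
  has_of_chk (by norm_num) (by norm_num) [0, 4, 9, 25] (by decide +kernel) (by decide +kernel)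

theorem has_13_13 : Has 13 13 5 :=
  has_of_chk (by norm_num) (by norm_num) [0, 155, 4, 168, 6] (by decide +kernel) (by decide +kernel)

theorem has_13_14 : Has 13 14 5 :=
  has_of_chk (by norm_num) (by norm_num) [0, 69, 51, 126, 87] (by decide +kernel) (by decide +kernel)

theorem has_13_17 : Has 13 17 5 :=
  has_of_chk (by norm_num) (by norm_num) [0, 77, 65, 170, 72] (by decide +kernel) (by decide +kernel)

theorem has_13_18 : Has 13 18 4 :=
  has_of_chk (by norm_num) (by norm_num) [0, 5, 11, 28] (by decide +kernel) (by decide +kernel)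

theorem has_14_17 : Has 14 17 4 :=
  has_of_chk (by norm_num) (by norm_num) [0, 4, 9, 25] (by decide +kernel) (by decide +kernel)

theorem has_15_18 : Has 15 18 4 :=
  has_of_chk (by norm_num) (by norm_num) [0, 5, 11, 28] (by decide +kernel) (by decide +kernel)

theorem has_17_17 : Has 17 17 5 :=
  has_of_chk (by norm_num) (by norm_num) [0, 90, 257, 98, 87] (by decide +kernel) (by decide +kernel)

theorem has_17_18 : Has 17 18 4 :=
  has_of_chk (by norm_num) (by norm_num) [0, 5, 11, 28] (by decide +kernel) (by decide +kernel)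

end Pool.Agent.H74.TO
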