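import Pool.Agent.H74.TO.Val
import Pool.Agent.H74.TO.UpFin
import Pool.Agent.H74.TO.DataAll
import Pool.Agent.H74.TO.DataK1

namespace Pool.Agent.H74.TO

theorem six_six : NoSet 6 6 5 := by
  apply noSet_com (k := 2) (by norm_num) (by norm_num)
  intro x hx hx0
  have := (inW_iff (by norm_num : 0 < 6)).1 hx
  by_cases h1 : x < 12
  · exact ⟨1, 12, by omega, h1, com_6_6_3_0⟩
  by_cases h2 : x < 36
  · exact ⟨12, 36, by omega, h2, com_6_6_3_1⟩
  · exact ⟨36, 72, by omega, by omega, com_6_6_3_2⟩

theorem v_3_3 : TV 3 3 8 :=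
  tv_of has_3_3 (loS (k := 7) (loS (k := 6) (loS (k := 5) (lo5 (by norm_num) (by norm_num) (com_single (k := 0) (by norm_num) (by norm_num) com_3_3_1_0) rows_3_3) (com_single (k := 2) (by norm_num) (by norm_num) com_3_3_3_0))
    (com_single (k := 3) (by norm_num) (by norm_num) com_3_3_4_0))
    (com_single (k := 4) (by norm_num) (by norm_num) com_3_3_5_0))

theorem v_3_4 : TV 3 4 5 :=
  tv_of has_3_4 (lo5 (by norm_num) (by norm_num) (com_single (k := 0) (by norm_num) (by norm_num) com_3_4_1_0) rows_3_4)

theorem v_3_5 : TV 3 5 7 :=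
  tv_of has_3_5 (loS (k := 6) (loS (k := 5) (lo5 (by norm_num) (by norm_num) (noSet_three (by norm_num) (by norm_num) (by norm_num) (by norm_num) (by norm_num)
    (by norm_num)) rows_3_5) (com_single (k := 2) (by norm_num) (by norm_num) com_3_5_3_0))
    (com_single (k := 3) (by norm_num) (by norm_num) com_3_5_4_0))

theorem v_3_6 : TV 3 6 5 :=
  tv_of has_3_6 (lo5 (by norm_num) (by norm_num) (com_single (k := 0) (by norm_num) (by norm_num) com_3_6_1_0) rows_3_6)

theorem v_3_7 : TV 3 7 5 :=
  tv_of has_3_7 (lo5 (by norm_num) (by norm_num) (noSet_three (by norm_num) (by norm_num) (by norm_num) (by norm_num) (by norm_num)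
    (by norm_num)) rows_3_7)

theorem v_3_9 : TV 3 9 5 :=
  tv_of has_3_9 (lo5 (by norm_num) (by norm_num) (noSet_three (by norm_num) (by norm_num) (by norm_num) (by norm_num) (by norm_num)
    (by norm_num)) rows_3_9)

theorem v_3_11 : TV 3 11 5 :=
  tv_of has_3_11 (lo5 (by norm_num) (by norm_num) (noSet_three (by norm_num) (by norm_num) (by norm_num) (by norm_num) (by norm_num)
    (by norm_num)) rows_3_11)

theorem v_4_4 : TV 4 4 7 :=
  tv_of has_4_4 (loS (k := 6) (loS (k := 5) (lo5 (by norm_num) (by norm_num) (com_single (k := 0) (by norm_num) (by norm_num) com_4_4_1_0) rows_4_4) (com_single (k := 2) (by norm_num) (by norm_num) com_4_4_3_0))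
    (com_single (k := 3) (by norm_num) (by norm_num) com_4_4_4_0))

theorem v_4_5 : TV 4 5 5 :=
  tv_of has_4_5 (lo5 (by norm_num) (by norm_num) (noSet_three (by norm_num) (by norm_num) (by norm_num) (by norm_num) (by norm_num)
    (by norm_num)) rows_4_5)

theorem v_4_6 : TV 4 6 5 :=
  tv_of has_4_6 (lo5 (by norm_num) (by norm_num) (noSet_three (by norm_num) (by norm_num) (by norm_num) (by norm_num) (by norm_num)
    (by norm_num)) rows_4_6)

theorem v_4_7 : TV 4 7 5 :=
  tv_of has_4_7 (lo5 (by norm_num) (by norm_num) (noSet_three (by norm_num) (by norm_num) (by norm_num) (by norm_num) (by norm_num)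
    (by norm_num)) rows_4_7)

theorem v_4_8 : TV 4 8 5 :=
  tv_of has_4_8 (lo5 (by norm_num) (by norm_num) (noSet_three (by norm_num) (by norm_num) (by norm_num) (by norm_num) (by norm_num)
    (by norm_num)) rows_4_8)

theorem v_4_9 : TV 4 9 5 :=
  tv_of has_4_9 (lo5 (by norm_num) (by norm_num) (noSet_three (by norm_num) (by norm_num) (by norm_num) (by norm_num) (by norm_num)
    (by norm_num)) rows_4_9)

theorem v_4_10 : TV 4 10 5 :=
  tv_of has_4_10 (lo5 (by norm_num) (by norm_num) (noSet_three (by norm_num) (by norm_num) (by norm_num) (by norm_num) (by norm_num)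
    (by norm_num)) rows_4_10)

theorem v_4_11 : TV 4 11 5 :=
  tv_of has_4_11 (lo5 (by norm_num) (by norm_num) (noSet_three (by norm_num) (by norm_num) (by norm_num) (by norm_num) (by norm_num)
    (by norm_num)) rows_4_11)

theorem v_4_13 : TV 4 13 5 :=
  tv_of has_4_13 (lo5 (by norm_num) (by norm_num) (noSet_three (by norm_num) (by norm_num) (by norm_num) (by norm_num) (by norm_num)
    (by norm_num)) rows_4_13)

theorem v_5_5 : TV 5 5 6 :=
  tv_of has_5_5 (loS (k := 5) (lo5 (by norm_num) (by norm_num) (noSet_three (by norm_num) (by norm_num) (by norm_num) (by norm_num) (by norm_num)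
    (by norm_num)) rows_5_5) (com_single (k := 2) (by norm_num) (by norm_num) com_5_5_3_0))

theorem v_5_6 : TV 5 6 5 :=
  tv_of has_5_6 (lo5 (by norm_num) (by norm_num) (noSet_three (by norm_num) (by norm_num) (by norm_num) (by norm_num) (by norm_num)
    (by norm_num)) rows_5_6)

theorem v_5_7 : TV 5 7 5 :=
  tv_of has_5_7 (lo5 (by norm_num) (by norm_num) (noSet_three (by norm_num) (by norm_num) (by norm_num) (by norm_num) (by norm_num)
    (by norm_num)) rows_5_7)

theorem v_5_8 : TV 5 8 5 :=
  tv_of has_5_8 (lo5 (by norm_num) (by norm_num) (noSet_three (by norm_num) (by norm_num) (by norm_num) (by norm_num) (by norm_num)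
    (by norm_num)) rows_5_8)

theorem v_5_9 : TV 5 9 5 :=
  tv_of has_5_9 (lo5 (by norm_num) (by norm_num) (noSet_three (by norm_num) (by norm_num) (by norm_num) (by norm_num) (by norm_num)
    (by norm_num)) rows_5_9)

theorem v_5_11 : TV 5 11 5 :=
  tv_of has_5_11 (lo5 (by norm_num) (by norm_num) (noSet_three (by norm_num) (by norm_num) (by norm_num) (by norm_num) (by norm_num)
    (by norm_num)) rows_5_11)

theorem v_5_13 : TV 5 13 5 :=
  tv_of has_5_13 (lo5 (by norm_num) (by norm_num) (noSet_three (by norm_num) (by norm_num) (by norm_num) (by norm_num) (by norm_num)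
    (by norm_num)) rows_5_13)

theorem v_6_6 : TV 6 6 6 :=
  tv_of has_6_6 (loS (k := 5) (lo5 (by norm_num) (by norm_num) (noSet_three (by norm_num) (by norm_num) (by norm_num) (by norm_num) (by norm_num)
    (by norm_num)) rows_6_6) six_six)

theorem v_6_7 : TV 6 7 5 :=
  tv_of has_6_7 (lo5 (by norm_num) (by norm_num) (noSet_three (by norm_num) (by norm_num) (by norm_num) (by norm_num) (by norm_num)
    (by norm_num)) rows_6_7)

theorem v_6_8 : TV 6 8 5 :=
  tv_of has_6_8 (lo5 (by norm_num) (by norm_num) (noSet_three (by norm_num) (by norm_num) (by norm_num) (by norm_num) (by norm_num)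
    (by norm_num)) rows_6_8)

theorem v_6_9 : TV 6 9 5 :=
  tv_of has_6_9 (lo5 (by norm_num) (by norm_num) (noSet_three (by norm_num) (by norm_num) (by norm_num) (by norm_num) (by norm_num)
    (by norm_num)) rows_6_9)

theorem v_6_10 : TV 6 10 5 :=
  tv_of has_6_10 (lo5 (by norm_num) (by norm_num) (noSet_three (by norm_num) (by norm_num) (by norm_num) (by norm_num) (by norm_num)
    (by norm_num)) rows_6_10)

theorem v_6_11 : TV 6 11 5 :=
  tv_of has_6_11 (lo5 (by norm_num) (by norm_num) (noSet_three (by norm_num) (by norm_num) (by norm_num) (by norm_num) (by norm_num)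
    (by norm_num)) rows_6_11)

theorem v_6_13 : TV 6 13 5 :=
  tv_of has_6_13 (lo5 (by norm_num) (by norm_num) (noSet_three (by norm_num) (by norm_num) (by norm_num) (by norm_num) (by norm_num)
    (by norm_num)) rows_6_13)

theorem v_7_7 : TV 7 7 5 :=
  tv_of has_7_7 (lo5 (by norm_num) (by norm_num) (noSet_three (by norm_num) (by norm_num) (by norm_num) (by norm_num) (by norm_num)
    (by norm_num)) rows_7_7)

theorem v_7_8 : TV 7 8 5 :=
  tv_of has_7_8 (lo5 (by norm_num) (by norm_num) (noSet_three (by norm_num) (by norm_num) (by norm_num) (by norm_num) (by norm_num)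
    (by norm_num)) rows_7_8)

theorem v_7_9 : TV 7 9 5 :=
  tv_of has_7_9 (lo5 (by norm_num) (by norm_num) (noSet_three (by norm_num) (by norm_num) (by norm_num) (by norm_num) (by norm_num)
    (by norm_num)) rows_7_9)

theorem v_7_10 : TV 7 10 5 :=
  tv_of has_7_10 (lo5 (by norm_num) (by norm_num) (noSet_three (by norm_num) (by norm_num) (by norm_num) (by norm_num) (by norm_num)
    (by norm_num)) rows_7_10)

theorem v_7_11 : TV 7 11 5 :=
  tv_of has_7_11 (lo5 (by norm_num) (by norm_num) (noSet_three (by norm_num) (by norm_num) (by norm_num) (by norm_num) (by norm_num)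
    (by norm_num)) rows_7_11)

theorem v_7_12 : TV 7 12 5 :=
  tv_of has_7_12 (lo5 (by norm_num) (by norm_num) (noSet_three (by norm_num) (by norm_num) (by norm_num) (by norm_num) (by norm_num)
    (by norm_num)) rows_7_12)

theorem v_7_13 : TV 7 13 5 :=
  tv_of has_7_13 (lo5 (by norm_num) (by norm_num) (noSet_three (by norm_num) (by norm_num) (by norm_num) (by norm_num) (by norm_num)
    (by norm_num)) rows_7_13)

theorem v_7_14 : TV 7 14 5 :=
  tv_of has_7_14 (lo5 (by norm_num) (by norm_num) (noSet_three (by norm_num) (by norm_num) (by norm_num) (by norm_num) (by norm_num)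
    (by norm_num)) rows_7_14)

theorem v_7_17 : TV 7 17 5 :=
  tv_of has_7_17 (lo5 (by norm_num) (by norm_num) (noSet_three (by norm_num) (by norm_num) (by norm_num) (by norm_num) (by norm_num)
    (by norm_num)) rows_7_17)

theorem v_8_8 : TV 8 8 5 :=
  tv_of has_8_8 (lo5 (by norm_num) (by norm_num) (noSet_three (by norm_num) (by norm_num) (by norm_num) (by norm_num) (by norm_num)
    (by norm_num)) rows_8_8)

theorem v_8_9 : TV 8 9 5 :=
  tv_of has_8_9 (lo5 (by norm_num) (by norm_num) (noSet_three (by norm_num) (by norm_num) (by norm_num) (by norm_num) (by norm_num)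
    (by norm_num)) rows_8_9)

theorem v_8_10 : TV 8 10 5 :=
  tv_of has_8_10 (lo5 (by norm_num) (by norm_num) (noSet_three (by norm_num) (by norm_num) (by norm_num) (by norm_num) (by norm_num)
    (by norm_num)) rows_8_10)

theorem v_8_11 : TV 8 11 5 :=
  tv_of has_8_11 (lo5 (by norm_num) (by norm_num) (noSet_three (by norm_num) (by norm_num) (by norm_num) (by norm_num) (by norm_num)
    (by norm_num)) rows_8_11)

theorem v_8_13 : TV 8 13 5 :=
  tv_of has_8_13 (lo5 (by norm_num) (by norm_num) (noSet_three (by norm_num) (by norm_num) (by norm_num) (by norm_num) (by norm_num)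
    (by norm_num)) rows_8_13)

theorem v_9_9 : TV 9 9 5 :=
  tv_of has_9_9 (lo5 (by norm_num) (by norm_num) (noSet_three (by norm_num) (by norm_num) (by norm_num) (by norm_num) (by norm_num)
    (by norm_num)) rows_9_9)

theorem v_9_10 : TV 9 10 5 :=
  tv_of has_9_10 (lo5 (by norm_num) (by norm_num) (noSet_three (by norm_num) (by norm_num) (by norm_num) (by norm_num) (by norm_num)
    (by norm_num)) rows_9_10)

theorem v_9_11 : TV 9 11 5 :=
  tv_of has_9_11 (lo5 (by norm_num) (by norm_num) (noSet_three (by norm_num) (by norm_num) (by norm_num) (by norm_num) (by norm_num)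
    (by norm_num)) rows_9_11)

theorem v_9_12 : TV 9 12 5 :=
  tv_of has_9_12 (lo5 (by norm_num) (by norm_num) (noSet_three (by norm_num) (by norm_num) (by norm_num) (by norm_num) (by norm_num)
    (by norm_num)) rows_9_12)

theorem v_9_13 : TV 9 13 5 :=
  tv_of has_9_13 (lo5 (by norm_num) (by norm_num) (noSet_three (by norm_num) (by norm_num) (by norm_num) (by norm_num) (by norm_num)
    (by norm_num)) rows_9_13)

theorem v_9_14 : TV 9 14 5 :=
  tv_of has_9_14 (lo5 (by norm_num) (by norm_num) (noSet_three (by norm_num) (by norm_num) (by norm_num) (by norm_num) (by norm_num)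
    (by norm_num)) rows_9_14)

theorem v_9_17 : TV 9 17 5 :=
  tv_of has_9_17 (lo5 (by norm_num) (by norm_num) (noSet_three (by norm_num) (by norm_num) (by norm_num) (by norm_num) (by norm_num)
    (by norm_num)) rows_9_17)

theorem v_10_10 : TV 10 10 5 :=
  tv_of has_10_10 (lo5 (by norm_num) (by norm_num) (noSet_three (by norm_num) (by norm_num) (by norm_num) (by norm_num) (by norm_num)
    (by norm_num)) rows_10_10)

theorem v_10_11 : TV 10 11 5 :=
  tv_of has_10_11 (lo5 (by norm_num) (by norm_num) (noSet_three (by norm_num) (by norm_num) (by norm_num) (by norm_num) (by norm_num)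
    (by norm_num)) rows_10_11)

theorem v_10_13 : TV 10 13 5 :=
  tv_of has_10_13 (lo5 (by norm_num) (by norm_num) (noSet_three (by norm_num) (by norm_num) (by norm_num) (by norm_num) (by norm_num)
    (by norm_num)) rows_10_13)

theorem v_11_11 : TV 11 11 5 :=
  tv_of has_11_11 (lo5 (by norm_num) (by norm_num) (noSet_three (by norm_num) (by norm_num) (by norm_num) (by norm_num) (by norm_num)
    (by norm_num)) rows_11_11)

theorem v_11_12 : TV 11 12 5 :=
  tv_of has_11_12 (lo5 (by norm_num) (by norm_num) (noSet_three (by norm_num) (by norm_num) (by norm_num) (by norm_num) (by norm_num)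
    (by norm_num)) rows_11_12)

theorem v_11_13 : TV 11 13 5 :=
  tv_of has_11_13 (lo5 (by norm_num) (by norm_num) (noSet_three (by norm_num) (by norm_num) (by norm_num) (by norm_num) (by norm_num)
    (by norm_num)) rows_11_13)

theorem v_11_14 : TV 11 14 5 :=
  tv_of has_11_14 (lo5 (by norm_num) (by norm_num) (noSet_three (by norm_num) (by norm_num) (by norm_num) (by norm_num) (by norm_num)
    (by norm_num)) rows_11_14)

theorem v_11_17 : TV 11 17 5 :=
  tv_of has_11_17 (lo5 (by norm_num) (by norm_num) (noSet_three (by norm_num) (by norm_num) (by norm_num) (by norm_num) (by norm_num)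
    (by norm_num)) rows_11_17)

theorem v_12_13 : TV 12 13 5 :=
  tv_of has_12_13 (lo5 (by norm_num) (by norm_num) (noSet_three (by norm_num) (by norm_num) (by norm_num) (by norm_num) (by norm_num)
    (by norm_num)) rows_12_13)

theorem v_13_13 : TV 13 13 5 :=
  tv_of has_13_13 (lo5 (by norm_num) (by norm_num) (noSet_three (by norm_num) (by norm_num) (by norm_num) (by norm_num) (by norm_num)
    (by norm_num)) rows_13_13)

theorem v_13_14 : TV 13 14 5 :=
  tv_of has_13_14 (lo5 (by norm_num) (by norm_num) (noSet_three (by norm_num) (by norm_num) (by norm_num) (by norm_num) (by norm_num)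
    (by norm_num)) rows_13_14)

theorem v_13_17 : TV 13 17 5 :=
  tv_of has_13_17 (lo5 (by norm_num) (by norm_num) (noSet_three (by norm_num) (by norm_num) (by norm_num) (by norm_num) (by norm_num)
    (by norm_num)) rows_13_17)

theorem v_17_17 : TV 17 17 5 :=
  tv_of has_17_17 (lo5 (by norm_num) (by norm_num) (noSet_three (by norm_num) (by norm_num) (by norm_num) (by norm_num) (by norm_num)
    (by norm_num)) rows_17_17)

theorem v_3_8 : TV 3 8 4 :=
  tv_of has_3_8 (lo4 (by norm_num) (by norm_num) (com_single (k := 0) (by norm_num) (by norm_num) com_3_8_1_0))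

theorem v_3_10 : TV 3 10 4 :=
  tv_of has_3_10 (lo4 (by norm_num) (by norm_num) (com_single (k := 0) (by norm_num) (by norm_num) com_3_10_1_0))

theorem v_3_13 : TV 3 13 4 :=
  tv_of has_3_13 (lo4 (by norm_num) (by norm_num) (noSet_three (by norm_num) (by norm_num) (by norm_num) (by norm_num) (by norm_num)
    (by norm_num)))

theorem v_5_10 : TV 5 10 4 :=
  tv_of has_5_10 (lo4 (by norm_num) (by norm_num) (noSet_three (by norm_num) (by norm_num) (by norm_num) (by norm_num) (by norm_num)
    (by norm_num)))

theorem v_5_12 : TV 5 12 4 :=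
  tv_of has_5_12 (lo4 (by norm_num) (by norm_num) (noSet_three (by norm_num) (by norm_num) (by norm_num) (by norm_num) (by norm_num)
    (by norm_num)))

theorem v_5_14 : TV 5 14 4 :=
  tv_of has_5_14 (lo4 (by norm_num) (by norm_num) (noSet_three (by norm_num) (by norm_num) (by norm_num) (by norm_num) (by norm_num)
    (by norm_num)))

theorem v_3_17 : TV 3 17 4 :=
  tv_of has_3_17 (lo4 (by norm_num) (by norm_num) (noSet_three (by norm_num) (by norm_num) (by norm_num) (by norm_num) (by norm_num)
    (by norm_num)))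

theorem v_4_17 : TV 4 17 4 :=
  tv_of has_4_17 (lo4 (by norm_num) (by norm_num) (noSet_three (by norm_num) (by norm_num) (by norm_num) (by norm_num) (by norm_num)
    (by norm_num)))

theorem v_5_17 : TV 5 17 4 :=
  tv_of has_5_17 (lo4 (by norm_num) (by norm_num) (noSet_three (by norm_num) (by norm_num) (by norm_num) (by norm_num) (by norm_num)
    (by norm_num)))

theorem v_6_17 : TV 6 17 4 :=
  tv_of has_6_17 (lo4 (by norm_num) (by norm_num) (noSet_three (by norm_num) (by norm_num) (by norm_num) (by norm_num) (by norm_num)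
    (by norm_num)))

theorem v_8_17 : TV 8 17 4 :=
  tv_of has_8_17 (lo4 (by norm_num) (by norm_num) (noSet_three (by norm_num) (by norm_num) (by norm_num) (by norm_num) (by norm_num)
    (by norm_num)))

theorem v_10_17 : TV 10 17 4 :=
  tv_of has_10_17 (lo4 (by norm_num) (by norm_num) (noSet_three (by norm_num) (by norm_num) (by norm_num) (by norm_num) (by norm_num)
    (by norm_num)))

theorem v_12_17 : TV 12 17 4 :=
  tv_of has_12_17 (lo4 (by norm_num) (by norm_num) (noSet_three (by norm_num) (by norm_num) (by norm_num) (by norm_num) (by norm_num)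
    (by norm_num)))

theorem v_14_17 : TV 14 17 4 :=
  tv_of has_14_17 (lo4 (by norm_num) (by norm_num) (noSet_three (by norm_num) (by norm_num) (by norm_num) (by norm_num) (by norm_num)
    (by norm_num)))

theorem v_5_18 : TV 5 18 4 :=
  tv_of has_5_18 (lo4 (by norm_num) (by norm_num) (noSet_three (by norm_num) (by norm_num) (by norm_num) (by norm_num) (by norm_num)
    (by norm_num)))

theorem v_7_18 : TV 7 18 4 :=
  tv_of has_7_18 (lo4 (by norm_num) (by norm_num) (noSet_three (by norm_num) (by norm_num) (by norm_num) (by norm_num) (by norm_num)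
    (by norm_num)))

theorem v_9_18 : TV 9 18 4 :=
  tv_of has_9_18 (lo4 (by norm_num) (by norm_num) (noSet_three (by norm_num) (by norm_num) (by norm_num) (by norm_num) (by norm_num)
    (by norm_num)))

theorem v_11_18 : TV 11 18 4 :=
  tv_of has_11_18 (lo4 (by norm_num) (by norm_num) (noSet_three (by norm_num) (by norm_num) (by norm_num) (by norm_num) (by norm_num)
    (by norm_num)))

theorem v_13_18 : TV 13 18 4 :=
  tv_of has_13_18 (lo4 (by norm_num) (by norm_num) (noSet_three (by norm_num) (by norm_num) (by norm_num) (by norm_num) (by norm_num)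
    (by norm_num)))

theorem v_15_18 : TV 15 18 4 :=
  tv_of has_15_18 (lo4 (by norm_num) (by norm_num) (noSet_three (by norm_num) (by norm_num) (by norm_num) (by norm_num) (by norm_num)
    (by norm_num)))

theorem v_17_18 : TV 17 18 4 :=
  tv_of has_17_18 (lo4 (by norm_num) (by norm_num) (noSet_three (by norm_num) (by norm_num) (by norm_num) (by norm_num) (by norm_num)
    (by norm_num)))

theorem m_3 (s : ℕ) (h1 : 3 ≤ s) (h2 : s ≤ 3) : TV s 3 (torusValue s 3) := by
  interval_cases s
  · exact v_3_3

theorem m_4 (s : ℕ) (h1 : 3 ≤ s) (h2 : s ≤ 4) : TV s 4 (torusValue s 4) := by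
  interval_cases s
  · exact v_3_4
  · exact v_4_4

theorem m_5 (s : ℕ) (h1 : 3 ≤ s) (h2 : s ≤ 5) : TV s 5 (torusValue s 5) := by
  interval_cases s
  · exact v_3_5
  · exact v_4_5
  · exact v_5_5

theorem m_6 (s : ℕ) (h1 : 3 ≤ s) (h2 : s ≤ 6) : TV s 6 (torusValue s 6) := by
  interval_cases s
  · exact v_3_6
  · exact v_4_6
  · exact v_5_6
  · exact v_6_6

theorem m_7 (s : ℕ) (h1 : 3 ≤ s) (h2 : s ≤ 7) : TV s 7 (torusValue s 7) := by
  interval_cases s
  · exact v_3_7
  · exact v_4_7
  · exact v_5_7
  · exact v_6_7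
  · exact v_7_7

theorem m_8 (s : ℕ) (h1 : 3 ≤ s) (h2 : s ≤ 8) : TV s 8 (torusValue s 8) := by
  interval_cases s
  · exact v_3_8
  · exact v_4_8
  · exact v_5_8
  · exact v_6_8
  · exact v_7_8
  · exact v_8_8

theorem m_9 (s : ℕ) (h1 : 3 ≤ s) (h2 : s ≤ 9) : TV s 9 (torusValue s 9) := by
  interval_cases s
  · exact v_3_9
  · exact v_4_9
  · exact v_5_9
  · exact v_6_9
  · exact v_7_9
  · exact v_8_9
  · exact v_9_9

theorem m_10 (s : ℕ) (h1 : 3 ≤ s) (h2 : s ≤ 10) : TV s 10 (torusValue s 10) := by
  interval_cases s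
  · exact v_3_10
  · exact v_4_10
  · exact v_5_10
  · exact v_6_10
  · exact v_7_10
  · exact v_8_10
  · exact v_9_10
  · exact v_10_10

theorem m_11 (s : ℕ) (h1 : 3 ≤ s) (h2 : s ≤ 11) : TV s 11 (torusValue s 11) := by
  interval_cases s
  · exact v_3_11
  · exact v_4_11
  · exact v_5_11
  · exact v_6_11
  · exact v_7_11
  · exact v_8_11
  · exact v_9_11
  · exact v_10_11
  · exact v_11_11

theorem m_13 (s : ℕ) (h1 : 3 ≤ s) (h2 : s ≤ 13) : TV s 13 (torusValue s 13) := by
  interval_cases s
  · exact v_3_13
  · exact v_4_13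
  · exact v_5_13
  · exact v_6_13
  · exact v_7_13
  · exact v_8_13
  · exact v_9_13
  · exact v_10_13
  · exact v_11_13
  · exact v_12_13
  · exact v_13_13

end Pool.Agent.H74.TO
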