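import Pool.Agent.H74.TO.Up

namespace Pool.Agent.H74.TO

open SimpleGraph Pool.Agent.H74.MD

/-- no set of exactly `k` vertices resolves the torus -/
def NoSet (s t k : ℕ) : Prop :=
  ∀ S : Finset (Fin s × Fin t), S.card = k →
    ¬ IsOuterMultisetResolving ((cycleGraph s) □ (cycleGraph t)) S

theorem noSet_of {s t k : ℕ} (hs : 3 ≤ s) (ht : 3 ≤ t)
    (H : ∀ S : Finset (Fin s × Fin t), S.card = k → Cf s t (S.val.map pt)) : NoSet s t k := by
  intro S hS
  rw [outer_iff hs ht, not_not]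
  exact H S hS

theorem noSet_zero {s t : ℕ} (hs : 3 ≤ s) (ht : 3 ≤ t) : NoSet s t 0 := by
  apply noSet_of hs ht
  intro S hS
  rw [Finset.card_eq_zero] at hS
  subst hS
  exact no_zero (by exact_mod_cast hs)

theorem noSet_one {s t : ℕ} (hs : 3 ≤ s) (ht : 3 ≤ t) : NoSet s t 1 := by
  apply noSet_of hs ht
  intro S hS
  rw [Finset.card_eq_one] at hS
  obtain ⟨a, rfl⟩ := hS
  exact no_one (by exact_mod_cast hs) (by exact_mod_cast ht) (pt a)

theorem noSet_two {s t : ℕ} (hs : 3 ≤ s) (ht : 3 ≤ t) : NoSet s t 2 := by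
  apply noSet_of hs ht
  intro S hS
  rw [Finset.card_eq_two] at hS
  obtain ⟨a, b, hab, rfl⟩ := hS
  have e : ({a, b} : Finset (Fin s × Fin t)).val = a ::ₘ {b} :=
    Finset.insert_val_of_notMem (by simpa using hab)
  rw [e, Multiset.map_cons, Multiset.map_singleton]
  exact no_two (by exact_mod_cast hs) (by exact_mod_cast ht) (pt a) (pt b)

theorem val_three {α : Type*} [DecidableEq α] {a b c : α} (hab : a ≠ b) (hac : a ≠ c)
    (hbc : b ≠ c) : ({a, b, c} : Finset α).val = a ::ₘ b ::ₘ {c} := by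
  have e1 : ({a, b, c} : Finset α).val = a ::ₘ ({b, c} : Finset α).val :=
    Finset.insert_val_of_notMem (by simp [hab, hac])
  have e2 : ({b, c} : Finset α).val = b ::ₘ {c} :=
    Finset.insert_val_of_notMem (by simpa using hbc)
  rw [e1, e2]

theorem noSet_three {s t : ℕ} (hs : 3 ≤ s) (ht : 3 ≤ t)
    (h1 : ¬ (s = 3 ∧ t % 2 = 0)) (h2 : ¬ (t = 3 ∧ s % 2 = 0)) (h3 : ¬ (s = 3 ∧ t = 3))
    (h4 : ¬ (s = 4 ∧ t = 4)) : NoSet s t 3 := by
  apply noSet_of hs ht
  intro S hS
  rw [Finset.card_eq_three] at hS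
  obtain ⟨a, b, c, hab, hac, hbc, rfl⟩ := hS
  rw [val_three hab hac hbc, Multiset.map_cons, Multiset.map_cons, Multiset.map_singleton]
  exact no_three (by exact_mod_cast hs) (by exact_mod_cast ht) (by omega) (by omega) (by omega)
    (by omega) (pt a) (pt b) (pt c)

theorem noSet_four {s t : ℕ} (hs : 3 ≤ s) (ht : 3 ≤ t) (H : ∀ a, 2 * a ≤ s → RowOK s t a) :
    NoSet s t 4 := by
  apply noSet_of hs ht
  intro S hS
  obtain ⟨a, T, haT, rfl, hT⟩ := Finset.card_eq_succ.1 hS
  rw [Finset.card_eq_three] at hT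
  obtain ⟨b, c, d, hbc, hbd, hcd, rfl⟩ := hT
  have hab : a ≠ b := by rintro rfl; simp at haT
  have hac : a ≠ c := by rintro rfl; simp at haT
  have had : a ≠ d := by rintro rfl; simp at haT
  rw [Finset.insert_val_of_notMem haT, val_three hbc hbd hcd, Multiset.map_cons,
    Multiset.map_cons, Multiset.map_cons, Multiset.map_singleton]
  have ne : ∀ {x y : Fin s × Fin t}, x ≠ y → ¬ Eqv s t (pt x) (pt y) :=
    fun h k => h (pt_inj k)
  exact no_four hs ht H (ne hab) (ne hac) (ne had) (ne hbc) (ne hbd) (ne hcd)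

theorem noSet_com {s t k : ℕ} (hs : 3 ≤ s) (ht : 3 ≤ t)
    (H : ∀ x, inW s t x → x ≠ 0 → ∃ lo hi, lo ≤ x ∧ x < hi ∧ ComOK s t lo hi k) :
    NoSet s t (k + 3) := by
  apply noSet_of hs ht
  intro S hS
  have hs0 : 0 < s := by omega
  have ht0 : 0 < t := by omega
  have hsz : (0 : ℤ) < s := by exact_mod_cast hs0
  have htz : (0 : ℤ) < t := by exact_mod_cast ht0
  obtain ⟨x0, hx0⟩ : S.Nonempty := by
    rw [← Finset.card_pos]; omega
  let g : Fin s × Fin t → ℕ :=
    fun x => ix s t ((pt x).1 - (pt x0).1, (pt x).2 - (pt x0).2)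
  have hg : ∀ x, Eqv s t ((pt x).1 - (pt x0).1, (pt x).2 - (pt x0).2) (ofD t (g x)) :=
    fun x => ofD_ix hs0 ht0 _
  have ginj : Function.Injective g := by
    intro x y h
    have h1 := hg x
    rw [h] at h1
    have h2 := h1.trans' (hg y).symm'
    apply pt_inj
    exact ⟨dq h2.1 (by simp only; ring), dq h2.2 (by simp only; ring)⟩
  have g0 : g x0 = 0 := by
    have e : ((pt x0).1 - (pt x0).1, (pt x0).2 - (pt x0).2) = ((0 : ℤ), (0 : ℤ)) := by
      rw [sub_self, sub_self]
    simp only [g]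
    rw [e]
    unfold ix rz
    simp
  have gW : ∀ x, inW s t (g x) := fun x => inW_ix hs0 ht0 _
  set T : Finset ℕ := (S.erase x0).image g with hT
  have hTc : T.card = k + 2 := by
    rw [hT, Finset.card_image_of_injective _ ginj, Finset.card_erase_of_mem hx0, hS]; omega
  have hTW : ∀ y ∈ T, inW s t y ∧ y ≠ 0 := by
    intro y hy
    rw [hT, Finset.mem_image] at hy
    obtain ⟨x, hx, rfl⟩ := hy
    refine ⟨gW x, ?_⟩
    intro h
    rw [← g0] at h
    exact (Finset.mem_erase.1 hx).1 (ginj h)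
  have hL1 : (T.sort (· ≥ ·)).length = k + 2 := by rw [Finset.length_sort, hTc]
  have hL2 : (T.sort (· ≥ ·)).Pairwise (fun x y => y < x) :=
    ((Finset.pairwise_sort T (· ≥ ·)).and (Finset.sort_nodup T (· ≥ ·))).imp
      (fun h => lt_of_le_of_ne h.1 (Ne.symm h.2))
  have hL3 : ((T.sort (· ≥ ·) : List ℕ) : Multiset ℕ) = T.val := Finset.sort_eq T (· ≥ ·)
  have hL4 : ∀ y ∈ T.sort (· ≥ ·), inW s t y ∧ y ≠ 0 := by
    intro y hy
    exact hTW y ((Finset.mem_sort _).1 hy)
  generalize T.sort (· ≥ ·) = L at hL1 hL2 hL3 hL4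
  obtain ⟨r, base, rfl⟩ := List.exists_cons_of_length_eq_add_one hL1
  have hbl : base.length = k + 1 := by simpa using hL1
  have hbne : base ≠ [] := by intro e; rw [e] at hbl; simp at hbl
  rw [List.pairwise_cons] at hL2
  have hlast := hL4 (base.getLast hbne) (List.mem_cons_of_mem _ (List.getLast_mem hbne))
  obtain ⟨lo, hi, h1, h2, h3⟩ := H _ hlast.1 hlast.2
  have hmem : base ∈ combos s t lo hi k :=
    mem_combos ht0 k base hbl hL2.2 (fun x hx => hL4 x (List.mem_cons_of_mem _ hx))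
      (fun _ => ⟨h1, h2⟩)
  have hex : (excl base).testBit r = false := by
    obtain ⟨x, l, rfl⟩ := List.exists_cons_of_length_eq_add_one hbl
    apply excl_spec (hL2.1 x List.mem_cons_self)
    intro hr
    have := hL2.1 r (List.mem_cons_of_mem _ hr)
    omega
  have key := h3 base hmem r (hL4 r List.mem_cons_self).1 hex
  unfold Cfb at key
  have := Cf_iso hsz htz 1 1 (-(pt x0).1) (-(pt x0).2) (Or.inl rfl) (Or.inl rfl) S.val pt
    (fun x => ofD t (g x)) (by
      intro x
      have := hg x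
      exact ⟨dq this.1 (by simp only; ring), dq this.2 (by simp only; ring)⟩) (by
      have e1 : S.val.map (fun x => ofD t (g x)) = (S.val.map g).map (ofD t) := by
        rw [Multiset.map_map]; rfl
      have e2 : S.val.map g = 0 ::ₘ T.val := by
        have e3 : S.val = x0 ::ₘ (S.erase x0).val := by
          rw [Finset.erase_val]
          exact (Multiset.cons_erase hx0).symm
        have e4 : T.val = (S.erase x0).val.map g := by
          rw [hT]
          exact Finset.image_val_of_injOn ginj.injOn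
        rw [e3, Multiset.map_cons, g0, e4]
      rw [e1, e2, ← hL3]
      have e5 : (0 ::ₘ ((r :: base : List ℕ) : Multiset ℕ)) = ((r :: 0 :: base : List ℕ) :
          Multiset ℕ) := by
        rw [Multiset.cons_coe, Multiset.coe_eq_coe]
        exact List.Perm.swap _ _ _
      rw [e5]
      exact key)
  exact this

end Pool.Agent.H74.TO
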