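import Pool.Agent.H74.TO.Fin64
import Pool.Agent.H74.TO.F1
import Pool.Agent.H74.TO.F2
import Pool.Agent.H74.TO.F3
import Pool.Agent.H74.TO.F4

namespace Pool.Agent.H74.TO

open SimpleGraph Pool.Agent.H74.MD

theorem nd {n d : ℤ} (h1 : -n < d) (h2 : d < n) (h3 : d ≠ 0) : ¬ n ∣ d := by
  rintro ⟨k, rfl⟩
  rcases lt_trichotomy k 0 with hk | hk | hk
  · have : n * k ≤ n * (-1) := mul_le_mul_of_nonneg_left (by omega) (by omega)
    omega
  · subst hk; omega
  · have : n * 1 ≤ n * k := mul_le_mul_of_nonneg_left (by omega) (by omega)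
    omega

theorem ne1 {s t : ℤ} {u v : ℤ × ℤ} (h : ¬ s ∣ u.1 - v.1) : ¬ Eqv s t u v := fun k => h k.1

theorem ne2 {s t : ℤ} {u v : ℤ × ℤ} (h : ¬ t ∣ u.2 - v.2) : ¬ Eqv s t u v := fun k => h k.2

theorem pw4 {s t l0 l1 l2 l3 : ℤ} (hs : 3 ≤ s) (h01 : ¬ t ∣ l0 - l1) (h02 : ¬ t ∣ l0 - l2)
    (h12 : ¬ t ∣ l1 - l2) :
    [(0, l0), (0, l1), (0, l2), ((1 : ℤ), l3)].Pairwise (fun x y => ¬ Eqv s t x y) := by
  have hs1 : ¬ s ∣ (0 : ℤ) - 1 := nd (by omega) (by omega) (by omega)
  simp only [List.pairwise_cons, List.mem_cons, List.not_mem_nil, or_false, forall_eq_or_imp,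
    forall_eq, List.Pairwise.nil, and_true, IsEmpty.forall_iff, implies_true]
  exact ⟨⟨ne2 h01, ne2 h02, ne1 hs1⟩, ⟨ne2 h12, ne1 hs1⟩, ne1 hs1⟩

theorem hasF1 {s t : ℕ} (hs : 3 ≤ s) (ht : 15 ≤ t) (hodd : t % 2 = 1) (h17 : t ≠ 17) :
    Has s t 4 := by
  obtain ⟨g, hg⟩ : ∃ g : ℕ, t = 2 * g + 1 := ⟨t / 2, by omega⟩
  have h := F1_not (s := (s : ℤ)) (t := (t : ℤ)) (h := ((s / 2 : ℕ) : ℤ)) (g := (g : ℤ))
    (by omega) (by omega) (by omega) (by omega) (by omega)
  exact has_of_list hs (by omega) [(0, 4), (0, 0), (0, (g : ℤ)), (1, (g : ℤ) + 1)]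
    (pw4 (by omega) (nd (by omega) (by omega) (by omega)) (nd (by omega) (by omega) (by omega))
      (nd (by omega) (by omega) (by omega))) h

theorem hasF2 {s t : ℕ} (hs : 4 ≤ s) (hse : s % 2 = 0) (ht : 12 ≤ t) (hte : t % 2 = 0) :
    Has s t 4 := by
  obtain ⟨g, hg⟩ : ∃ g : ℕ, t = 2 * g := ⟨t / 2, by omega⟩
  have h := F2_not (s := (s : ℤ)) (t := (t : ℤ)) (h := ((s / 2 : ℕ) : ℤ)) (g := (g : ℤ))
    (by omega) (by omega) (by omega) (by omega)
  exact has_of_list (by omega) (by omega) [(0, 1), (0, (g : ℤ) - 1), (0, (g : ℤ) + 2), (1, 0)]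
    (pw4 (by omega) (nd (by omega) (by omega) (by omega)) (nd (by omega) (by omega) (by omega))
      (nd (by omega) (by omega) (by omega))) h

theorem hasF3 {s t : ℕ} (hs : 3 ≤ s) (ht : 16 ≤ t) (hte : t % 2 = 0) (h18 : t ≠ 18) :
    Has s t 4 := by
  obtain ⟨g, hg⟩ : ∃ g : ℕ, t = 2 * g := ⟨t / 2, by omega⟩
  have h := F3_not (s := (s : ℤ)) (t := (t : ℤ)) (h := ((s / 2 : ℕ) : ℤ)) (g := (g : ℤ))
    (by omega) (by omega) (by omega) (by omega) (by omega)
  exact has_of_list (by omega) (by omega) [(0, 0), (0, 5), (0, (g : ℤ) + 1), (1, (g : ℤ) + 2)]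
    (pw4 (by omega) (nd (by omega) (by omega) (by omega)) (nd (by omega) (by omega) (by omega))
      (nd (by omega) (by omega) (by omega))) h

theorem hasF4 {t : ℕ} (ht : 12 ≤ t) (hte : t % 2 = 0) : Has 3 t 3 := by
  obtain ⟨g, hg⟩ : ∃ g : ℕ, t = 2 * g := ⟨t / 2, by omega⟩
  have h := F4_not (t := (t : ℤ)) (g := (g : ℤ)) (by omega) (by omega)
  refine has_of_list (by omega) (by omega) [(0, 0), (0, 4), (1, 0)] ?_ h
  have hs1 : ¬ (3 : ℤ) ∣ (0 : ℤ) - 1 := by norm_num
  have h4 : ¬ (t : ℤ) ∣ (0 : ℤ) - 4 := nd (by omega) (by omega) (by omega)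
  simp only [List.pairwise_cons, List.mem_cons, List.not_mem_nil, or_false, forall_eq_or_imp,
    forall_eq, List.Pairwise.nil, and_true, IsEmpty.forall_iff, implies_true]
  exact ⟨⟨ne2 h4, ne1 hs1⟩, ne1 hs1⟩

theorem val4 {s t : ℕ} (hs : 3 ≤ s) (h12 : 12 ≤ t) (h1 : ¬ (s = 3 ∧ t % 2 = 0))
    (h2 : t ≠ 13) (h3 : (t = 12 ∨ t = 14) → s % 2 = 0 ∨ s ≤ 5)
    (h4 : t = 17 → s % 2 = 0 ∨ s ≤ 5 ∨ s = 15) : torusValue s t = 4 := by
  unfold torusValue
  rw [if_neg (by omega), if_neg (by omega), if_neg (by omega), if_neg (by omega),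
    if_neg (by omega)]

theorem val5 {s t : ℕ} (hs : 7 ≤ s) (h12 : 12 ≤ t) (h1 : s % 2 = 1)
    (h3 : t = 12 ∨ t = 14 ∨ (t = 17 ∧ s ≠ 15)) : torusValue s t = 5 := by
  unfold torusValue
  rw [if_neg (by omega), if_neg (by omega), if_neg (by omega), if_neg (by omega),
    if_pos (by omega)]

theorem tv4 {s t : ℕ} (hs : 3 ≤ s) (hst : s ≤ t) (h12 : 12 ≤ t) (h : Has s t 4)
    (h1 : ¬ (s = 3 ∧ t % 2 = 0)) : TV s t 4 :=
  tv_of h (lo4 hs (by omega) (noSet_three hs (by omega) h1 (by omega) (by omega) (by omega)))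

/-- the theorem for `s ≤ t` -/
theorem main_le {s t : ℕ} (hs : 3 ≤ s) (hst : s ≤ t) : TV s t (torusValue s t) := by
  by_cases c1 : t ≤ 11
  · have ht : 3 ≤ t := by omega
    interval_cases t
    · exact m_3 s hs hst
    · exact m_4 s hs hst
    · exact m_5 s hs hst
    · exact m_6 s hs hst
    · exact m_7 s hs hst
    · exact m_8 s hs hst
    · exact m_9 s hs hst
    · exact m_10 s hs hst
    · exact m_11 s hs hst
  by_cases c13 : t = 13
  · subst c13
    exact m_13 s hs hst
  by_cases c3 : s = 3 ∧ t % 2 = 0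
  · obtain ⟨rfl, he⟩ := c3
    have e : torusValue 3 t = 3 := by
      unfold torusValue
      rw [if_neg (by omega), if_neg (by omega), if_neg (by omega), if_pos (by omega)]
    rw [e]
    exact tv_of (hasF4 (by omega) he) (lo3 (by omega) (by omega))
  rcases (by omega : t % 2 = 0 ∨ t % 2 = 1) with ht2 | ht2
  · rcases (by omega : s % 2 = 0 ∨ s % 2 = 1) with hs2 | hs2
    · rw [val4 hs (by omega) c3 c13 (by omega) (by omega)]
      exact tv4 hs hst (by omega) (hasF2 (by omega) hs2 (by omega) ht2) c3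
    · by_cases c12 : t = 12
      · subst c12
        have h11 : s ≤ 11 := by omega
        interval_cases s <;> first | omega | skip
        · exact v_5_12
        · exact v_7_12
        · exact v_9_12
        · exact v_11_12
      by_cases c14 : t = 14
      · subst c14
        have h11 : s ≤ 13 := by omega
        interval_cases s <;> first | omega | skip
        · exact v_5_14
        · exact v_7_14
        · exact v_9_14
        · exact v_11_14
        · exact v_13_14
      by_cases c18 : t = 18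
      · subst c18
        have h11 : s ≤ 17 := by omega
        interval_cases s <;> first | omega | skip
        · exact v_5_18
        · exact v_7_18
        · exact v_9_18
        · exact v_11_18
        · exact v_13_18
        · exact v_15_18
        · exact v_17_18
      rw [val4 hs (by omega) c3 c13 (by omega) (by omega)]
      exact tv4 hs hst (by omega) (hasF3 hs (by omega) ht2 c18) c3
  · by_cases c17 : t = 17
    · subst c17
      have h15 : TV 15 17 4 :=
        tv4 (by norm_num) (by norm_num) (by norm_num)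
          (has_swap (by norm_num) (by norm_num)
            (hasF1 (s := 17) (t := 15) (by norm_num) (by norm_num) (by norm_num) (by norm_num)))
          (by norm_num)
      have h16 : TV 16 17 4 :=
        tv4 (by norm_num) (by norm_num) (by norm_num)
          (has_swap (by norm_num) (by norm_num)
            (hasF3 (s := 17) (t := 16) (by norm_num) (by norm_num) (by norm_num) (by norm_num)))
          (by norm_num)
      interval_cases s
      · exact v_3_17
      · exact v_4_17
      · exact v_5_17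
      · exact v_6_17
      · exact v_7_17
      · exact v_8_17
      · exact v_9_17
      · exact v_10_17
      · exact v_11_17
      · exact v_12_17
      · exact v_13_17
      · exact v_14_17
      · exact h15
      · exact h16
      · exact v_17_17
    · rw [val4 hs (by omega) c3 c13 (by omega) (by omega)]
      exact tv4 hs hst (by omega) (hasF1 hs (by omega) ht2 c17) c3

/-- the outer multiset dimension of every torus -/
theorem main {s t : ℕ} (hs : 3 ≤ s) (ht : 3 ≤ t) :
    odim ((cycleGraph s) □ (cycleGraph t)) = torusValue (min s t) (max s t) := by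
  rcases le_total s t with h | h
  · rw [min_eq_left h, max_eq_right h]
    exact main_le hs h
  · rw [min_eq_right h, max_eq_left h, tv_swap hs ht]
    exact main_le ht h

end Pool.Agent.H74.TO
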