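import Pool.Agent.H74.TO.Apex

namespace Pool.Agent.H74.TO

open Pool.Agent.H74.MD

theorem dq {n a b : ℤ} (h : n ∣ a) (e : b = a) : n ∣ b := by rw [e]; exact h

theorem ndvd {n m : ℤ} (h0 : 0 < m) (h1 : m < n) : ¬ n ∣ m := by
  intro h
  have := Int.le_of_dvd h0 h
  omega

theorem hE_of {s t A B x y : ℤ} (h : Fn s A x + Fn t B y = 0) :
    cyc s x + cyc t y = cyc s (A - x) + cyc t (B - y) := by
  unfold Fn at h; omega

theorem Fn_zero {n d x : ℤ} (hn : 0 < n) (h : n ∣ d) : Fn n d x = 0 := by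
  unfold Fn
  rw [cyc_congr (u := d - x) (v := -x) (by
    have e : d - x - -x = d := by ring
    rw [e]; exact h), cyc_neg hn]
  ring

theorem lI {s t A1 A2 B1 B2 : ℤ} (hs : 3 ≤ s) (ht : 3 ≤ t) (h1 : s ∣ A1 + B1)
    (h2 : t ∣ A2 + B2) : Cf s t {(0, 0), (A1, A2), (B1, B2)} := by
  refine apex2 (by omega) (by omega) 1 0 0 1 ?_ ?_ ?_ ?_ ?_ ?_
  · apply hE_of
    rw [Fn_zero (by omega) h1, Fn_zero (by omega) h2]; rfl
  · rintro ⟨k, -⟩
    exact ndvd (m := 2) (by omega) (by omega : (2 : ℤ) < s) (by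
      have := dvd_sub h1 k
      exact dq this (by ring))
  · apply hE_of
    rw [Fn_zero (by omega) h1, Fn_zero (by omega) h2]; rfl
  · rintro ⟨-, k⟩
    exact ndvd (m := 2) (by omega) (by omega : (2 : ℤ) < t) (by
      have := dvd_sub h2 k
      exact dq this (by ring))
  · rintro ⟨k, -⟩
    exact ndvd (m := 1) (by omega) (by omega : (1 : ℤ) < s) (by simpa using k)
  · rintro ⟨k, -⟩
    exact ndvd (m := 1) (by omega) (by omega : (1 : ℤ) < s) (by
      have := dvd_sub h1 k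
      exact dq this (by ring))

theorem lII {s t A1 A2 B1 B2 y : ℤ} (hs : 5 ≤ s) (ht : 3 ≤ t) (h1 : s ∣ A1 + B1)
    (h2 : t ∣ A2 + B2 - 2 * y) : Cf s t {(0, 0), (A1, A2), (B1, B2)} := by
  refine apex2 (by omega) (by omega) 1 y 2 y ?_ ?_ ?_ ?_ ?_ ?_
  · apply hE_of
    rw [Fn_zero (by omega) h1, Fn_fixed h2]; rfl
  · rintro ⟨k, -⟩
    exact ndvd (m := 2) (by omega) (by omega : (2 : ℤ) < s) (by
      have := dvd_sub h1 k
      exact dq this (by ring))
  · apply hE_of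
    rw [Fn_zero (by omega) h1, Fn_fixed h2]; rfl
  · rintro ⟨k, -⟩
    exact ndvd (m := 4) (by omega) (by omega : (4 : ℤ) < s) (by
      have := dvd_sub h1 k
      exact dq this (by ring))
  · rintro ⟨k, -⟩
    exact ndvd (m := 1) (by omega) (by omega : (1 : ℤ) < s) (dn k (by ring))
  · rintro ⟨k, -⟩
    exact ndvd (m := 3) (by omega) (by omega : (3 : ℤ) < s) (by
      have := dvd_sub h1 k
      exact dq this (by ring))

theorem lII' {s t A1 A2 B1 B2 x : ℤ} (hs : 3 ≤ s) (ht : 5 ≤ t) (h1 : s ∣ A1 + B1 - 2 * x)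
    (h2 : t ∣ A2 + B2) : Cf s t {(0, 0), (A1, A2), (B1, B2)} := by
  refine apex2 (by omega) (by omega) x 1 x 2 ?_ ?_ ?_ ?_ ?_ ?_
  · apply hE_of
    rw [Fn_zero (by omega) h2, Fn_fixed h1]; rfl
  · rintro ⟨-, k⟩
    exact ndvd (m := 2) (by omega) (by omega : (2 : ℤ) < t) (by
      have := dvd_sub h2 k
      exact dq this (by ring))
  · apply hE_of
    rw [Fn_zero (by omega) h2, Fn_fixed h1]; rfl
  · rintro ⟨-, k⟩
    exact ndvd (m := 4) (by omega) (by omega : (4 : ℤ) < t) (by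
      have := dvd_sub h2 k
      exact dq this (by ring))
  · rintro ⟨-, k⟩
    exact ndvd (m := 1) (by omega) (by omega : (1 : ℤ) < t) (dn k (by ring))
  · rintro ⟨-, k⟩
    exact ndvd (m := 3) (by omega) (by omega : (3 : ℤ) < t) (by
      have := dvd_sub h2 k
      exact dq this (by ring))

theorem lIIb {s t A1 A2 B1 B2 y y' : ℤ} (hs : 3 ≤ s) (ht : 3 ≤ t) (h1 : s ∣ A1 + B1)
    (h2 : t ∣ A2 + B2 - 2 * y) (h3 : t ∣ A2 + B2 - 2 * y') (h4 : ¬ t ∣ y - y') :
    Cf s t {(0, 0), (A1, A2), (B1, B2)} := by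
  refine apex2 (by omega) (by omega) 1 y 1 y' ?_ ?_ ?_ ?_ ?_ ?_
  · apply hE_of
    rw [Fn_zero (by omega) h1, Fn_fixed h2]; rfl
  · rintro ⟨k, -⟩
    exact ndvd (m := 2) (by omega) (by omega : (2 : ℤ) < s) (by
      have := dvd_sub h1 k
      exact dq this (by ring))
  · apply hE_of
    rw [Fn_zero (by omega) h1, Fn_fixed h3]; rfl
  · rintro ⟨k, -⟩
    exact ndvd (m := 2) (by omega) (by omega : (2 : ℤ) < s) (by
      have := dvd_sub h1 k
      exact dq this (by ring))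
  · rintro ⟨-, k⟩
    exact h4 k
  · rintro ⟨k, -⟩
    exact ndvd (m := 2) (by omega) (by omega : (2 : ℤ) < s) (by
      have := dvd_sub h1 k
      exact dq this (by ring))

theorem lIIb' {s t A1 A2 B1 B2 x x' : ℤ} (hs : 3 ≤ s) (ht : 3 ≤ t) (h1 : t ∣ A2 + B2)
    (h2 : s ∣ A1 + B1 - 2 * x) (h3 : s ∣ A1 + B1 - 2 * x') (h4 : ¬ s ∣ x - x') :
    Cf s t {(0, 0), (A1, A2), (B1, B2)} := by
  refine apex2 (by omega) (by omega) x 1 x' 1 ?_ ?_ ?_ ?_ ?_ ?_
  · apply hE_of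
    rw [Fn_zero (by omega) h1, Fn_fixed h2]; rfl
  · rintro ⟨-, k⟩
    exact ndvd (m := 2) (by omega) (by omega : (2 : ℤ) < t) (by
      have := dvd_sub h1 k
      exact dq this (by ring))
  · apply hE_of
    rw [Fn_zero (by omega) h1, Fn_fixed h3]; rfl
  · rintro ⟨-, k⟩
    exact ndvd (m := 2) (by omega) (by omega : (2 : ℤ) < t) (by
      have := dvd_sub h1 k
      exact dq this (by ring))
  · rintro ⟨k, -⟩
    exact h4 k
  · rintro ⟨-, k⟩
    exact ndvd (m := 2) (by omega) (by omega : (2 : ℤ) < t) (by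
      have := dvd_sub h1 k
      exact dq this (by ring))

/-- parity argument -/
theorem lpar {s t g A1 A2 B1 B2 x : ℤ} (hs : 3 ≤ s) (ht : 3 ≤ t) (hg : t = 2 * g)
    (h1 : s ∣ A1 + B1 - 2 * x) (h2 : t ∣ A2 + B2) (hA : A2 % 2 = 0) (hB : B2 % 2 = 0) :
    Cf s t {(0, 0), (A1, A2), (B1, B2)} := by
  refine apex0 (by omega) (by omega) x 1 ?_ ?_ ?_ ?_
  · apply hE_of
    rw [Fn_zero (by omega) h2, Fn_fixed h1]; rfl
  · rintro ⟨-, k⟩
    exact ndvd (m := 2) (by omega) (by omega : (2 : ℤ) < t) (by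
      have := dvd_sub h2 k
      exact dq this (by ring))
  · rintro ⟨-, k, hk⟩
    rw [hg, mul_assoc] at hk
    omega
  · rintro ⟨-, k, hk⟩
    rw [hg, mul_assoc] at hk
    omega

/-- both odd, at least five: every apex works -/
theorem caseA {s t h g A1 A2 B1 B2 : ℤ} (hs : 5 ≤ s) (ht : 5 ≤ t) (hh : s = 2 * h + 1)
    (hg : t = 2 * g + 1) : Cf s t {(0, 0), (A1, A2), (B1, B2)} := by
  obtain ⟨xf, hxf⟩ := fix_odd hh (A1 + B1)
  obtain ⟨yf, hyf⟩ := fix_odd hg (A2 + B2)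
  by_cases h1 : s ∣ A1 + B1
  · exact lII hs (by omega) h1 hyf
  by_cases h2 : t ∣ A2 + B2
  · exact lII' (by omega) ht hxf h2
  obtain ⟨x, hx⟩ := odd_one hh (by omega) h1
  obtain ⟨y, hy⟩ := odd_one hg (by omega) h2
  by_cases h3 : cyc s (A1 + B1) = 1
  · obtain ⟨x1, x2, e1, e2, e3⟩ := one_one (by omega) h3
    exact apexG (by omega) (by omega) x1 (A2 + B2 - y) x2 (A2 + B2 - y) 1 1 e1
      (by rw [Fn_refl, hy]) e2 (by rw [Fn_refl, hy]) (by omega) (by omega) (by omega)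
      (Or.inr (Or.inl e3))
  by_cases h4 : cyc t (A2 + B2) = 1
  · obtain ⟨y1, y2, e1, e2, e3⟩ := one_one (by omega) h4
    exact apexG (by omega) (by omega) (A1 + B1 - x) y1 (A1 + B1 - x) y2 (-1) (-1)
      (by rw [Fn_refl, hx]) (by rw [e1]; rfl) (by rw [Fn_refl, hx]) (by rw [e2]; rfl)
      (by omega) (by omega) (by omega)
      (Or.inr (Or.inr e3))
  have n1 := cyc_nonneg (n := s) (u := A1 + B1) (by omega)
  have n2 := cyc_nonneg (n := t) (u := A2 + B2) (by omega)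
  have z1 : cyc s (A1 + B1) ≠ 0 := fun h => h1 (cyc_eq_zero h)
  have z2 : cyc t (A2 + B2) ≠ 0 := fun h => h2 (cyc_eq_zero h)
  obtain ⟨x2, hx2⟩ := odd_two hh (by omega : 2 ≤ cyc s (A1 + B1)) (by omega)
  obtain ⟨y2, hy2⟩ := odd_two hg (by omega : 2 ≤ cyc t (A2 + B2)) (by omega)
  exact apexG (by omega) (by omega) x (A2 + B2 - y) x2 (A2 + B2 - y2) 1 2 hx
      (by rw [Fn_refl, hy]) hx2 (by rw [Fn_refl, hy2]) (by omega) (by omega) (by omega)
      (Or.inl (by omega))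

/-- both even, apex with the right parity -/
theorem caseB {s t h g A1 A2 B1 B2 : ℤ} (hs : 4 ≤ s) (ht : 4 ≤ t) (hh : s = 2 * h)
    (hg : t = 2 * g) (h6 : 6 ≤ s ∨ 6 ≤ t) (hp : (A1 + B1 - (A2 + B2)) % 2 = 0) :
    Cf s t {(0, 0), (A1, A2), (B1, B2)} := by
  rcases (by omega : ((A1 + B1) % 2 = 1 ∧ (A2 + B2) % 2 = 1) ∨
    ((A1 + B1) % 2 = 0 ∧ (A2 + B2) % 2 = 0)) with ⟨h1, h2⟩ | ⟨h1, h2⟩
  · obtain ⟨x1, x2, e1, e2, e3⟩ := even_one hh (by omega) h1
    obtain ⟨y1, y2, f1, f2, f3⟩ := even_one hg (by omega) h2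
    exact apexG (by omega) (by omega) x1 (A2 + B2 - y1) x2 (A2 + B2 - y1) 1 1 e1
      (by rw [Fn_refl, f1]) e2 (by rw [Fn_refl, f1]) (by omega) (by omega) (by omega)
      (Or.inr (Or.inl e3))
  · by_cases h3 : s ∣ A1 + B1
    · obtain ⟨y, y', k1, k2, k3⟩ := fix_even hg (by omega) h2
      exact lIIb (by omega) (by omega) h3 k1 k2 k3
    by_cases h4 : t ∣ A2 + B2
    · obtain ⟨x, x', k1, k2, k3⟩ := fix_even hh (by omega) h1
      exact lIIb' (by omega) (by omega) h4 k1 k2 k3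
    obtain ⟨x1, x2, e1, e2, e3⟩ := even_two hh (by omega) h1 h3
    obtain ⟨y1, y2, f1, f2, f3⟩ := even_two hg (by omega) h2 h4
    rcases h6 with h6 | h6
    · exact apexG (by omega) (by omega) x1 (A2 + B2 - y1) x2 (A2 + B2 - y1) 2 2 e1
        (by rw [Fn_refl, f1]) e2 (by rw [Fn_refl, f1]) (by omega) (by omega) (by omega)
        (Or.inr (Or.inl (e3 (by omega))))
    · exact apexG (by omega) (by omega) (A1 + B1 - x1) y1 (A1 + B1 - x1) y2 (-2) (-2)
        (by rw [Fn_refl, e1]) (by rw [f1]; rfl) (by rw [Fn_refl, e1]) (by rw [f2]; rfl)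
        (by omega) (by omega) (by omega)
        (Or.inr (Or.inr (f3 (by omega))))

/-- `s` odd, `t` even, `δ₂` odd, `δ₁ ≢ 0` -/
theorem caseC1 {s t h g A1 A2 B1 B2 : ℤ} (hs : 3 ≤ s) (ht : 4 ≤ t) (hh : s = 2 * h + 1)
    (hg : t = 2 * g) (h1 : ¬ s ∣ A1 + B1) (h2 : (A2 + B2) % 2 = 1) :
    Cf s t {(0, 0), (A1, A2), (B1, B2)} := by
  obtain ⟨x, hx⟩ := odd_one hh (by omega) h1
  obtain ⟨y1, y2, f1, f2, f3⟩ := even_one hg (by omega) h2
  exact apexG (by omega) (by omega) (A1 + B1 - x) y1 (A1 + B1 - x) y2 (-1) (-1)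
    (by rw [Fn_refl, hx]) (by rw [f1]; rfl) (by rw [Fn_refl, hx]) (by rw [f2]; rfl)
    (by omega) (by omega) (by omega)
    (Or.inr (Or.inr f3))

/-- `t` even, `δ₂` even, `δ₁ ≡ 0` -/
theorem caseC0 {s t g A1 A2 B1 B2 : ℤ} (hs : 3 ≤ s) (ht : 4 ≤ t)
    (hg : t = 2 * g) (h1 : s ∣ A1 + B1) (h2 : (A2 + B2) % 2 = 0) :
    Cf s t {(0, 0), (A1, A2), (B1, B2)} := by
  obtain ⟨y, y', k1, k2, k3⟩ := fix_even hg (by omega) h2
  exact lIIb hs (by omega) h1 k1 k2 k3

/-- `s` odd, `t ≥ 6` even, everything even in the second coordinate, `|δ₁| ≠ 1` -/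
theorem caseC2 {s t h g A1 A2 B1 B2 : ℤ} (hs : 3 ≤ s) (ht : 6 ≤ t) (hh : s = 2 * h + 1)
    (hg : t = 2 * g) (h1 : cyc s (A1 + B1) ≠ 1) (hA : A2 % 2 = 0) (hB : B2 % 2 = 0) :
    Cf s t {(0, 0), (A1, A2), (B1, B2)} := by
  by_cases h3 : s ∣ A1 + B1
  · exact caseC0 hs (by omega) hg h3 (by omega)
  obtain ⟨xf, hxf⟩ := fix_odd hh (A1 + B1)
  by_cases h4 : t ∣ A2 + B2
  · exact lpar hs (by omega) hg hxf h4 hA hB
  have n1 := cyc_nonneg (n := s) (u := A1 + B1) (by omega)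
  have z1 : cyc s (A1 + B1) ≠ 0 := fun h => h3 (cyc_eq_zero h)
  obtain ⟨x, hx⟩ := odd_two hh (by omega : 2 ≤ cyc s (A1 + B1)) (by omega)
  obtain ⟨y1, y2, f1, f2, f3⟩ := even_two hg (by omega) (by omega) h4
  exact apexG (by omega) (by omega) (A1 + B1 - x) y1 (A1 + B1 - x) y2 (-2) (-2)
    (by rw [Fn_refl, hx]) (by rw [f1]; rfl) (by rw [Fn_refl, hx]) (by rw [f2]; rfl)
    (by omega) (by omega) (by omega)
    (Or.inr (Or.inr (f3 (by omega))))

/-- `s = 3`, the first coordinates of the two base points agree and differ from the apex -/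
theorem caseD2 {t g A1 A2 B1 B2 : ℤ} (ht : 5 ≤ t) (hg : t = 2 * g + 1)
    (h1 : (3 : ℤ) ∣ A1 - B1) (h2 : ¬ (3 : ℤ) ∣ A1) :
    Cf 3 t {(0, 0), (A1, A2), (B1, B2)} := by
  have hh : (3 : ℤ) = 2 * 1 + 1 := by norm_num
  obtain ⟨xf, hxf⟩ := fix_odd hh (A1 + B1)
  by_cases h4 : t ∣ A2 + B2
  · exact lII' (by omega) ht hxf h4
  obtain ⟨y, hy⟩ := odd_one hg (by omega) h4
  have f0 : Fn 3 (A1 + B1) 0 = -1 := by
    unfold Fn
    rw [cyc_zero (by omega), sub_zero]
    have h3 : ¬ (3 : ℤ) ∣ A1 + B1 := by omega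
    have n1 := cyc_nonneg (n := 3) (u := A1 + B1) (by omega)
    have n2 := two_cyc_le (n := 3) (u := A1 + B1) (by omega)
    have z1 : cyc 3 (A1 + B1) ≠ 0 := fun h => h3 (cyc_eq_zero h)
    omega
  refine apex0 (by omega) (by omega) 0 y ?_ ?_ ?_ ?_
  · apply hE_of
    rw [f0, hy]; rfl
  · rintro ⟨-, k⟩
    have := Fn_fixed k
    omega
  · rintro ⟨k, -⟩
    omega
  · rintro ⟨k, -⟩
    omega

/-! ### triples -/

theorem to_apex {s t : ℤ} (hs : 0 < s) (ht : 0 < t) (p q r : ℤ × ℤ)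
    (H : Cf s t {(0, 0), (p.1 - r.1, p.2 - r.2), (q.1 - r.1, q.2 - r.2)}) :
    Cf s t {p, q, r} := by
  have := Cf_iso hs ht 1 1 (-r.1) (-r.2) (Or.inl rfl) (Or.inl rfl) ({r, p, q} : Multiset (ℤ × ℤ))
    id (fun a => (a.1 - r.1, a.2 - r.2)) (by
      intro a
      refine ⟨⟨0, ?_⟩, ⟨0, ?_⟩⟩ <;> simp only [id] <;> ring) (by
      simp only [Multiset.insert_eq_cons, Multiset.map_cons, Multiset.map_singleton, sub_self]
      exact H)
  rw [Multiset.map_id] at this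
  have e : ({p, q, r} : Multiset (ℤ × ℤ)) = {r, p, q} := by
    simp only [Multiset.insert_eq_cons]
    rw [← Multiset.singleton_add p, ← Multiset.singleton_add q]
    rw [← Multiset.singleton_add r, ← Multiset.singleton_add p]
    abel
  rw [e]; exact this

theorem rot {α : Type*} (p q r : α) : ({p, q, r} : Multiset α) = {q, r, p} := by
  simp only [Multiset.insert_eq_cons]
  rw [← Multiset.singleton_add p, ← Multiset.singleton_add q, ← Multiset.singleton_add q,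
    ← Multiset.singleton_add r]
  abel

/-- both odd, at least five -/
theorem tripA {s t h g : ℤ} (hs : 5 ≤ s) (ht : 5 ≤ t) (hh : s = 2 * h + 1)
    (hg : t = 2 * g + 1) (p q r : ℤ × ℤ) : Cf s t {p, q, r} :=
  to_apex (by omega) (by omega) p q r (caseA hs ht hh hg)

/-- both even -/
theorem tripB {s t h g : ℤ} (hs : 4 ≤ s) (ht : 4 ≤ t) (hh : s = 2 * h)
    (hg : t = 2 * g) (h6 : 6 ≤ s ∨ 6 ≤ t) (p q r : ℤ × ℤ) : Cf s t {p, q, r} := by
  rcases (by omega : (p.1 + q.1 - (p.2 + q.2)) % 2 = 0 ∨ (q.1 + r.1 - (q.2 + r.2)) % 2 = 0 ∨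
    (r.1 + p.1 - (r.2 + p.2)) % 2 = 0) with h1 | h1 | h1
  · exact to_apex (by omega) (by omega) p q r (caseB hs ht hh hg h6 (by omega))
  · rw [rot]
    exact to_apex (by omega) (by omega) q r p (caseB hs ht hh hg h6 (by omega))
  · rw [rot, rot]
    exact to_apex (by omega) (by omega) r p q (caseB hs ht hh hg h6 (by omega))

/-- second coordinates of different parities: two equal ones first -/
theorem tripC1 {s t h g : ℤ} (hs : 3 ≤ s) (ht : 4 ≤ t) (hh : s = 2 * h + 1)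
    (hg : t = 2 * g) (p q r : ℤ × ℤ) (h1 : (p.2 - q.2) % 2 = 0) (h2 : (p.2 - r.2) % 2 = 1) :
    Cf s t {p, q, r} := by
  by_cases k1 : s ∣ (q.1 - p.1) + (r.1 - p.1)
  · by_cases k2 : s ∣ (r.1 - q.1) + (p.1 - q.1)
    · refine to_apex (by omega) (by omega) p q r (caseC0 hs ht hg ?_ (by omega))
      have := (dvd_neg).2 (dvd_add k1 k2)
      exact dq this (by ring)
    · rw [rot, rot]
      exact to_apex (by omega) (by omega) r p q (caseC1 hs ht hh hg k2 (by omega))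
  · rw [rot]
    exact to_apex (by omega) (by omega) q r p (caseC1 hs ht hh hg k1 (by omega))

theorem cyc_one_dvd {n u : ℤ} (h : cyc n u = 1) : n ∣ u - 1 ∨ n ∣ u + 1 := by
  rcases cyc_dvd (n := n) (u := u) with k | k
  · left; rw [h] at k; exact k
  · right; rw [h] at k; exact k

theorem tripC2 {s t h g : ℤ} (hs : 5 ≤ s) (ht : 4 ≤ t) (hh : s = 2 * h + 1)
    (hg : t = 2 * g) (p q r : ℤ × ℤ) (h1 : (p.2 - q.2) % 2 = 0) (h2 : (p.2 - r.2) % 2 = 0) :
    Cf s t {p, q, r} := by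
  by_cases t4 : t = 4
  · subst t4
    have aux : ∀ p q r : ℤ × ℤ, (p.2 - q.2) % 4 = 0 → (p.2 - r.2) % 2 = 0 →
        Cf s 4 {p, q, r} := by
      intro p q r k1 k2
      obtain ⟨xf, hxf⟩ := fix_odd hh ((p.1 - r.1) + (q.1 - r.1))
      exact to_apex (by omega) (by omega) p q r
        (lpar (by omega) (by omega) hg hxf (by omega) (by omega) (by omega))
    rcases (by omega : (p.2 - q.2) % 4 = 0 ∨ (q.2 - r.2) % 4 = 0 ∨ (r.2 - p.2) % 4 = 0) with
      k | k | k
    · exact aux p q r k h2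
    · rw [rot]; exact aux q r p k (by omega)
    · rw [rot, rot]; exact aux r p q k (by omega)
  · by_cases k1 : cyc s ((p.1 - r.1) + (q.1 - r.1)) = 1
    · by_cases k2 : cyc s ((q.1 - p.1) + (r.1 - p.1)) = 1
      · by_cases k3 : cyc s ((r.1 - q.1) + (p.1 - q.1)) = 1
        · exfalso
          have aux : ∀ e : ℤ, (e = 1 ∨ e = 3) → (s ∣ e ∨ s ∣ -e) → False := by
            intro e he hd
            rcases hd with hd | hd
            · rcases he with rfl | rfl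
              · exact ndvd (by omega) (by omega : (1 : ℤ) < s) hd
              · exact ndvd (by omega) (by omega : (3 : ℤ) < s) hd
            · have hd' := (dvd_neg).1 hd
              rcases he with rfl | rfl
              · exact ndvd (by omega) (by omega : (1 : ℤ) < s) hd'
              · exact ndvd (by omega) (by omega : (3 : ℤ) < s) hd'
          rcases cyc_one_dvd k1 with m1 | m1 <;> rcases cyc_one_dvd k2 with m2 | m2 <;>
            rcases cyc_one_dvd k3 with m3 | m3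
          · exact aux 3 (Or.inr rfl) (Or.inr (by
              have := dvd_add (dvd_add m1 m2) m3; exact dq this (by ring)))
          · exact aux 1 (Or.inl rfl) (Or.inr (by
              have := dvd_add (dvd_add m1 m2) m3; exact dq this (by ring)))
          · exact aux 1 (Or.inl rfl) (Or.inr (by
              have := dvd_add (dvd_add m1 m2) m3; exact dq this (by ring)))
          · exact aux 1 (Or.inl rfl) (Or.inl (by
              have := dvd_add (dvd_add m1 m2) m3; exact dq this (by ring)))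
          · exact aux 1 (Or.inl rfl) (Or.inr (by
              have := dvd_add (dvd_add m1 m2) m3; exact dq this (by ring)))
          · exact aux 1 (Or.inl rfl) (Or.inl (by
              have := dvd_add (dvd_add m1 m2) m3; exact dq this (by ring)))
          · exact aux 1 (Or.inl rfl) (Or.inl (by
              have := dvd_add (dvd_add m1 m2) m3; exact dq this (by ring)))
          · exact aux 3 (Or.inr rfl) (Or.inl (by
              have := dvd_add (dvd_add m1 m2) m3; exact dq this (by ring)))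
        · rw [rot, rot]
          exact to_apex (by omega) (by omega) r p q
            (caseC2 (by omega) (by omega) hh hg k3 (by omega) (by omega))
      · rw [rot]
        exact to_apex (by omega) (by omega) q r p
          (caseC2 (by omega) (by omega) hh hg k2 (by omega) (by omega))
    · exact to_apex (by omega) (by omega) p q r
        (caseC2 (by omega) (by omega) hh hg k1 (by omega) (by omega))

theorem tripC {s t h g : ℤ} (hs : 5 ≤ s) (ht : 4 ≤ t) (hh : s = 2 * h + 1)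
    (hg : t = 2 * g) (p q r : ℤ × ℤ) : Cf s t {p, q, r} := by
  rcases (by omega : ((p.2 - q.2) % 2 = 0 ∧ (p.2 - r.2) % 2 = 0) ∨
    ((p.2 - q.2) % 2 = 0 ∧ (p.2 - r.2) % 2 = 1) ∨ ((q.2 - r.2) % 2 = 0 ∧ (q.2 - p.2) % 2 = 1) ∨
    ((r.2 - p.2) % 2 = 0 ∧ (r.2 - q.2) % 2 = 1)) with ⟨a, b⟩ | ⟨a, b⟩ | ⟨a, b⟩ | ⟨a, b⟩
  · exact tripC2 hs ht hh hg p q r a b
  · exact tripC1 (by omega) ht hh hg p q r a b
  · rw [rot]; exact tripC1 (by omega) ht hh hg q r p a b
  · rw [rot, rot]; exact tripC1 (by omega) ht hh hg r p q a b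

/-- `s = 3`, the sum of the first coordinates is zero -/
theorem caseD1 {t A1 A2 B1 B2 y : ℤ} (ht : 5 ≤ t)
    (h1 : (3 : ℤ) ∣ A1 + B1) (h2 : t ∣ A2 + B2 - 2 * y) (h3 : ¬ t ∣ A2 - B2) :
    Cf 3 t {(0, 0), (A1, A2), (B1, B2)} := by
  refine apex0 (by omega) (by omega) 1 y ?_ ?_ ?_ ?_
  · apply hE_of
    rw [Fn_zero (by omega) h1, Fn_fixed h2]; rfl
  · rintro ⟨k, -⟩
    omega
  · rintro ⟨-, k⟩
    apply h3
    have := dvd_add h2 (Dvd.dvd.mul_left k 2)
    have e : A2 - B2 = -((A2 + B2 - 2 * y) + 2 * (y - A2)) := by ring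
    rw [e]; exact (dvd_neg).2 this
  · rintro ⟨-, k⟩
    apply h3
    have := dvd_add h2 (Dvd.dvd.mul_left k 2)
    have e : A2 - B2 = ((A2 + B2 - 2 * y) + 2 * (y - B2)) := by ring
    rw [e]; exact this

theorem tripD {t g : ℤ} (ht : 5 ≤ t) (hg : t = 2 * g + 1) (p q r : ℤ × ℤ) :
    Cf 3 t {p, q, r} := by
  by_cases h : (3 : ℤ) ∣ p.1 + q.1 + r.1
  · by_cases h1 : t ∣ p.2 - q.2
    · by_cases h2 : t ∣ q.2 - r.2
      · refine to_apex (by omega) (by omega) p q r (lI (by omega) (by omega) (by omega) ?_)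
        have e : p.2 - r.2 + (q.2 - r.2) = (p.2 - q.2) + 2 * (q.2 - r.2) := by ring
        rw [e]; exact dvd_add h1 (Dvd.dvd.mul_left h2 2)
      · obtain ⟨yf, hyf⟩ := fix_odd hg ((q.2 - p.2) + (r.2 - p.2))
        rw [rot]
        refine to_apex (by omega) (by omega) q r p (caseD1 ht (by omega) hyf ?_)
        intro k; apply h2
        exact dq k (by ring)
    · obtain ⟨yf, hyf⟩ := fix_odd hg ((p.2 - r.2) + (q.2 - r.2))
      refine to_apex (by omega) (by omega) p q r (caseD1 ht (by omega) hyf ?_)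
      intro k; apply h1
      exact dq k (by ring)
  · have : ((3 : ℤ) ∣ p.1 - q.1 ∧ ¬ (3 : ℤ) ∣ p.1 - r.1) ∨
      ((3 : ℤ) ∣ q.1 - r.1 ∧ ¬ (3 : ℤ) ∣ q.1 - p.1) ∨
      ((3 : ℤ) ∣ r.1 - p.1 ∧ ¬ (3 : ℤ) ∣ r.1 - q.1) := by
        have a1 : p.1 % 3 = 0 ∨ p.1 % 3 = 1 ∨ p.1 % 3 = 2 := by omega
        have a2 : q.1 % 3 = 0 ∨ q.1 % 3 = 1 ∨ q.1 % 3 = 2 := by omega
        have a3 : r.1 % 3 = 0 ∨ r.1 % 3 = 1 ∨ r.1 % 3 = 2 := by omega
        rcases a1 with a1 | a1 | a1 <;> rcases a2 with a2 | a2 | a2 <;>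
          rcases a3 with a3 | a3 | a3 <;> omega
    rcases this with ⟨a, b⟩ | ⟨a, b⟩ | ⟨a, b⟩
    · exact to_apex (by omega) (by omega) p q r (caseD2 ht hg (by omega) b)
    · rw [rot]
      exact to_apex (by omega) (by omega) q r p (caseD2 ht hg (by omega) b)
    · rw [rot, rot]
      exact to_apex (by omega) (by omega) r p q (caseD2 ht hg (by omega) b)

theorem trip_swap {s t : ℤ} (p q r : ℤ × ℤ) (H : Cf t s {p.swap, q.swap, r.swap}) :
    Cf s t {p, q, r} := by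
  apply Cf_swap
  simpa only [Multiset.insert_eq_cons, Multiset.map_cons, Multiset.map_singleton] using H

/-- no three vertices resolve the torus, outside the listed exceptions -/
theorem no_three {s t : ℤ} (hs : 3 ≤ s) (ht : 3 ≤ t)
    (h1 : ¬ (s = 3 ∧ t % 2 = 0)) (h2 : ¬ (t = 3 ∧ s % 2 = 0)) (h3 : ¬ (s = 3 ∧ t = 3))
    (h4 : ¬ (s = 4 ∧ t = 4)) (p q r : ℤ × ℤ) : Cf s t {p, q, r} := by
  rcases (by omega : s % 2 = 0 ∨ s % 2 = 1) with es | es <;>
    rcases (by omega : t % 2 = 0 ∨ t % 2 = 1) with et | et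
  · exact tripB (h := s / 2) (g := t / 2) (by omega) (by omega) (by omega) (by omega)
      (by omega) p q r
  · exact trip_swap p q r (tripC (h := t / 2) (g := s / 2) (by omega) (by omega) (by omega)
      (by omega) _ _ _)
  · exact tripC (h := s / 2) (g := t / 2) (by omega) (by omega) (by omega)
      (by omega) _ _ _
  · by_cases k1 : s = 3
    · subst k1
      exact tripD (g := t / 2) (by omega) (by omega) p q r
    by_cases k2 : t = 3
    · subst k2
      exact trip_swap p q r (tripD (g := s / 2) (by omega) (by omega) _ _ _)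
    exact tripA (h := s / 2) (g := t / 2) (by omega) (by omega) (by omega) (by omega) p q r

/-- no two vertices resolve the torus -/
theorem pair0 {s t A1 A2 : ℤ} (hs : 3 ≤ s) (ht : 3 ≤ t) : Cf s t {(0, 0), (A1, A2)} := by
  have main : ∀ x y : ℤ, ¬ (s ∣ x ∧ t ∣ y) → ¬ (s ∣ x - A1 ∧ t ∣ y - A2) →
      ¬ (s ∣ 2 * x - A1 ∧ t ∣ 2 * y - A2) → Cf s t {(0, 0), (A1, A2)} := by
    intro x y h1 h2 h3
    refine ⟨(x, y), (A1 - x, A2 - y), ?_, ?_, ?_, ?_⟩
    · rintro ⟨k1, k2⟩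
      exact h3 ⟨dq k1 (by ring), dq k2 (by ring)⟩
    · intro a ha
      simp only [Multiset.insert_eq_cons, Multiset.mem_cons, Multiset.mem_singleton] at ha
      rcases ha with rfl | rfl
      · rintro ⟨k1, k2⟩
        exact h1 ⟨dq k1 (by ring), dq k2 (by ring)⟩
      · exact h2
    · intro a ha
      simp only [Multiset.insert_eq_cons, Multiset.mem_cons, Multiset.mem_singleton] at ha
      rcases ha with rfl | rfl
      · rintro ⟨k1, k2⟩
        exact h2 ⟨dn k1 (by ring), dn k2 (by ring)⟩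
      · rintro ⟨k1, k2⟩
        exact h1 ⟨dn k1 (by ring), dn k2 (by ring)⟩
    · simp only [code, dt, Multiset.insert_eq_cons, Multiset.map_cons, Multiset.map_singleton,
        sub_zero]
      have e1 : cyc s (A1 - x - A1) = cyc s x := by
        rw [← cyc_neg (by omega : 0 < s)]; congr 1; ring
      have e2 : cyc t (A2 - y - A2) = cyc t y := by
        rw [← cyc_neg (by omega : 0 < t)]; congr 1; ring
      have e3 : cyc s (A1 - x) = cyc s (x - A1) := by
        rw [← cyc_neg (by omega : 0 < s)]; congr 1; ring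
      have e4 : cyc t (A2 - y) = cyc t (y - A2) := by
        rw [← cyc_neg (by omega : 0 < t)]; congr 1; ring
      rw [e1, e2, e3, e4]
      exact Multiset.cons_swap _ _ 0
  by_cases c1 : s ∣ 1 - A1 ∧ t ∣ 0 - A2
  · refine main 0 1 ?_ ?_ ?_
    · rintro ⟨-, k⟩
      exact ndvd (by omega) (by omega : (1 : ℤ) < t) k
    · rintro ⟨k, -⟩
      exact ndvd (by omega) (by omega : (1 : ℤ) < s) (dq (dvd_sub c1.1 k) (by ring))
    · rintro ⟨k, -⟩
      exact ndvd (by omega) (by omega : (1 : ℤ) < s) (dq (dvd_sub c1.1 k) (by ring))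
  by_cases c2 : s ∣ 2 * 1 - A1 ∧ t ∣ 2 * 0 - A2
  · refine main 0 1 ?_ ?_ ?_
    · rintro ⟨-, k⟩
      exact ndvd (by omega) (by omega : (1 : ℤ) < t) k
    · rintro ⟨k, -⟩
      exact ndvd (m := 2) (by omega) (by omega : (2 : ℤ) < s) (dq (dvd_sub c2.1 k) (by ring))
    · rintro ⟨k, -⟩
      exact ndvd (m := 2) (by omega) (by omega : (2 : ℤ) < s) (dq (dvd_sub c2.1 k) (by ring))
  · refine main 1 0 ?_ c1 c2
    rintro ⟨k, -⟩
    exact ndvd (by omega) (by omega : (1 : ℤ) < s) k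

theorem no_two {s t : ℤ} (hs : 3 ≤ s) (ht : 3 ≤ t) (p q : ℤ × ℤ) : Cf s t {p, q} := by
  have := Cf_iso (by omega : 0 < s) (by omega : 0 < t) 1 1 (-p.1) (-p.2) (Or.inl rfl) (Or.inl rfl)
    ({p, q} : Multiset (ℤ × ℤ)) id (fun a => (a.1 - p.1, a.2 - p.2)) (by
      intro a
      refine ⟨⟨0, ?_⟩, ⟨0, ?_⟩⟩ <;> simp only [id] <;> ring) (by
      simp only [Multiset.insert_eq_cons, Multiset.map_cons, Multiset.map_singleton, sub_self]
      exact pair0 hs ht)
  rw [Multiset.map_id] at this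
  exact this

theorem no_one {s t : ℤ} (hs : 3 ≤ s) (ht : 3 ≤ t) (p : ℤ × ℤ) : Cf s t {p} := by
  refine ⟨(p.1 + 1, p.2), (p.1, p.2 + 1), ?_, ?_, ?_, ?_⟩
  · rintro ⟨k, -⟩
    exact ndvd (by omega) (by omega : (1 : ℤ) < s) (dq k (by ring))
  · intro a ha
    rw [Multiset.mem_singleton] at ha
    subst ha
    rintro ⟨k, -⟩
    exact ndvd (by omega) (by omega : (1 : ℤ) < s) (dq k (by ring))
  · intro a ha
    rw [Multiset.mem_singleton] at ha
    subst ha
    rintro ⟨-, k⟩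
    exact ndvd (by omega) (by omega : (1 : ℤ) < t) (dq k (by ring))
  · simp only [code, dt, Multiset.map_singleton]
    congr 1
    have e1 : cyc s (p.1 + 1 - p.1) = 1 := cyc_p (by omega) (by omega) (by omega) (by ring)
    have e2 : cyc t (p.2 - p.2) = 0 := cyc_p (by omega) (by omega) (by omega) (by ring)
    have e3 : cyc s (p.1 - p.1) = 0 := cyc_p (by omega) (by omega) (by omega) (by ring)
    have e4 : cyc t (p.2 + 1 - p.2) = 1 := cyc_p (by omega) (by omega) (by omega) (by ring)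
    rw [e1, e2, e3, e4]; rfl

theorem no_zero {s t : ℤ} (hs : 3 ≤ s) : Cf s t 0 := by
  refine ⟨(0, 0), (1, 0), ?_, ?_, ?_, ?_⟩
  · rintro ⟨k, -⟩
    exact ndvd (by omega) (by omega : (1 : ℤ) < s) (dn k (by ring))
  · intro a ha; simp at ha
  · intro a ha; simp at ha
  · simp [code]

end Pool.Agent.H74.TO
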