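import Pool.Agent.H74.TO.ChkRow
import Pool.Agent.H74.TO.NoThree

namespace Pool.Agent.H74.TO

open Pool.Agent.H74.MD

/-- reduction modulo `n` -/
def rz (n : ℕ) (x : ℤ) : ℕ := (x % n).toNat

theorem rz_cast {n : ℕ} (hn : 0 < n) (x : ℤ) : ((rz n x : ℕ) : ℤ) = x % n := by
  unfold rz
  exact Int.toNat_of_nonneg (Int.emod_nonneg x (by omega))

theorem rz_lt {n : ℕ} (hn : 0 < n) (x : ℤ) : rz n x < n := by
  have h := rz_cast hn x
  have := Int.emod_lt_of_pos x (by exact_mod_cast hn : (0 : ℤ) < n)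
  omega

theorem rz_dvd {n : ℕ} (hn : 0 < n) (x : ℤ) : (n : ℤ) ∣ x - (rz n x : ℕ) := by
  rw [rz_cast hn]
  exact Int.dvd_self_sub_of_emod_eq rfl

theorem eq_of_dvd_lt {n x y : ℕ} (hx : x < n) (hy : y < n) (hd : (n : ℤ) ∣ (x : ℤ) - y) :
    x = y := by
  obtain ⟨k, hk⟩ := hd
  rcases lt_trichotomy k 0 with hk0 | hk0 | hk0
  · have : (n : ℤ) * k ≤ (n : ℤ) * (-1) := mul_le_mul_of_nonneg_left (by omega) (by omega)
    omega
  · subst hk0; omega
  · have : (n : ℤ) * 1 ≤ (n : ℤ) * k := mul_le_mul_of_nonneg_left (by omega) (by omega)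
    omega

theorem rz_unique {n : ℕ} (hn : 0 < n) {x : ℤ} {y : ℕ} (hy : y < n) (hd : (n : ℤ) ∣ x - y) :
    y = rz n x := by
  apply eq_of_dvd_lt hy (rz_lt hn x)
  have := dvd_sub (rz_dvd hn x) hd
  exact dq this (by ring)

/-- index of a point -/
def ix (s t : ℕ) (x : ℤ × ℤ) : ℕ := rz s x.1 * (2 * t) + rz t x.2

variable {s t : ℕ}

theorem inW_ix (hs : 0 < s) (ht : 0 < t) (x : ℤ × ℤ) : inW s t (ix s t x) :=
  inW_idx (rz_lt hs _) (rz_lt ht _)

theorem ix_split (ht : 0 < t) (x : ℤ × ℤ) :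
    ix s t x / (2 * t) = rz s x.1 ∧ ix s t x % (2 * t) = rz t x.2 :=
  idx_split (by have := rz_lt ht x.2; omega)

theorem ofD_ix (hs : 0 < s) (ht : 0 < t) (x : ℤ × ℤ) : Eqv s t x (ofD t (ix s t x)) := by
  obtain ⟨h1, h2⟩ := ix_split (s := s) ht x
  unfold ofD Eqv
  simp only
  rw [h1, h2]
  exact ⟨rz_dvd hs _, rz_dvd ht _⟩

/-- the key -/
def ky (s t u v : ℤ) : ℤ := 64 * cyc s u + cyc t v

theorem keyN_cast (hs : 0 < s) (ht : 0 < t) (x y : ℕ) : (keyN s t x y : ℤ) = ky s t x y := by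
  unfold keyN ky
  change (((cc s x * 64 + cc t y : ℕ)) : ℤ) = _
  rw [Nat.cast_add, Nat.cast_mul, cc_cast hs, cc_cast ht]
  push_cast; ring

theorem ky_congr {s t u v u' v' : ℤ} (h1 : s ∣ u - u') (h2 : t ∣ v - v') :
    ky s t u v = ky s t u' v' := by
  unfold ky
  rw [cyc_congr h1, cyc_congr h2]

theorem ky_sign {s t u v e1 e2 : ℤ} (hs : 0 < s) (ht : 0 < t) (he1 : e1 = 1 ∨ e1 = -1)
    (he2 : e2 = 1 ∨ e2 = -1) : ky s t (e1 * u) (e2 * v) = ky s t u v := by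
  unfold ky
  rw [cyc_sign hs he1, cyc_sign ht he2]

theorem ky_neg {s t u v : ℤ} (hs : 0 < s) (ht : 0 < t) : ky s t (-u) (-v) = ky s t u v := by
  unfold ky
  rw [cyc_neg hs, cyc_neg ht]

/-- transport for four points -/
theorem Cf4_iso {s t : ℤ} (hs : 0 < s) (ht : 0 < t) (e1 e2 c1 c2 : ℤ)
    (he1 : e1 = 1 ∨ e1 = -1) (he2 : e2 = 1 ∨ e2 = -1) {x0 x1 x2 x3 y0 y1 y2 y3 : ℤ × ℤ}
    (h0 : s ∣ e1 * x0.1 + c1 - y0.1 ∧ t ∣ e2 * x0.2 + c2 - y0.2)
    (h1 : s ∣ e1 * x1.1 + c1 - y1.1 ∧ t ∣ e2 * x1.2 + c2 - y1.2)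
    (h2 : s ∣ e1 * x2.1 + c1 - y2.1 ∧ t ∣ e2 * x2.2 + c2 - y2.2)
    (h3 : s ∣ e1 * x3.1 + c1 - y3.1 ∧ t ∣ e2 * x3.2 + c2 - y3.2)
    (H : Cf s t {y0, y1, y2, y3}) : Cf s t {x0, x1, x2, x3} := by
  have := Cf_iso hs ht e1 e2 c1 c2 he1 he2
    ({(x0, y0), (x1, y1), (x2, y2), (x3, y3)} : Multiset ((ℤ × ℤ) × (ℤ × ℤ)))
    (fun a => if s ∣ e1 * a.1.1 + c1 - a.2.1 ∧ t ∣ e2 * a.1.2 + c2 - a.2.2 then a.1 else (0, 0))
    (fun a => if s ∣ e1 * a.1.1 + c1 - a.2.1 ∧ t ∣ e2 * a.1.2 + c2 - a.2.2 then a.2 else (c1, c2))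
    (by
      intro a
      by_cases h : s ∣ e1 * a.1.1 + c1 - a.2.1 ∧ t ∣ e2 * a.1.2 + c2 - a.2.2
      · rw [if_pos h, if_pos h]; exact h
      · rw [if_neg h, if_neg h]; simp) (by
      simp only [Multiset.insert_eq_cons, Multiset.map_cons, Multiset.map_singleton, if_pos h0,
        if_pos h1, if_pos h2, if_pos h3]
      exact H)
  simp only [Multiset.insert_eq_cons, Multiset.map_cons, Multiset.map_singleton, if_pos h0,
        if_pos h1, if_pos h2, if_pos h3] at this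
  exact this

theorem cond_true {b : Bool} : (!b) = true ↔ b = false := by simp

/-- the core case -/
theorem l3a (hs : 3 ≤ s) (ht : 3 ≤ t) (H : ∀ a, 2 * a ≤ s → RowOK s t a) {a b : ℕ}
    (ha : 2 * a ≤ s) (hb : 2 * b ≤ t) (hab : a + b ≠ 0) {q r : ℤ × ℤ}
    (hq0 : ¬ Eqv s t q (0, 0)) (hqp : ¬ Eqv s t q ((a : ℤ), (b : ℤ)))
    (hrp : ¬ Eqv s t r ((a : ℤ), (b : ℤ)))
    (h1 : ix s t q < ix s t r) (h2 : ix s t q ≤ ix s t ((a : ℤ) - q.1, (b : ℤ) - q.2))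
    (k1 : ky s t a b ≤ ky s t q.1 q.2) (k2 : ky s t a b ≤ ky s t (q.1 - a) (q.2 - b)) :
    Cf s t {(0, 0), ((a : ℤ), (b : ℤ)), q, r} := by
  have hs0 : 0 < s := by omega
  have ht0 : 0 < t := by omega
  have hsz : (0 : ℤ) < s := by exact_mod_cast hs0
  have htz : (0 : ℤ) < t := by exact_mod_cast ht0
  set p : ℕ := a * (2 * t) + b with hp
  obtain ⟨p1, p2⟩ := idx_split (t := t) (a := a) (b := b) (by omega)
  have hpE : ofD t p = ((a : ℤ), (b : ℤ)) := by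
    unfold ofD; rw [hp, p1, p2]
  obtain ⟨q1, q2⟩ := ix_split (s := s) ht0 q
  have hqW := inW_ix hs0 ht0 q
  have hrW := inW_ix hs0 ht0 r
  have hqE := ofD_ix hs0 ht0 q
  have hrE := ofD_ix hs0 ht0 r
  have e0 : ofD t 0 = ((0 : ℤ), (0 : ℤ)) := by unfold ofD; simp
  have m1 := rz_lt hs0 q.1
  have m2 := rz_lt ht0 q.2
  have n1 := rz_dvd hs0 q.1
  have n2 := rz_dvd ht0 q.2
  have hmem : [ix s t q, p] ∈ items s t a := by
    unfold items
    rw [List.mem_flatMap]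
    refine ⟨b, List.mem_range.2 (by omega), ?_⟩
    rw [List.mem_map]
    refine ⟨ix s t q, ?_, rfl⟩
    rw [List.mem_filter, List.mem_range]
    have hw := (inW_iff ht0).1 hqW
    refine ⟨hw.1, ?_⟩
    unfold condq
    simp only [Bool.and_eq_true, cond_true, Nat.blt_eq, Nat.ble_eq, ← Bool.not_eq_true,
      Nat.beq_eq]
    refine ⟨hw.2, ?_, ?_, hab, ?_, ?_, ?_⟩
    · intro h
      apply hq0
      rw [h, e0] at hqE
      exact hqE
    · intro h
      apply hqp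
      rw [h, hpE] at hqE
      exact hqE
    · have c1 := keyN_cast hs0 ht0 a b
      have c2 := keyN_cast hs0 ht0 (Nat.div (ix s t q) (2 * t)) (Nat.mod (ix s t q) (2 * t))
      have c3 : ky s t ((Nat.div (ix s t q) (2 * t) : ℕ) : ℤ)
          ((Nat.mod (ix s t q) (2 * t) : ℕ) : ℤ) = ky s t q.1 q.2 := by
        apply ky_congr
        · change (s : ℤ) ∣ ((ix s t q / (2 * t) : ℕ) : ℤ) - q.1
          rw [q1]; exact dn n1 (by ring)
        · change (t : ℤ) ∣ ((ix s t q % (2 * t) : ℕ) : ℤ) - q.2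
          rw [q2]; exact dn n2 (by ring)
      omega
    · have c1 := keyN_cast hs0 ht0 a b
      have c2 := keyN_cast hs0 ht0 (Nat.sub (Nat.add (Nat.div (ix s t q) (2 * t)) s) a)
        (Nat.sub (Nat.add (Nat.mod (ix s t q) (2 * t)) t) b)
      have c3 : ky s t ((Nat.sub (Nat.add (Nat.div (ix s t q) (2 * t)) s) a : ℕ) : ℤ)
          ((Nat.sub (Nat.add (Nat.mod (ix s t q) (2 * t)) t) b : ℕ) : ℤ) =
          ky s t (q.1 - a) (q.2 - b) := by
        apply ky_congr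
        · change (s : ℤ) ∣ ((ix s t q / (2 * t) + s - a : ℕ) : ℤ) - (q.1 - a)
          rw [q1, Nat.cast_sub (by omega), Nat.cast_add]
          have := dvd_add ((dvd_neg).2 n1) (dvd_refl (s : ℤ))
          exact dq this (by ring)
        · change (t : ℤ) ∣ ((ix s t q % (2 * t) + t - b : ℕ) : ℤ) - (q.2 - b)
          rw [q2, Nat.cast_sub (by omega), Nat.cast_add]
          have := dvd_add ((dvd_neg).2 n2) (dvd_refl (t : ℤ))
          exact dq this (by ring)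
      omega
    · have f1 : Nat.mod (Nat.sub (Nat.add a s) (Nat.div (ix s t q) (2 * t))) s =
          rz s ((a : ℤ) - q.1) := by
        change (a + s - ix s t q / (2 * t)) % s = _
        rw [q1]
        apply rz_unique hs0 (Nat.mod_lt _ hs0)
        have g1 : ((a + s - rz s q.1 : ℕ) : ℤ) = a + s - (rz s q.1 : ℕ) := by
          rw [Nat.cast_sub (by omega), Nat.cast_add]
        have g2 : (s : ℤ) ∣ ((a + s - rz s q.1 : ℕ) : ℤ) -
            (((a + s - rz s q.1) % s : ℕ) : ℤ) := by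
          rw [Int.natCast_mod]; exact Int.dvd_self_sub_of_emod_eq rfl
        rw [g1] at g2
        have := dvd_sub (dvd_sub g2 n1) (dvd_refl (s : ℤ))
        exact dq this (by ring)
      have f2 : Nat.mod (Nat.sub (Nat.add b t) (Nat.mod (ix s t q) (2 * t))) t =
          rz t ((b : ℤ) - q.2) := by
        change (b + t - ix s t q % (2 * t)) % t = _
        rw [q2]
        apply rz_unique ht0 (Nat.mod_lt _ ht0)
        have g1 : ((b + t - rz t q.2 : ℕ) : ℤ) = b + t - (rz t q.2 : ℕ) := by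
          rw [Nat.cast_sub (by omega), Nat.cast_add]
        have g2 : (t : ℤ) ∣ ((b + t - rz t q.2 : ℕ) : ℤ) -
            (((b + t - rz t q.2) % t : ℕ) : ℤ) := by
          rw [Int.natCast_mod]; exact Int.dvd_self_sub_of_emod_eq rfl
        rw [g1] at g2
        have := dvd_sub (dvd_sub g2 n2) (dvd_refl (t : ℤ))
        exact dq this (by ring)
      rw [f1, f2]
      exact h2
  have hex : (excl [ix s t q, p]).testBit (ix s t r) = false := by
    apply excl_spec h1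
    rw [List.mem_singleton]
    intro h
    apply hrp
    rw [h, hpE] at hrE
    exact hrE
  have key := H a ha _ hmem _ hrW hex
  unfold Cfb at key
  have key' : Cf s t {ofD t (ix s t r), ofD t 0, ofD t (ix s t q), ofD t p} := key
  have key2 : Cf s t {(0, 0), ((a : ℤ), (b : ℤ)), ofD t (ix s t q), ofD t (ix s t r)} := by
    rw [e0, hpE] at key'
    have e : ({(0, 0), ((a : ℤ), (b : ℤ)), ofD t (ix s t q), ofD t (ix s t r)} :
        Multiset (ℤ × ℤ)) =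
        {ofD t (ix s t r), (0, 0), ofD t (ix s t q), ((a : ℤ), (b : ℤ))} := by
      simp only [Multiset.insert_eq_cons]
      simp only [← Multiset.singleton_add]
      abel
    rw [e]; exact key'
  refine Cf4_iso hsz htz 1 1 0 0 (Or.inl rfl) (Or.inl rfl) ?_ ?_ ?_ ?_ key2
  · simp
  · simp
  · exact ⟨dq hqE.1 (by ring), dq hqE.2 (by ring)⟩
  · exact ⟨dq hrE.1 (by ring), dq hrE.2 (by ring)⟩

theorem ix_ne {s t : ℕ} (hs : 0 < s) (ht : 0 < t) {x y : ℤ × ℤ} (h : ¬ Eqv s t x y) :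
    ix s t x ≠ ix s t y := by
  intro e
  apply h
  have h1 := ofD_ix hs ht x
  rw [e] at h1
  exact h1.trans' (ofD_ix hs ht y).symm'

theorem ix_congr {s t : ℕ} (hs : 0 < s) (ht : 0 < t) {x y : ℤ × ℤ} (h : Eqv s t x y) :
    ix s t x = ix s t y := by
  unfold ix
  have h1 : rz s x.1 = rz s y.1 := by
    apply rz_unique hs (rz_lt hs _)
    have := dvd_sub (rz_dvd hs x.1) h.1
    exact dq this (by ring)
  have h2 : rz t x.2 = rz t y.2 := by
    apply rz_unique ht (rz_lt ht _)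
    have := dvd_sub (rz_dvd ht x.2) h.2
    exact dq this (by ring)
  rw [h1, h2]

/-- the minimum of the four indices is attained at `q` or `p - q` -/
theorem l3b (hs : 3 ≤ s) (ht : 3 ≤ t) (H : ∀ a, 2 * a ≤ s → RowOK s t a) {a b : ℕ}
    (ha : 2 * a ≤ s) (hb : 2 * b ≤ t) (hab : a + b ≠ 0) {q r : ℤ × ℤ}
    (hq0 : ¬ Eqv s t q (0, 0)) (hqp : ¬ Eqv s t q ((a : ℤ), (b : ℤ)))
    (hr0 : ¬ Eqv s t r (0, 0)) (hrp : ¬ Eqv s t r ((a : ℤ), (b : ℤ)))
    (hqr : ¬ Eqv s t q r)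
    (h1 : ix s t q ≤ ix s t r ∧ ix s t q ≤ ix s t ((a : ℤ) - r.1, (b : ℤ) - r.2) ∨
      ix s t ((a : ℤ) - q.1, (b : ℤ) - q.2) ≤ ix s t r ∧
      ix s t ((a : ℤ) - q.1, (b : ℤ) - q.2) ≤ ix s t ((a : ℤ) - r.1, (b : ℤ) - r.2))
    (h2 : ix s t q ≤ ix s t ((a : ℤ) - q.1, (b : ℤ) - q.2) →
      ix s t q ≤ ix s t r ∧ ix s t q ≤ ix s t ((a : ℤ) - r.1, (b : ℤ) - r.2))
    (k1 : ky s t a b ≤ ky s t q.1 q.2) (k2 : ky s t a b ≤ ky s t (q.1 - a) (q.2 - b)) :
    Cf s t {(0, 0), ((a : ℤ), (b : ℤ)), q, r} := by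
  have hs0 : 0 < s := by omega
  have ht0 : 0 < t := by omega
  have hsz : (0 : ℤ) < s := by exact_mod_cast hs0
  have htz : (0 : ℤ) < t := by exact_mod_cast ht0
  by_cases hc : ix s t q ≤ ix s t ((a : ℤ) - q.1, (b : ℤ) - q.2)
  · have := h2 hc
    have hne := ix_ne hs0 ht0 hqr
    exact l3a hs ht H ha hb hab hq0 hqp hrp (by omega) hc k1 k2
  · have hmin : ix s t ((a : ℤ) - q.1, (b : ℤ) - q.2) ≤
        ix s t ((a : ℤ) - r.1, (b : ℤ) - r.2) := by
      rcases h1 with h1 | h1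
      · omega
      · exact h1.2
    have neg : ∀ {x y : ℤ × ℤ}, Eqv s t ((a : ℤ) - x.1, (b : ℤ) - x.2) y →
        Eqv s t x ((a : ℤ) - y.1, (b : ℤ) - y.2) := by
      intro x y h
      exact ⟨dn h.1 (by ring), dn h.2 (by ring)⟩
    have hne : ¬ Eqv s t ((a : ℤ) - q.1, (b : ℤ) - q.2) ((a : ℤ) - r.1, (b : ℤ) - r.2) := by
      intro h
      apply hqr
      have := neg h
      simp only [sub_sub_cancel] at this
      exact this
    have hlt : ix s t ((a : ℤ) - q.1, (b : ℤ) - q.2) <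
        ix s t ((a : ℤ) - r.1, (b : ℤ) - r.2) :=
      lt_of_le_of_ne hmin (ix_ne hs0 ht0 hne)
    have key := l3a hs ht H ha hb hab (q := ((a : ℤ) - q.1, (b : ℤ) - q.2))
      (r := ((a : ℤ) - r.1, (b : ℤ) - r.2))
      (by
        intro h
        have := neg h
        simp only [sub_zero] at this
        exact hqp this)
      (by
        intro h
        have := neg h
        simp only [sub_self] at this
        exact hq0 this)
      (by
        intro h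
        have := neg h
        simp only [sub_self] at this
        exact hr0 this)
      hlt (by
        simp only [sub_sub_cancel]
        have e : ix s t (q.1, q.2) = ix s t q := rfl
        omega)
      (by
        have : ky s t ((a : ℤ) - q.1) ((b : ℤ) - q.2) = ky s t (q.1 - a) (q.2 - b) := by
          rw [← ky_neg hsz htz, neg_sub, neg_sub]
        rw [this]; exact k2)
      (by
        have : ky s t ((a : ℤ) - q.1 - a) ((b : ℤ) - q.2 - b) = ky s t q.1 q.2 := by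
          rw [← ky_neg hsz htz]
          congr 1 <;> ring
        rw [this]; exact k1)
    have key2 : Cf s t {((a : ℤ), (b : ℤ)), (0, 0), ((a : ℤ) - q.1, (b : ℤ) - q.2),
        ((a : ℤ) - r.1, (b : ℤ) - r.2)} := by
      simp only [Multiset.insert_eq_cons] at key ⊢
      rw [Multiset.cons_swap]
      exact key
    refine Cf4_iso hsz htz (-1) (-1) a b (Or.inr rfl) (Or.inr rfl) ?_ ?_ ?_ ?_ key2
    · simp
    · simp
    · refine ⟨⟨0, ?_⟩, ⟨0, ?_⟩⟩ <;> simp only <;> ring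
    · refine ⟨⟨0, ?_⟩, ⟨0, ?_⟩⟩ <;> simp only <;> ring

theorem swap34 {α : Type*} (w x y z : α) : ({w, x, y, z} : Multiset α) = {w, x, z, y} := by
  simp only [Multiset.insert_eq_cons]
  simp only [← Multiset.singleton_add]
  abel

theorem l3 (hs : 3 ≤ s) (ht : 3 ≤ t) (H : ∀ a, 2 * a ≤ s → RowOK s t a) {a b : ℕ}
    (ha : 2 * a ≤ s) (hb : 2 * b ≤ t) (hab : a + b ≠ 0) {q r : ℤ × ℤ}
    (hq0 : ¬ Eqv s t q (0, 0)) (hqp : ¬ Eqv s t q ((a : ℤ), (b : ℤ)))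
    (hr0 : ¬ Eqv s t r (0, 0)) (hrp : ¬ Eqv s t r ((a : ℤ), (b : ℤ)))
    (hqr : ¬ Eqv s t q r)
    (k1 : ky s t a b ≤ ky s t q.1 q.2) (k2 : ky s t a b ≤ ky s t (q.1 - a) (q.2 - b))
    (k3 : ky s t a b ≤ ky s t r.1 r.2) (k4 : ky s t a b ≤ ky s t (r.1 - a) (r.2 - b)) :
    Cf s t {(0, 0), ((a : ℤ), (b : ℤ)), q, r} := by
  by_cases hc : min (ix s t q) (ix s t ((a : ℤ) - q.1, (b : ℤ) - q.2)) ≤
      min (ix s t r) (ix s t ((a : ℤ) - r.1, (b : ℤ) - r.2))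
  · refine l3b hs ht H ha hb hab hq0 hqp hr0 hrp hqr ?_ ?_ k1 k2
    · omega
    · intro _; omega
  · rw [swap34]
    refine l3b hs ht H ha hb hab hr0 hrp hq0 hqp (fun h => hqr h.symm') ?_ ?_ k3 k4
    · omega
    · intro _; omega

theorem l2 (hs : 3 ≤ s) (ht : 3 ≤ t) (H : ∀ a, 2 * a ≤ s → RowOK s t a)
    {x0 x1 x2 x3 : ℤ × ℤ} (h01 : ¬ Eqv s t x0 x1) (h02 : ¬ Eqv s t x0 x2)
    (h03 : ¬ Eqv s t x0 x3) (h12 : ¬ Eqv s t x1 x2) (h13 : ¬ Eqv s t x1 x3)
    (h23 : ¬ Eqv s t x2 x3)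
    (k1 : ky s t (x1.1 - x0.1) (x1.2 - x0.2) ≤ ky s t (x2.1 - x0.1) (x2.2 - x0.2))
    (k2 : ky s t (x1.1 - x0.1) (x1.2 - x0.2) ≤ ky s t (x2.1 - x1.1) (x2.2 - x1.2))
    (k3 : ky s t (x1.1 - x0.1) (x1.2 - x0.2) ≤ ky s t (x3.1 - x0.1) (x3.2 - x0.2))
    (k4 : ky s t (x1.1 - x0.1) (x1.2 - x0.2) ≤ ky s t (x3.1 - x1.1) (x3.2 - x1.2)) :
    Cf s t {x0, x1, x2, x3} := by
  have hs0 : 0 < s := by omega
  have ht0 : 0 < t := by omega
  have hsz : (0 : ℤ) < s := by exact_mod_cast hs0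
  have htz : (0 : ℤ) < t := by exact_mod_cast ht0
  obtain ⟨D1, e1, a1, a2, he1, d1, -⟩ := exists_sign hsz (x1.1 - x0.1)
  obtain ⟨D2, e2, b1, b2, he2, d2, -⟩ := exists_sign htz (x1.2 - x0.2)
  obtain ⟨a, rfl⟩ := Int.eq_ofNat_of_zero_le a1
  obtain ⟨b, rfl⟩ := Int.eq_ofNat_of_zero_le b1
  have ee1 : e1 * e1 = 1 := by rcases he1 with rfl | rfl <;> norm_num
  have ee2 : e2 * e2 = 1 := by rcases he2 with rfl | rfl <;> norm_num
  have d1' : (s : ℤ) ∣ e1 * (x1.1 - x0.1) - a := by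
    have := Dvd.dvd.mul_left d1 e1
    have e : e1 * (x1.1 - x0.1 - e1 * a) = e1 * (x1.1 - x0.1) - e1 * e1 * a := by ring
    rw [e, ee1, one_mul] at this
    exact this
  have d2' : (t : ℤ) ∣ e2 * (x1.2 - x0.2) - b := by
    have := Dvd.dvd.mul_left d2 e2
    have e : e2 * (x1.2 - x0.2 - e2 * b) = e2 * (x1.2 - x0.2) - e2 * e2 * b := by ring
    rw [e, ee2, one_mul] at this
    exact this
  have back1 : ∀ u v : ℤ, (s : ℤ) ∣ e1 * u - e1 * v → (s : ℤ) ∣ u - v := by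
    intro u v h
    have := Dvd.dvd.mul_left h e1
    have e : e1 * (e1 * u - e1 * v) = e1 * e1 * (u - v) := by ring
    rw [e, ee1, one_mul] at this
    exact this
  have back2 : ∀ u v : ℤ, (t : ℤ) ∣ e2 * u - e2 * v → (t : ℤ) ∣ u - v := by
    intro u v h
    have := Dvd.dvd.mul_left h e2
    have e : e2 * (e2 * u - e2 * v) = e2 * e2 * (u - v) := by ring
    rw [e, ee2, one_mul] at this
    exact this
  have kp : ky s t a b = ky s t (x1.1 - x0.1) (x1.2 - x0.2) := by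
    rw [← ky_sign (u := x1.1 - x0.1) (v := x1.2 - x0.2) hsz htz he1 he2]
    exact ky_congr (dn d1' (by ring)) (dn d2' (by ring))
  have kq : ∀ x : ℤ × ℤ, ky s t (e1 * (x.1 - x0.1)) (e2 * (x.2 - x0.2)) =
      ky s t (x.1 - x0.1) (x.2 - x0.2) := fun x => ky_sign hsz htz he1 he2
  have kqp : ∀ x : ℤ × ℤ, ky s t (e1 * (x.1 - x0.1) - a) (e2 * (x.2 - x0.2) - b) =
      ky s t (x.1 - x1.1) (x.2 - x1.2) := by
    intro x
    rw [← ky_sign (u := x.1 - x1.1) (v := x.2 - x1.2) hsz htz he1 he2]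
    exact ky_congr (dq d1' (by ring)) (dq d2' (by ring))
  have n0 : ∀ x : ℤ × ℤ, ¬ Eqv s t x0 x →
      ¬ Eqv s t (e1 * (x.1 - x0.1), e2 * (x.2 - x0.2)) (0, 0) := by
    intro x hx h
    apply hx
    refine ⟨?_, ?_⟩
    · have := back1 (x.1) (x0.1) (dq h.1 (by ring))
      exact dn this (by ring)
    · have := back2 (x.2) (x0.2) (dq h.2 (by ring))
      exact dn this (by ring)
  have np : ∀ x : ℤ × ℤ, ¬ Eqv s t x1 x →
      ¬ Eqv s t (e1 * (x.1 - x0.1), e2 * (x.2 - x0.2)) ((a : ℤ), (b : ℤ)) := by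
    intro x hx h
    apply hx
    refine ⟨?_, ?_⟩
    · have := back1 (x.1) (x1.1) (dq (dvd_sub h.1 d1') (by ring))
      exact dn this (by ring)
    · have := back2 (x.2) (x1.2) (dq (dvd_sub h.2 d2') (by ring))
      exact dn this (by ring)
  have hab : a + b ≠ 0 := by
    intro h
    have ha0 : a = 0 := by omega
    have hb0 : b = 0 := by omega
    subst ha0 hb0
    apply n0 x1 h01
    exact ⟨dq d1' (by simp), dq d2' (by simp)⟩
  have key := l3 hs ht H (a := a) (b := b) (by exact_mod_cast a2) (by exact_mod_cast b2) hab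
    (q := (e1 * (x2.1 - x0.1), e2 * (x2.2 - x0.2)))
    (r := (e1 * (x3.1 - x0.1), e2 * (x3.2 - x0.2)))
    (n0 x2 h02) (np x2 h12) (n0 x3 h03) (np x3 h13) (by
      intro h
      apply h23
      refine ⟨?_, ?_⟩
      · exact back1 _ _ (dq h.1 (by ring))
      · exact back2 _ _ (dq h.2 (by ring)))
    (by rw [kp, kq]; exact k1) (by rw [kp, kqp]; exact k2)
    (by rw [kp, kq]; exact k3) (by rw [kp, kqp]; exact k4)
  refine Cf4_iso hsz htz e1 e2 (-(e1 * x0.1)) (-(e2 * x0.2)) he1 he2 ?_ ?_ ?_ ?_ key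
  · simp
  · exact ⟨dq d1' (by ring), dq d2' (by ring)⟩
  · refine ⟨⟨0, ?_⟩, ⟨0, ?_⟩⟩ <;> simp only <;> ring
  · refine ⟨⟨0, ?_⟩, ⟨0, ?_⟩⟩ <;> simp only <;> ring

/-- no four points resolve -/
theorem no_four (hs : 3 ≤ s) (ht : 3 ≤ t) (H : ∀ a, 2 * a ≤ s → RowOK s t a)
    {x0 x1 x2 x3 : ℤ × ℤ} (h01 : ¬ Eqv s t x0 x1) (h02 : ¬ Eqv s t x0 x2)
    (h03 : ¬ Eqv s t x0 x3) (h12 : ¬ Eqv s t x1 x2) (h13 : ¬ Eqv s t x1 x3)
    (h23 : ¬ Eqv s t x2 x3) : Cf s t {x0, x1, x2, x3} := by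
  have hsz : (0 : ℤ) < s := by omega
  have htz : (0 : ℤ) < t := by omega
  have sy : ∀ x y : ℤ × ℤ, ky s t (x.1 - y.1) (x.2 - y.2) = ky s t (y.1 - x.1) (y.2 - x.2) := by
    intro x y
    rw [← ky_neg hsz htz, neg_sub, neg_sub]
  have ns : ∀ {x y : ℤ × ℤ}, ¬ Eqv s t x y → ¬ Eqv s t y x := fun h k => h k.symm'
  have s01 := sy x0 x1
  have s02 := sy x0 x2
  have s03 := sy x0 x3
  have s12 := sy x1 x2
  have s13 := sy x1 x3
  have s23 := sy x2 x3
  set k01 := ky s t (x1.1 - x0.1) (x1.2 - x0.2)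
  set k02 := ky s t (x2.1 - x0.1) (x2.2 - x0.2)
  set k03 := ky s t (x3.1 - x0.1) (x3.2 - x0.2)
  set k12 := ky s t (x2.1 - x1.1) (x2.2 - x1.2)
  set k13 := ky s t (x3.1 - x1.1) (x3.2 - x1.2)
  set k23 := ky s t (x3.1 - x2.1) (x3.2 - x2.2)
  have hm : ∃ m, (m = k01 ∨ m = k02 ∨ m = k03 ∨ m = k12 ∨ m = k13 ∨ m = k23) ∧
      m ≤ k01 ∧ m ≤ k02 ∧ m ≤ k03 ∧ m ≤ k12 ∧ m ≤ k13 ∧ m ≤ k23 :=
    ⟨min (min (min k01 k02) (min k03 k12)) (min k13 k23), by omega⟩
  obtain ⟨m, hm, m1, m2, m3, m4, m5, m6⟩ := hm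
  rcases hm with rfl | rfl | rfl | rfl | rfl | rfl
  · exact l2 hs ht H h01 h02 h03 h12 h13 h23 (by omega) (by omega) (by omega) (by omega)
  · -- pair 0,2
    have := l2 hs ht H (x0 := x0) (x1 := x2) (x2 := x1) (x3 := x3) h02 h01 h03 (ns h12) h23 h13
      (by omega) (by omega) (by omega) (by omega)
    have e : ({x0, x1, x2, x3} : Multiset (ℤ × ℤ)) = {x0, x2, x1, x3} := by
      simp only [Multiset.insert_eq_cons, ← Multiset.singleton_add]; abel
    rw [e]; exact this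
  · have := l2 hs ht H (x0 := x0) (x1 := x3) (x2 := x1) (x3 := x2) h03 h01 h02 (ns h13) (ns h23)
      h12 (by omega) (by omega) (by omega) (by omega)
    have e : ({x0, x1, x2, x3} : Multiset (ℤ × ℤ)) = {x0, x3, x1, x2} := by
      simp only [Multiset.insert_eq_cons, ← Multiset.singleton_add]; abel
    rw [e]; exact this
  · have := l2 hs ht H (x0 := x1) (x1 := x2) (x2 := x0) (x3 := x3) h12 (ns h01) h13 (ns h02) h23
      h03 (by omega) (by omega) (by omega) (by omega)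
    have e : ({x0, x1, x2, x3} : Multiset (ℤ × ℤ)) = {x1, x2, x0, x3} := by
      simp only [Multiset.insert_eq_cons, ← Multiset.singleton_add]; abel
    rw [e]; exact this
  · have := l2 hs ht H (x0 := x1) (x1 := x3) (x2 := x0) (x3 := x2) h13 (ns h01) h12 (ns h03)
      (ns h23) h02 (by omega) (by omega) (by omega) (by omega)
    have e : ({x0, x1, x2, x3} : Multiset (ℤ × ℤ)) = {x1, x3, x0, x2} := by
      simp only [Multiset.insert_eq_cons, ← Multiset.singleton_add]; abel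
    rw [e]; exact this
  · have := l2 hs ht H (x0 := x2) (x1 := x3) (x2 := x0) (x3 := x1) h23 (ns h02) (ns h12)
      (ns h03) (ns h13) h01 (by omega) (by omega) (by omega) (by omega)
    have e : ({x0, x1, x2, x3} : Multiset (ℤ × ℤ)) = {x2, x3, x0, x1} := by
      simp only [Multiset.insert_eq_cons, ← Multiset.singleton_add]; abel
    rw [e]; exact this

end Pool.Agent.H74.TO
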