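import Pool.Agent.H74.TO.Norm
import Pool.Agent.H74.TO.Bridge

namespace Pool.Agent.H74.TO

open SimpleGraph Pool.Agent.H74.MD

/-- some set of `k` vertices resolves the torus -/
def Has (s t k : ℕ) : Prop :=
  ∃ S : Finset (Fin s × Fin t), S.card = k ∧
    IsOuterMultisetResolving ((cycleGraph s) □ (cycleGraph t)) S

/-- vertex from integer coordinates -/
def toV {s t : ℕ} (hs : 0 < s) (ht : 0 < t) (x : ℤ × ℤ) : Fin s × Fin t :=
  (⟨rz s x.1, rz_lt hs _⟩, ⟨rz t x.2, rz_lt ht _⟩)

theorem pt_toV {s t : ℕ} (hs : 0 < s) (ht : 0 < t) (x : ℤ × ℤ) :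
    Eqv s t x (pt (toV hs ht x)) := ⟨rz_dvd hs _, rz_dvd ht _⟩

theorem has_of_list {s t : ℕ} (hs : 3 ≤ s) (ht : 3 ≤ t) (L : List (ℤ × ℤ))
    (hp : L.Pairwise (fun x y => ¬ Eqv s t x y))
    (hc : ¬ Cf s t ((L : List (ℤ × ℤ)) : Multiset (ℤ × ℤ))) : Has s t L.length := by
  have hs0 : 0 < s := by omega
  have ht0 : 0 < t := by omega
  have hnd : ((L.map (toV hs0 ht0) : List (Fin s × Fin t)) : Multiset (Fin s × Fin t)).Nodup := by
    rw [Multiset.coe_nodup]
    unfold List.Nodup
    rw [List.pairwise_map]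
    refine hp.imp ?_
    intro x y h e
    apply h
    have h1 := pt_toV hs0 ht0 x
    rw [e] at h1
    exact h1.trans' (pt_toV hs0 ht0 y).symm'
  refine ⟨⟨_, hnd⟩, ?_, ?_⟩
  · rw [Finset.card_mk, Multiset.coe_card, List.length_map]
  · rw [outer_iff hs ht]
    intro H
    apply hc
    have key := Cf_iso (s := s) (t := t) (by exact_mod_cast hs0) (by exact_mod_cast ht0) 1 1 0 0
      (Or.inl rfl) (Or.inl rfl) ((L : List (ℤ × ℤ)) : Multiset (ℤ × ℤ)) id
      (fun x => pt (toV hs0 ht0 x)) (by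
        intro x
        have := pt_toV hs0 ht0 x
        exact ⟨dq this.1 (by simp only [id]; ring), dq this.2 (by simp only [id]; ring)⟩) (by
        have e : Multiset.map (fun x => pt (toV hs0 ht0 x))
            ((L : List (ℤ × ℤ)) : Multiset (ℤ × ℤ)) =
            Multiset.map pt ((L.map (toV hs0 ht0) : List (Fin s × Fin t)) :
              Multiset (Fin s × Fin t)) := by
          rw [Multiset.map_coe, Multiset.map_coe, List.map_map]; rfl
        rw [e]; exact H)
    rw [Multiset.map_id] at key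
    exact key

/-- distance between vertices given by the index `i * t + j` -/
def dT (s t a v : ℕ) : ℕ :=
  Nat.add (cc s (Nat.sub (Nat.add (Nat.div v t) s) (Nat.div a t)))
    (cc t (Nat.sub (Nat.add (Nat.mod v t) t) (Nat.mod a t)))

/-- encoding of the distances -/
def cdL (s t : ℕ) (L : List ℕ) (v : ℕ) : ℕ :=
  L.foldr (fun a c => Nat.add (Nat.pow 8 (dT s t a v)) c) 0

def nodupB : List ℕ → Bool
  | [] => true
  | x :: l => (l.all fun y => !(Nat.beq x y)) && nodupB l

def chkRes (s t : ℕ) (L : List ℕ) : Bool :=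
  nodupB (((List.range (s * t)).filter fun v => Nat.beq (Nat.land (cdL s t L v) 7) 0).map
    (cdL s t L))

def chkL (s t : ℕ) (L : List ℕ) : Bool :=
  nodupB L && (L.all fun v => Nat.blt v (s * t))

theorem nodupB_spec : ∀ l : List ℕ, nodupB l = true → l.Nodup := by
  intro l
  induction l with
  | nil => intro _; exact List.nodup_nil
  | cons x l ih =>
    intro h
    unfold nodupB at h
    rw [Bool.and_eq_true, List.all_eq_true] at h
    rw [List.nodup_cons]
    refine ⟨?_, ih h.2⟩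
    intro hx
    have := h.1 x hx
    rw [Nat.beq_refl] at this
    exact absurd this (by simp)

theorem cdL_eq {s t : ℕ} (L : List ℕ) (v : ℕ) : cdL s t L v = enc (L.map fun a => dT s t a v) := by
  unfold cdL enc
  induction L with
  | nil => rfl
  | cons a L ih =>
    rw [List.foldr_cons, ih]
    simp only [List.map_cons, List.sum_cons]
    rfl

/-- the point with index `x` -/
def ofT (t x : ℕ) : ℤ × ℤ := (((x / t : ℕ) : ℤ), ((x % t : ℕ) : ℤ))

theorem dT_cast {s t a v : ℕ} (hs : 0 < s) (ht : 0 < t) (ha : a < s * t) {w : ℤ × ℤ}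
    (hw : Eqv s t w (ofT t v)) : (dT s t a v : ℤ) = dt s t (ofT t a) w := by
  rw [dt_congr (Eqv.refl' _ _ _) hw]
  have h1 : a / t < s := (Nat.div_lt_iff_lt_mul ht).2 ha
  have h2 : a % t < t := Nat.mod_lt _ ht
  unfold dT dt ofT
  change ((cc s (v / t + s - a / t) + cc t (v % t + t - a % t) : ℕ) : ℤ) = _
  simp only
  generalize a / t = a1 at *
  generalize a % t = a2 at *
  generalize v / t = u1 at *
  generalize v % t = u2 at *
  rw [Nat.cast_add, cc_cast hs, cc_cast ht, Nat.cast_sub (by omega), Nat.cast_sub (by omega),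
    Nat.cast_add, Nat.cast_add]
  congr 1
  · apply cyc_congr
    exact ⟨1, by ring⟩
  · apply cyc_congr
    exact ⟨1, by ring⟩

theorem ofT_inj {s t a v : ℕ} (ht : 0 < t) (ha : a < s * t) (hv : v < s * t)
    (h : Eqv s t (ofT t a) (ofT t v)) : a = v := by
  obtain ⟨k1, k2⟩ := h
  unfold ofT at k1 k2
  simp only at k1 k2
  have e1 := eq_of_dvd_lt ((Nat.div_lt_iff_lt_mul ht).2 ha) ((Nat.div_lt_iff_lt_mul ht).2 hv) k1
  have e2 := eq_of_dvd_lt (Nat.mod_lt a ht) (Nat.mod_lt v ht) k2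
  rw [← Nat.div_add_mod a t, ← Nat.div_add_mod v t, e1, e2]

theorem ofT_surj {s t : ℕ} (hs : 0 < s) (ht : 0 < t) (w : ℤ × ℤ) :
    ∃ v, v < s * t ∧ Eqv s t w (ofT t v) := by
  have h1 := rz_lt hs w.1
  have h2 := rz_lt ht w.2
  have e1 : (rz s w.1 * t + rz t w.2) / t = rz s w.1 := by
    rw [mul_comm, Nat.mul_add_div ht, Nat.div_eq_of_lt h2]; rfl
  have e2 : (rz s w.1 * t + rz t w.2) % t = rz t w.2 := by
    rw [mul_comm, Nat.mul_add_mod, Nat.mod_eq_of_lt h2]
  refine ⟨rz s w.1 * t + rz t w.2, ?_, ?_⟩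
  · calc rz s w.1 * t + rz t w.2 < rz s w.1 * t + t := by omega
      _ = (rz s w.1 + 1) * t := by ring
      _ ≤ s * t := Nat.mul_le_mul_right _ h1
  · unfold ofT Eqv
    simp only
    rw [e1, e2]
    exact ⟨rz_dvd hs _, rz_dvd ht _⟩

theorem enc_mod (l : List ℕ) (h : ∀ x ∈ l, x ≠ 0) : enc l % 2 ^ 3 = 0 := by
  unfold enc
  induction l with
  | nil => rfl
  | cons a l ih =>
    rw [List.map_cons, List.sum_cons]
    have h8 : 8 ^ a % 8 = 0 := by
      obtain ⟨k, hk⟩ := Nat.exists_eq_succ_of_ne_zero (h a List.mem_cons_self)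
      rw [hk, Nat.pow_succ]; exact Nat.mul_mod_left _ _
    have := ih (fun b hb => h b (List.mem_cons_of_mem _ hb))
    omega

theorem has_of_chk {s t : ℕ} (hs : 3 ≤ s) (ht : 3 ≤ t) (L : List ℕ)
    (hL : chkL s t L = true) (h : chkRes s t L = true) : Has s t L.length := by
  have hs0 : 0 < s := by omega
  have ht0 : 0 < t := by omega
  unfold chkL at hL
  rw [Bool.and_eq_true, List.all_eq_true] at hL
  obtain ⟨l1, l2⟩ := hL
  have l1 := nodupB_spec L l1
  have l2' : ∀ a ∈ L, a < s * t := fun a ha => by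
    have := l2 a ha
    rwa [Nat.blt_eq] at this
  have hlen : (L.map (ofT t)).length = L.length := List.length_map _
  rw [← hlen]
  apply has_of_list hs ht
  · rw [List.pairwise_map]
    refine List.Pairwise.imp_of_mem ?_ l1
    intro a b ha hb hab e
    exact hab (ofT_inj ht0 (l2' a ha) (l2' b hb) e)
  · rintro ⟨u, v, h1, h2, h3, h4⟩
    obtain ⟨u', hu1, hu2⟩ := ofT_surj hs0 ht0 u
    obtain ⟨v', hv1, hv2⟩ := ofT_surj hs0 ht0 v
    have hne : u' ≠ v' := by
      intro e
      rw [e] at hu2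
      exact h1 (hu2.trans' hv2.symm')
    have hcode : ∀ (w : ℤ × ℤ) (w' : ℕ), Eqv s t w (ofT t w') →
        code s t ((L.map (ofT t) : List (ℤ × ℤ)) : Multiset (ℤ × ℤ)) w =
        (((L.map fun a => dT s t a w').map (fun i : ℕ => (i : ℤ)) : List ℤ) : Multiset ℤ) := by
      intro w w' hw
      unfold code
      rw [Multiset.map_coe, List.map_map, List.map_map]
      congr 1
      apply List.map_congr_left
      intro b hb
      exact (dT_cast hs0 ht0 (l2' b hb) hw).symm
    have hc : ∀ l : List ℕ, ((l.map (fun i : ℕ => (i : ℤ)) : List ℤ) : Multiset ℤ) =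
        Multiset.map (fun i : ℕ => (i : ℤ)) (l : Multiset ℕ) := fun l => rfl
    rw [hcode u u' hu2, hcode v v' hv2, hc, hc] at h4
    have h5 := Multiset.map_injective (f := fun i : ℕ => (i : ℤ)) Nat.cast_injective h4
    rw [Multiset.coe_eq_coe] at h5
    have h6 : cdL s t L u' = cdL s t L v' := by
      rw [cdL_eq, cdL_eq]; exact enc_of_perm h5
    have hz : ∀ (w : ℤ × ℤ) (w' : ℕ), Eqv s t w (ofT t w') →
        (∀ a ∈ ((L.map (ofT t) : List (ℤ × ℤ)) : Multiset (ℤ × ℤ)), ¬ Eqv s t w a) →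
        Nat.beq (Nat.land (cdL s t L w') 7) 0 = true := by
      intro w w' hw hn
      rw [Nat.beq_eq]
      change cdL s t L w' &&& 7 = 0
      have e7 : (7 : ℕ) = 2 ^ 3 - 1 := by norm_num
      rw [e7, Nat.and_two_pow_sub_one_eq_mod, cdL_eq]
      have hnz : ∀ a ∈ L, dT s t a w' ≠ 0 := by
        intro a ha h0
        apply hn (ofT t a) (by
          rw [Multiset.mem_coe]; exact List.mem_map_of_mem ha)
        apply Eqv_of_dt (by exact_mod_cast hs0) (by exact_mod_cast ht0)
        rw [← dT_cast hs0 ht0 (l2' a ha) hw, h0]; rfl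
      apply enc_mod
      intro x hx
      rw [List.mem_map] at hx
      obtain ⟨a, ha, rfl⟩ := hx
      exact hnz a ha
    unfold chkRes at h
    have hnd := nodupB_spec _ h
    apply hne
    refine List.inj_on_of_nodup_map hnd ?_ ?_ h6
    · rw [List.mem_filter, List.mem_range]
      exact ⟨hu1, hz u u' hu2 h2⟩
    · rw [List.mem_filter, List.mem_range]
      exact ⟨hv1, hz v v' hv2 h3⟩

end Pool.Agent.H74.TO
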