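import Pool.Agent.H74.TO.Low

namespace Pool.Agent.H74.TO

open SimpleGraph Pool.Agent.H74.MD

/-- The outer multiset dimension of the torus `C_s □ C_t` for `3 ≤ s ≤ t`. -/
def torusValue (s t : ℕ) : ℕ :=
  if s = 3 ∧ t = 3 then 8
  else if (s = 3 ∧ t = 5) ∨ (s = 4 ∧ t = 4) then 7
  else if (s = 5 ∧ t = 5) ∨ (s = 6 ∧ t = 6) then 6
  else if s = 3 ∧ t % 2 = 0 ∧ 12 ≤ t then 3
  else if t ≤ 7 ∨ t = 9 ∨ t = 11 ∨ (t = 8 ∧ s ≠ 3) ∨ (t = 10 ∧ s ≠ 3 ∧ s ≠ 5) ∨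
      (t = 13 ∧ s ≠ 3) ∨ ((t = 12 ∨ t = 14) ∧ s % 2 = 1 ∧ 7 ≤ s) ∨
      (t = 17 ∧ s % 2 = 1 ∧ 7 ≤ s ∧ s ≠ 15) then 5
  else 4

/-- the dimension of the torus is `k` -/
def TV (s t k : ℕ) : Prop := odim ((cycleGraph s) □ (cycleGraph t)) = k

theorem tv_of {s t k : ℕ} (h : Has s t k) (hn : ∀ j < k, NoSet s t j) : TV s t k := by
  obtain ⟨S, h1, h2⟩ := h
  apply le_antisymm
  · exact odim_le h2 h1
  · apply le_odim h2
    intro S' hS'
    by_contra hlt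
    exact hn S'.card (by omega) S' rfl hS'

theorem has_swap {s t k : ℕ} (hs : 3 ≤ s) (ht : 3 ≤ t) (h : Has s t k) : Has t s k := by
  obtain ⟨S, h1, h2⟩ := h
  refine ⟨S.map (Equiv.prodComm _ _).toEmbedding, by rw [Finset.card_map, h1], ?_⟩
  rw [outer_iff ht hs]
  rw [outer_iff hs ht] at h2
  intro H
  apply h2
  apply Cf_swap
  have e : (S.map (Equiv.prodComm (Fin s) (Fin t)).toEmbedding).val.map pt =
      (S.val.map pt).map Prod.swap := by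
    rw [Finset.map_val, Multiset.map_map, Multiset.map_map]
    rfl
  rw [e] at H
  exact H

theorem tv_swap {s t : ℕ} (hs : 3 ≤ s) (ht : 3 ≤ t) :
    odim ((cycleGraph s) □ (cycleGraph t)) = odim ((cycleGraph t) □ (cycleGraph s)) := by
  unfold odim
  congr 1
  ext k
  exact ⟨fun h => has_swap hs ht h, fun h => has_swap ht hs h⟩

theorem lo3 {s t : ℕ} (hs : 3 ≤ s) (ht : 3 ≤ t) : ∀ j < 3, NoSet s t j := by
  intro j hj
  interval_cases j
  · exact noSet_zero hs ht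
  · exact noSet_one hs ht
  · exact noSet_two hs ht

theorem lo4 {s t : ℕ} (hs : 3 ≤ s) (ht : 3 ≤ t) (h3 : NoSet s t 3) : ∀ j < 4, NoSet s t j := by
  intro j hj
  rcases Nat.lt_succ_iff_lt_or_eq.1 hj with h | rfl
  · exact lo3 hs ht j h
  · exact h3

theorem lo5 {s t : ℕ} (hs : 3 ≤ s) (ht : 3 ≤ t) (h3 : NoSet s t 3)
    (h4 : ∀ a, 2 * a ≤ s → RowOK s t a) : ∀ j < 5, NoSet s t j := by
  intro j hj
  rcases Nat.lt_succ_iff_lt_or_eq.1 hj with h | rfl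
  · exact lo4 hs ht h3 j h
  · exact noSet_four hs ht h4

theorem loS {s t k : ℕ} (h : ∀ j < k, NoSet s t j) (hk : NoSet s t k) :
    ∀ j < k + 1, NoSet s t j := by
  intro j hj
  rcases Nat.lt_succ_iff_lt_or_eq.1 hj with h' | rfl
  · exact h j h'
  · exact hk

theorem com_single {s t k : ℕ} (hs : 3 ≤ s) (ht : 3 ≤ t) (h : ComOK s t 1 (2 * s * t) k) :
    NoSet s t (k + 3) := by
  apply noSet_com hs ht
  intro x hx hx0
  have := (inW_iff (by omega : 0 < t)).1 hx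
  exact ⟨1, 2 * s * t, by omega, this.1, h⟩

end Pool.Agent.H74.TO
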